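import Pool.Agent.Lib.MP_f36384_an.N.Li

/-! The area inequality and its consequences. -/

namespace Pool.Agent.Lib.MP_f36384_an

open Real Metric Complex Filter Topology Finset

/-- The area inequality for the moduli of the coefficients. -/
structure AI (x : ℕ → ℝ) : Prop where
  zero : x 0 = 0
  pos : ∀ j, 0 ≤ x j
  le : ∀ j, x j ≤ 10
  area : ∀ r : ℝ, 0 < r → r < 1 → 15 / 16 * ∑' i : ℕ, i * (x i * r ^ i) ^ 2 ≤
    Real.log 16 + 2 * ∑' i : ℕ, x i * r ^ i - 15 / 16

open MeasureTheory in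
theorem ar1_polar {f : ℂ → ENNReal} (hf : Measurable f) :
    ∫⁻ z, f z = ∫⁻ s in Set.Ioi (0 : ℝ), ENNReal.ofReal s *
      ∫⁻ θ in Set.Ioo (-π) π, f (circleMap 0 s θ) := by
  have e : ∀ p : ℝ × ℝ, Complex.polarCoord.symm p = circleMap 0 p.1 p.2 := fun p => by
    simp [circleMap, Complex.exp_mul_I]
  rw [← Complex.lintegral_comp_polarCoord_symm, polarCoord_target, Measure.volume_eq_prod,
    setLIntegral_prod]
  · refine lintegral_congr fun s => ?_
    simp only [e, smul_eq_mul]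
    rw [lintegral_const_mul' _ _ ENNReal.ofReal_ne_top]
  · simp only [e, smul_eq_mul]
    exact ((ENNReal.measurable_ofReal.comp measurable_fst).mul
      (hf.comp circleMap.continuous.measurable)).aemeasurable

open MeasureTheory in
theorem ar1_int {g : ℝ → ℝ} {a b : ℝ} (h : a ≤ b) (hg : ContinuousOn g (Set.Icc a b))
    (h0 : ∀ s ∈ Set.Ioo a b, 0 ≤ g s) :
    ∫⁻ s in Set.Ioo a b, ENNReal.ofReal (g s) = ENNReal.ofReal (∫ s in a..b, g s) := by
  rw [intervalIntegral.integral_of_le h, integral_Ioc_eq_integral_Ioo,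
    ofReal_integral_eq_lintegral_ofReal (hg.integrableOn_Icc.mono_set Set.Ioo_subset_Icc_self)
      (ae_restrict_of_forall_mem measurableSet_Ioo h0)]

theorem ar1_circle {g : ℂ → ℝ} {s : ℝ} (hg : Continuous fun θ => g (circleMap 0 s θ))
    (h0 : ∀ z, 0 ≤ g z) : ∫⁻ θ in Set.Ioo (-π) π, ENNReal.ofReal (g (circleMap 0 s θ)) =
      ENNReal.ofReal (2 * π * circleAverage g 0 s) := by
  rw [ar1_int (by linarith [pi_pos]) hg.continuousOn fun _ _ => h0 _,
    circleAverage_eq_integral_add (-π),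
    intervalIntegral.integral_comp_add_right fun θ => g (circleMap 0 s θ), smul_eq_mul,
    mul_inv_cancel_left₀ two_pi_pos.ne', zero_add, show 2 * π + -π = π by ring]

theorem ar1_sum {c : ℕ → ℂ} (hc : Cv c 1) {r : ℝ} (h0 : 0 < r) (h1 : r < 1) :
    Summable fun i : ℕ => i * (‖c i‖ * r ^ i) ^ 2 := by
  obtain ⟨C, hC⟩ := hc r h0.le h1
  refine (summable_nat_add_iff 1).1 (Summable.of_nonneg_of_le (fun i => by positivity)
    (fun i => ?_) ((hc.der.sum h0.le h1).mul_right (r * C)))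
  have e : ‖((i : ℂ) + 1) * c (i + 1)‖ = (i + 1 : ℕ) * ‖c (i + 1)‖ := by
    rw [norm_mul, ← Nat.cast_succ, Complex.norm_natCast]
  calc _ = ‖((i : ℂ) + 1) * c (i + 1)‖ * r ^ i * (r * (‖c (i + 1)‖ * r ^ (i + 1))) := by
        rw [e]
        ring
    _ ≤ _ := by gcongr; exact hC _

open MeasureTheory in
/-- The Dirichlet integral of a power series. -/
theorem dirichlet {c : ℕ → ℂ} (hc : Cv c 1) {r : ℝ} (h0 : 0 < r) (h1 : r < 1) :
    ∫⁻ z in ball (0 : ℂ) r, ENNReal.ofReal (‖deriv (Sr c) z‖ ^ 2) =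
      ENNReal.ofReal (π * ∑' i : ℕ, i * (‖c i‖ * r ^ i) ^ 2) := by
  set d : ℕ → ℂ := fun j => ((j : ℂ) + 1) * c (j + 1) with hd
  have hd1 : Cv d 1 := hc.der
  have hm : Measurable fun z => ENNReal.ofReal (‖deriv (Sr c) z‖ ^ 2) :=
    ((measurable_deriv _).norm.pow_const 2).ennreal_ofReal
  have key : ∀ s ∈ Set.Ioi (0 : ℝ), ENNReal.ofReal s * ∫⁻ θ in Set.Ioo (-π) π,
      (ball (0 : ℂ) r).indicator (fun z => ENNReal.ofReal (‖deriv (Sr c) z‖ ^ 2))
        (circleMap 0 s θ) = (Set.Iio r).indicator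
          (fun s => ∑' k, ENNReal.ofReal (2 * π * ‖d k‖ ^ 2 * s ^ (2 * k + 1))) s := by
    intro s hs
    have hs0 : 0 < s := hs
    have n : ∀ θ, ‖circleMap 0 s θ‖ = s := fun θ => by
      rw [norm_circleMap_zero, abs_of_pos hs0]
    by_cases hr : s < r
    · have p := parseval hd1 hs0 (hr.trans h1)
      have m : ∀ θ, circleMap 0 s θ ∈ ball (0 : ℂ) 1 := fun θ =>
        mem_ball_zero_iff.2 ((n θ).trans_lt (hr.trans h1))
      have e : ∀ θ, (ball (0 : ℂ) r).indicator (fun z => ENNReal.ofReal (‖deriv (Sr c) z‖ ^ 2))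
          (circleMap 0 s θ) = ENNReal.ofReal (‖Sr d (circleMap 0 s θ)‖ ^ 2) := fun θ => by
        rw [Set.indicator_of_mem (mem_ball_zero_iff.2 ((n θ).trans_lt hr)),
          (hc.hasDerivAt (mem_ball_zero_iff.1 (m θ))).deriv]
      simp only [e]
      rw [ar1_circle (g := fun z => ‖Sr d z‖ ^ 2) ((hd1.diffOn.continuousOn.comp_continuous
        (continuous_circleMap 0 s) m).norm.pow 2) fun _ => sq_nonneg _,
        Set.indicator_of_mem (show s ∈ Set.Iio r from hr), ← ENNReal.ofReal_mul hs0.le]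
      have p' := (p.mul_left (2 * π)).mul_left s
      rw [← p'.tsum_eq, ENNReal.ofReal_tsum_of_nonneg (fun k => by positivity) p'.summable]
      exact tsum_congr fun k => congrArg _ (by ring)
    · have e : ∀ θ, (ball (0 : ℂ) r).indicator (fun z => ENNReal.ofReal (‖deriv (Sr c) z‖ ^ 2))
          (circleMap 0 s θ) = 0 := fun θ =>
        Set.indicator_of_notMem (fun t => hr ((n θ).symm.trans_lt (mem_ball_zero_iff.1 t))) _
      simp only [e]
      rw [Set.indicator_of_notMem (show s ∉ Set.Iio r from hr), lintegral_zero, mul_zero]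
  have term : ∀ k : ℕ, ∫⁻ s in Set.Ioo 0 r,
      ENNReal.ofReal (2 * π * ‖d k‖ ^ 2 * s ^ (2 * k + 1)) =
      ENNReal.ofReal (π * ((k + 1 : ℕ) * (‖c (k + 1)‖ * r ^ (k + 1)) ^ 2)) := fun k => by
    have e : ‖d k‖ = (k + 1) * ‖c (k + 1)‖ := by
      rw [hd, norm_mul, ← Nat.cast_succ, Complex.norm_natCast, Nat.cast_succ]
    rw [ar1_int h0.le (by fun_prop) fun s hs => by have := hs.1; positivity,
      intervalIntegral.integral_const_mul, integral_pow, e]
    congr 1
    push_cast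
    field_simp
    ring
  have sm := ar1_sum hc h0 h1
  rw [← lintegral_indicator measurableSet_ball, ar1_polar (hm.indicator measurableSet_ball),
    setLIntegral_congr_fun measurableSet_Ioi key, lintegral_indicator measurableSet_Iio,
    Measure.restrict_restrict measurableSet_Iio, Set.Iio_inter_Ioi,
    lintegral_tsum fun k => by fun_prop, tsum_congr term, sm.tsum_eq_zero_add, Nat.cast_zero,
    zero_mul, zero_add, ← tsum_mul_left,
    ENNReal.ofReal_tsum_of_nonneg (fun k => by positivity)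
      (((summable_nat_add_iff 1).2 sm).mul_left π)]

open MeasureTheory in
/-- A radial integral. -/
theorem radial {m : ℝ} (h0 : 0 < m) (h1 : m ≤ 1) :
    ∫⁻ w in {w : ℂ | m ≤ ‖w‖}, ENNReal.ofReal (1 / ‖w‖ ^ 2 - 1 / 16) ≤
      ENNReal.ofReal (π * (Real.log 16 - 2 * Real.log m - 15 / 16)) := by
  have ms : MeasurableSet {w : ℂ | m ≤ ‖w‖} := measurableSet_le measurable_const measurable_norm
  have hm : Measurable fun w : ℂ => ENNReal.ofReal (1 / ‖w‖ ^ 2 - 1 / 16) := by fun_prop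
  have key : ∀ s ∈ Set.Ioi (0 : ℝ), ENNReal.ofReal s * ∫⁻ θ in Set.Ioo (-π) π,
      {w : ℂ | m ≤ ‖w‖}.indicator (fun w => ENNReal.ofReal (1 / ‖w‖ ^ 2 - 1 / 16))
        (circleMap 0 s θ) ≤ (Set.Ico m 4).indicator
          (fun s => ENNReal.ofReal (2 * π * (1 / s - s / 16))) s := by
    intro s hs
    have hs0 : 0 < s := hs
    have n : ∀ θ, ‖circleMap 0 s θ‖ = s := fun θ => by
      rw [norm_circleMap_zero, abs_of_pos hs0]
    simp only [Set.indicator_apply, Set.mem_ofPred_eq, n, Set.mem_Ico]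
    by_cases a : m ≤ s
    · by_cases b : s < 4
      · rw [if_pos a, if_pos ⟨a, b⟩, setLIntegral_const, Real.volume_Ioo,
          mul_comm _ (ENNReal.ofReal (π - -π)), ← ENNReal.ofReal_mul (by linarith [pi_pos]),
          ← ENNReal.ofReal_mul hs0.le]
        refine (congrArg _ ?_).le
        field_simp
        ring
      · have : 1 / s ^ 2 ≤ 1 / 16 := one_div_le_one_div_of_le (by norm_num) (by nlinarith)
        rw [if_pos a, ENNReal.ofReal_of_nonpos (sub_nonpos.2 this), lintegral_zero, mul_zero]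
        exact zero_le
    · rw [if_neg a, lintegral_zero, mul_zero]
      exact zero_le
  have h4 : m ≤ 4 := by linarith
  have n0 : (0 : ℝ) ∉ Set.uIcc m 4 := by
    rw [Set.uIcc_of_le h4]
    exact fun t => absurd t.1 (not_le.2 h0)
  have co : ContinuousOn (fun s : ℝ => 1 / s) (Set.Icc m 4) :=
    continuousOn_const.div continuousOn_id fun s hs => (h0.trans_le hs.1).ne'
  have e16 : Real.log 16 = 2 * Real.log 4 := by
    rw [show (16 : ℝ) = 4 ^ 2 by norm_num, Real.log_pow, Nat.cast_ofNat]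
  rw [← lintegral_indicator ms, ar1_polar (hm.indicator ms)]
  refine (setLIntegral_mono' measurableSet_Ioi key).trans
    ((setLIntegral_le_lintegral _ _).trans ?_)
  rw [lintegral_indicator measurableSet_Ico, ← setLIntegral_congr Ioo_ae_eq_Ico,
    ar1_int (g := fun s => 2 * π * (1 / s - s / 16)) h4
      (continuousOn_const.mul (co.sub (by fun_prop))) fun s hs => ?_,
    intervalIntegral.integral_const_mul, intervalIntegral.integral_sub
      (co.intervalIntegrable_of_Icc h4) (Continuous.intervalIntegrable (by fun_prop) _ _),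
    integral_one_div n0, intervalIntegral.integral_div, integral_id,
    Real.log_div (by norm_num) h0.ne', e16]
  · refine ENNReal.ofReal_le_ofReal ?_
    have : m ^ 2 ≤ 1 := by nlinarith
    nlinarith [pi_pos]
  · have a := h0.trans hs.1
    have : s / 16 ≤ 1 / s := by
      rw [div_le_div_iff₀ (by norm_num) a]
      nlinarith [hs.2]
    exact mul_nonneg two_pi_pos.le (sub_nonneg.2 this)

theorem ar1_det (a : ℂ) :
    |((ContinuousLinearMap.toSpanSingleton ℂ a).restrictScalars ℝ).det| = ‖a‖ ^ 2 := by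
  simp [ContinuousLinearMap.det, LinearMap.det_restrictScalars, Algebra.norm_complex_eq,
    Complex.normSq_eq_norm_sq]

theorem ar1_pt {a w : ℂ} (hw : w ≠ 0) : ENNReal.ofReal (‖a‖ ^ 2) ≤
    ENNReal.ofReal (1 / 16) * ENNReal.ofReal (‖w * a‖ ^ 2) +
      ENNReal.ofReal (‖w * a‖ ^ 2) * ENNReal.ofReal (1 / ‖w‖ ^ 2 - 1 / 16) := by
  have := norm_pos_iff.2 hw
  rw [← ENNReal.ofReal_mul (by norm_num), ← ENNReal.ofReal_mul (sq_nonneg _)]
  refine le_trans (congrArg _ ?_).le ENNReal.ofReal_add_le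
  rw [norm_mul]
  field_simp
  ring

open MeasureTheory in
theorem area {c e : ℕ → ℂ} (hc : ∀ j, ‖c j‖ ≤ 10) (c0 : c 0 = 0) (he : ∀ j, ‖e j‖ ≤ ‖c j‖)
    (hF : ∀ z : ℂ, ‖z‖ < 1 → Complex.exp (Sr c z) = 1 + Sr e z)
    (inj : Set.InjOn (fun z => Complex.exp (Sr c z)) (ball 0 1)) : AI fun j => ‖c j‖ := by
  refine ⟨by rw [c0, norm_zero], fun _ => norm_nonneg _, hc, fun r h0 h1 => ?_⟩
  have c1 : Cv c 1 := cv_one hc
  have e1 : Cv e 1 := cv_one fun j => (he j).trans (hc j)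
  have sb : ball (0 : ℂ) r ⊆ ball 0 1 := ball_subset_ball h1.le
  have sX := c1.sum h0.le h1
  set X := ∑' i : ℕ, ‖c i‖ * r ^ i with hX
  have X0 : 0 ≤ X := tsum_nonneg fun i => by positivity
  have dF : ∀ z ∈ ball (0 : ℂ) 1, HasDerivAt (fun z => Complex.exp (Sr c z))
      (Complex.exp (Sr c z) * deriv (Sr c) z) z := fun z hz =>
    (c1.diffOn.differentiableAt (isOpen_ball.mem_nhds hz)).hasDerivAt.cexp
  have dE : ∀ z ∈ ball (0 : ℂ) 1, deriv (Sr e) z = Complex.exp (Sr c z) * deriv (Sr c) z :=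
    fun z hz => by
      rw [← (dF z hz).deriv, ← deriv_const_add 1]
      exact EventuallyEq.deriv_eq (eventually_of_mem (isOpen_ball.mem_nhds hz)
        fun y hy => (hF y (mem_ball_zero_iff.1 hy)).symm)
  have im : (fun z => Complex.exp (Sr c z)) '' ball 0 r ⊆ {w : ℂ | Real.exp (-X) ≤ ‖w‖} := by
    rintro _ ⟨z, hz, rfl⟩
    have : ‖Sr c z‖ ≤ X := tsum_of_norm_bounded sX.hasSum fun i => by
      rw [norm_mul, norm_pow]
      gcongr
      exact (mem_ball_zero_iff.1 hz).le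
    change _ ≤ ‖Complex.exp (Sr c z)‖
    rw [Complex.norm_exp]
    exact Real.exp_le_exp.2 (neg_le_of_abs_le ((Complex.abs_re_le_norm _).trans this))
  have ar := lintegral_image_eq_lintegral_abs_det_fderiv_mul volume measurableSet_ball
    (fun z hz => ((dF z (sb hz)).hasFDerivAt.restrictScalars ℝ).hasFDerivWithinAt) (inj.mono sb)
    fun w => ENNReal.ofReal (1 / ‖w‖ ^ 2 - 1 / 16)
  simp only [ar1_det] at ar
  have rd := radial (Real.exp_pos (-X)) (Real.exp_le_one_iff.2 (neg_nonpos.2 X0))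
  rw [Real.log_exp] at rd
  have hm : Measurable fun z => ENNReal.ofReal (‖deriv (Sr e) z‖ ^ 2) :=
    ((measurable_deriv _).norm.pow_const 2).ennreal_ofReal
  have BA : ∑' i : ℕ, i * (‖e i‖ * r ^ i) ^ 2 ≤ ∑' i : ℕ, i * (‖c i‖ * r ^ i) ^ 2 :=
    (ar1_sum e1 h0 h1).tsum_le_tsum (fun i => by gcongr; exact he i) (ar1_sum c1 h0 h1)
  have B0 : 0 ≤ ∑' i : ℕ, i * (‖e i‖ * r ^ i) ^ 2 := tsum_nonneg fun i => by positivity
  have l1 : 1 ≤ Real.log 16 := by
    rw [Real.le_log_iff_exp_le (by norm_num)]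
    linarith [Real.exp_one_lt_d9]
  have main : ENNReal.ofReal (π * ∑' i : ℕ, i * (‖c i‖ * r ^ i) ^ 2) ≤
      ENNReal.ofReal (1 / 16 * (π * ∑' i : ℕ, i * (‖e i‖ * r ^ i) ^ 2) +
        π * (Real.log 16 - 2 * -X - 15 / 16)) := by
    rw [ENNReal.ofReal_add (by positivity) (mul_nonneg pi_pos.le (by linarith)),
      ENNReal.ofReal_mul (p := 1 / 16) (by norm_num), ← dirichlet c1 h0 h1, ← dirichlet e1 h0 h1,
      ← lintegral_const_mul _ hm]
    refine le_trans ?_ (add_le_add le_rfl (ar.ge.trans ((lintegral_mono_set im).trans rd)))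
    rw [← lintegral_add_left (hm.const_mul _)]
    refine setLIntegral_mono' measurableSet_ball fun z hz => ?_
    rw [dE z (sb hz)]
    exact ar1_pt (Complex.exp_ne_zero _)
  rw [ENNReal.ofReal_le_ofReal_iff (add_nonneg (by positivity)
    (mul_nonneg pi_pos.le (by linarith)))] at main
  refine le_of_mul_le_mul_left ?_ pi_pos
  nlinarith [mul_le_mul_of_nonneg_left BA pi_pos.le]

theorem ai_hj {t : ℂ} (ht : An t) : AI fun j => ‖hj t j‖ :=
  area (hj_le ht) (hj_zero t) (fun j => by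
    rw [norm_mul, norm_pow]
    exact mul_le_of_le_one_right (norm_nonneg _) (pow_le_one₀ (norm_nonneg _) ht.2.le))
    (fun _ hz => exp_hj ht hz) (inj_hj ht)

variable {x : ℕ → ℝ}

theorem AI.core (h : AI x) {r β : ℝ} (h0 : 0 < r) (h1 : r < 1) (N : ℕ) (hβ : ∀ i, N < i → x i ≤ β) :
    ∑ i ∈ Icc 1 N, (i * (x i * r ^ i) - 16 / 15) ^ 2 / i ≤ 16 / 15 * Real.log 16 - 1 +
      (16 / 15) ^ 2 * ∑ i ∈ Icc 1 N, (1 : ℝ) / i + 32 / 15 * β * r ^ (N + 1) / (1 - r) := by
  have g := hasSum_geometric_of_lt_one h0.le h1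
  have y0 : ∀ i, 0 ≤ x i * r ^ i := fun i => mul_nonneg (h.pos i) (by positivity)
  have y1 : ∀ i, x i * r ^ i ≤ 10 * r ^ i := fun i => by gcongr; exact h.le i
  have s1 : Summable fun i => x i * r ^ i := .of_nonneg_of_le y0 y1 (g.summable.mul_left 10)
  have s2 : Summable fun i : ℕ => i * (x i * r ^ i) ^ 2 := .of_nonneg_of_le
    (fun i => by positivity) (fun i => by
      have := (y1 i).trans (mul_le_of_le_one_right (by norm_num) (pow_le_one₀ h0.le h1.le))
      calc _ ≤ i * (10 * (10 * r ^ i)) := by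
            rw [sq]
            exact mul_le_mul_of_nonneg_left (mul_le_mul this (y1 i) (y0 i) (by norm_num))
              i.cast_nonneg
        _ = 100 * ((i : ℝ) ^ 1 * r ^ i) := by ring)
    ((summable_pow_mul_geometric_of_norm_lt_one 1
      (show ‖r‖ < 1 by rwa [Real.norm_of_nonneg h0.le])).mul_left 100)
  have a := s2.sum_le_tsum (Icc 1 N) fun i _ => by positivity
  have b := s1.sum_add_tsum_nat_add (N + 1)
  have c : ∑' i, x (i + (N + 1)) * r ^ (i + (N + 1)) ≤ β * r ^ (N + 1) / (1 - r) := by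
    rw [div_eq_mul_inv]
    refine hasSum_le (fun i => ?_) ((summable_nat_add_iff (N + 1)).2 s1).hasSum
      (g.mul_left (β * r ^ (N + 1)))
    rw [pow_add, mul_comm (r ^ i), mul_assoc]
    exact mul_le_mul_of_nonneg_right (hβ _ (by omega)) (by positivity)
  rw [sum_range_succ', h.zero, zero_mul, add_zero, range_eq_Ico,
    sum_Ico_add' (fun i => x i * r ^ i), zero_add, Ico_add_one_right_eq_Icc] at b
  have e : ∑ i ∈ Icc 1 N, (i * (x i * r ^ i) - 16 / 15) ^ 2 / i =
      ∑ i ∈ Icc 1 N, i * (x i * r ^ i) ^ 2 - 32 / 15 * ∑ i ∈ Icc 1 N, x i * r ^ i +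
        (16 / 15) ^ 2 * ∑ i ∈ Icc 1 N, (1 : ℝ) / i := by
    rw [mul_sum, mul_sum, ← sum_sub_distrib, ← sum_add_distrib]
    refine sum_congr rfl fun i hi => ?_
    have : (i : ℝ) ≠ 0 := Nat.cast_ne_zero.2 (by have := mem_Icc.1 hi; omega)
    field_simp
    ring
  have := h.area r h0 h1
  rw [e, mul_assoc, mul_div_assoc]
  linarith

theorem ar2_pow {t : ℝ} (h0 : 0 ≤ t) (h1 : t ≤ 1) (N : ℕ) :
    (1 - t) ^ (N + 1) ≤ (Real.exp (N * t))⁻¹ := by
  rw [← Real.exp_neg, ← mul_neg, Real.exp_nat_mul]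
  exact (pow_le_pow_of_le_one (by linarith) (by linarith) N.le_succ).trans
    (pow_le_pow_left₀ (by linarith) (by linarith [Real.add_one_le_exp (-t)]) N)

theorem ar2_har {N : ℕ} (h : 6 ≤ N) : ∑ i ∈ Icc 1 N, (1 : ℝ) / i ≤ Real.log N + 2 / 3 := by
  have a := (Real.strictAnti_eulerMascheroniSeq'.antitone h).trans_lt
    Real.eulerMascheroniSeq'_six_lt_two_thirds
  rw [Real.eulerMascheroniSeq', if_neg (by omega), harmonic_eq_sum_Icc] at a
  push_cast at a
  simp only [one_div]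
  linarith

theorem ar2_log : Real.log 16 < 2.7726 := by
  rw [show (16 : ℝ) = 2 ^ 4 by norm_num, Real.log_pow]
  linarith [Real.log_two_lt_d9, (by norm_num : ((4 : ℕ) : ℝ) * Real.log 2 = 4 * Real.log 2)]

theorem AI.big (h : AI x) {j : ℕ} (hj : 17 ≤ j) : x j ≤ 99 / 100 := by
  by_contra! hx
  have j0 : (17 : ℝ) ≤ j := by exact_mod_cast hj
  have t0 : 0 < 1 / (10 * (j : ℝ)) := by positivity
  have t1 : 1 / (10 * (j : ℝ)) < 1 := (div_lt_one (by positivity)).2 (by linarith)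
  have a := (single_le_sum (f := fun i : ℕ => (i * (x i * (1 - 1 / (10 * (j : ℝ))) ^ i) -
      16 / 15) ^ 2 / i) (fun i _ => by positivity)
    (mem_Icc.2 (show 1 ≤ j ∧ j ≤ 6 * j ^ 2 from ⟨by omega, by nlinarith⟩))).trans
    (h.core (by linarith) (by linarith) (6 * j ^ 2) fun i _ => h.le i)
  have b := one_add_mul_le_pow (a := -(1 / (10 * (j : ℝ)))) (by linarith) j
  rw [show 1 + j * -(1 / (10 * (j : ℝ))) = 9 / 10 by field_simp; ring, ← sub_eq_add_neg] at b
  have c := mul_le_mul hx.le b (by norm_num) (h.pos j)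
  have d := ar2_pow t0.le t1.le (6 * j ^ 2)
  rw [show ((6 * j ^ 2 : ℕ) : ℝ) * (1 / (10 * (j : ℝ))) = (10 : ℕ) * 1 + (6 / 10 * j - 10) by
    push_cast; field_simp; ring, Real.exp_add, Real.exp_nat_mul] at d
  have d1 : (22000 : ℝ) ≤ Real.exp 1 ^ 10 :=
    le_trans (by norm_num) (pow_le_pow_left₀ (by norm_num) Real.exp_one_gt_d9.le 10)
  have d2 := d.trans (inv_anti₀ (by nlinarith) (le_trans (by linarith : 1067 * (j : ℝ) ≤ _)
    (mul_le_mul d1 (Real.add_one_le_exp _) (by linarith) (by positivity))))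
  have e := ar2_har (N := 6 * j ^ 2) (by nlinarith)
  rw [show ((6 * j ^ 2 : ℕ) : ℝ) = 2 ^ 11 * (1734 / 2048) * (j / 17) ^ 2 by push_cast; ring,
    Real.log_mul (by norm_num) (by positivity), Real.log_mul (by norm_num) (by norm_num),
    Real.log_pow, Real.log_pow] at e
  have e1 := Real.log_le_sub_one_of_pos (by norm_num : (0 : ℝ) < 1734 / 2048)
  have e2 := Real.log_le_sub_one_of_pos (by positivity : (0 : ℝ) < j / 17)
  have f : 32 / 15 * 10 * (1 - 1 / (10 * (j : ℝ))) ^ (6 * j ^ 2 + 1) /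
      (1 - (1 - 1 / (10 * (j : ℝ)))) ≤ 1 / 5 := by
    rw [sub_sub_cancel, div_le_iff₀ t0]
    refine (mul_le_mul_of_nonneg_left d2 (by norm_num)).trans ?_
    field_simp
    norm_num
  have g : 0.7938 * (j : ℝ) - 1.901 ≤
      (j * (x j * (1 - 1 / (10 * (j : ℝ))) ^ j) - 16 / 15) ^ 2 / j := by
    rw [le_div_iff₀ (by positivity)]
    refine le_trans (by nlinarith) (pow_le_pow_left₀ (by linarith)
      (sub_le_sub_right (mul_le_mul_of_nonneg_left c (by positivity)) (16 / 15)) 2)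
  push_cast at e
  linarith [ar2_log, Real.log_two_lt_d9]

theorem AI.cell (h : AI x) :
    ∑ i ∈ Icc 1 16, (i * (x i * (99 / 100) ^ i) - 16 / 15) ^ 2 / i ≤ (52 / 5 : ℝ) := by
  have a := h.core (r := 99 / 100) (β := 1) (by norm_num) (by norm_num) 700 fun i hi =>
    (h.big (by omega)).trans (by norm_num)
  have b := ar2_har (N := 700) (by norm_num)
  have c := Real.log_le_sub_one_of_pos (by norm_num : (0 : ℝ) < 700 ^ 2 / 2 ^ 19)
  rw [Real.log_div (by norm_num) (by norm_num), Real.log_pow, Real.log_pow] at c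
  have d : (99 / 100 : ℝ) ^ (700 + 1) ≤ 1 / 1000 :=
    (pow_le_pow_of_le_one (by norm_num) (by norm_num) (by norm_num : 100 * 7 ≤ _)).trans (by
      rw [pow_mul]
      exact (pow_le_pow_left₀ (by positivity) (by norm_num : _ ≤ (367 / 1000 : ℝ)) 7).trans
        (by norm_num))
  refine le_trans (sum_le_sum_of_subset_of_nonneg (Icc_subset_Icc_right (by norm_num : 16 ≤ 700))
    fun i _ _ => by positivity) (a.trans ?_)
  generalize (99 / 100 : ℝ) ^ (700 + 1) = q at d
  generalize ∑ i ∈ Icc 1 700, (1 : ℝ) / ((i : ℕ) : ℝ) = H at b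
  clear a
  push_cast at b c
  rw [show (1 : ℝ) - 99 / 100 = 1 / 100 by norm_num]
  linarith [ar2_log, Real.log_two_lt_d9]

theorem ar2_part (h : AI x) (n : ℕ) : ∑ i ∈ Icc 1 n, i * x i ^ 2 ≤ 500 * √n := by
  rcases n.eq_zero_or_pos with rfl | n0
  · simp
  have n1 : (1 : ℝ) ≤ n := by exact_mod_cast n0
  have t0 : 0 < 1 / (2 * (n : ℝ)) := by positivity
  have t1 : 1 / (2 * (n : ℝ)) < 1 := (div_lt_one (by positivity)).2 (by linarith)
  have a := h.core (r := 1 - 1 / (2 * (n : ℝ))) (by linarith) (by linarith) (2 * n ^ 2)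
    fun i _ => h.le i
  have d := ar2_pow t0.le t1.le (2 * n ^ 2)
  rw [show ((2 * n ^ 2 : ℕ) : ℝ) * (1 / (2 * (n : ℝ))) = n by push_cast; field_simp] at d
  have f : 32 / 15 * 10 * (1 - 1 / (2 * (n : ℝ))) ^ (2 * n ^ 2 + 1) /
      (1 - (1 - 1 / (2 * (n : ℝ)))) ≤ 43 := by
    rw [sub_sub_cancel, div_le_iff₀ t0]
    refine (mul_le_mul_of_nonneg_left (d.trans (inv_anti₀ (by positivity)
      (by linarith [Real.add_one_le_exp n] : (n : ℝ) ≤ _))) (by norm_num)).trans ?_
    field_simp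
    norm_num
  have q := Real.one_le_sqrt.2 n1
  have e := harmonic_le_one_add_log (2 * n ^ 2)
  rw [harmonic_eq_sum_Icc, show ((2 * n ^ 2 : ℕ) : ℝ) = 2 * (√n ^ 2) ^ 2 by
    rw [Real.sq_sqrt n.cast_nonneg]; push_cast; rfl, Real.log_mul (by norm_num) (by positivity),
    Real.log_pow, Real.log_pow] at e
  have e1 := Real.log_le_sub_one_of_pos (zero_lt_one.trans_le q)
  have b : ∑ i ∈ Icc 1 n, i * x i ^ 2 ≤ ∑ i ∈ Icc 1 (2 * n ^ 2),
      (8 * ((i * (x i * (1 - 1 / (2 * (n : ℝ))) ^ i) - 16 / 15) ^ 2 / i) + 10 * (1 / (i : ℝ))) := by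
    refine le_trans (sum_le_sum fun i hi => ?_) (sum_le_sum_of_subset_of_nonneg
      (Icc_subset_Icc_right (by nlinarith : n ≤ _)) fun i _ _ => by positivity)
    obtain ⟨i1, i2⟩ := mem_Icc.1 hi
    have i0 : (0 : ℝ) < i := by exact_mod_cast i1
    have c := (one_add_mul_le_pow (a := -(1 / (2 * (n : ℝ)))) (by linarith) n).trans
      (pow_le_pow_of_le_one (by linarith) (by linarith) i2)
    rw [show 1 + n * -(1 / (2 * (n : ℝ))) = 1 / 2 by field_simp; ring, ← sub_eq_add_neg] at c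
    have c1 := pow_le_pow_left₀ (by have := h.pos i; positivity)
      (mul_le_mul_of_nonneg_left (mul_le_mul_of_nonneg_left c (h.pos i)) i0.le) 2
    rw [← mul_div_assoc, ← mul_div_assoc, ← add_div, le_div_iff₀ i0]
    generalize i * (x i * (1 - 1 / (2 * (n : ℝ))) ^ i) = z at c1
    nlinarith [sq_nonneg (z - 32 / 15)]
  rw [sum_add_distrib, ← mul_sum, ← mul_sum] at b
  push_cast at e
  simp only [← one_div] at e
  linarith [ar2_log, Real.log_two_lt_d9]

theorem ai_sq : ∃ C : ℝ, ∀ x : ℕ → ℝ, AI x → ∀ S : Finset ℕ, ∑ j ∈ S, x j ^ 2 ≤ C := by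
  have s := Real.summable_one_div_nat_rpow.2 (by norm_num : (1 : ℝ) < 3 / 2)
  refine ⟨500 + 500 * ∑' m : ℕ, 1 / (m : ℝ) ^ (3 / 2 : ℝ), fun x h S => ?_⟩
  have e : ∀ n : ℕ, ∑ i ∈ range (n + 1), x i ^ 2 = (∑ i ∈ Icc 1 n, i * x i ^ 2) / (n + 1) +
      ∑ m ∈ Icc 1 n, (∑ i ∈ Icc 1 m, i * x i ^ 2) / (m * (m + 1)) := fun n => by
    induction n with
    | zero => simp [h.zero]
    | succ n ih =>
      rw [sum_range_succ, ih, sum_Icc_succ_top n.succ_pos, sum_Icc_succ_top n.succ_pos,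
        sum_Icc_succ_top n.succ_pos]
      push_cast
      field_simp
      ring
  obtain ⟨n, hn⟩ := S.exists_nat_subset_range
  refine (sum_le_sum_of_subset_of_nonneg (hn.trans (range_subset_range.2 n.le_succ))
    fun i _ _ => sq_nonneg _).trans ((e n).trans_le (add_le_add ?_ ?_))
  · rw [div_le_iff₀ (by positivity)]
    refine (ar2_part h n).trans (mul_le_mul_of_nonneg_left (Real.sqrt_le_iff.2
      ⟨by positivity, ?_⟩) (by norm_num))
    nlinarith [n.cast_nonneg (α := ℝ)]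
  · rw [← tsum_mul_left]
    refine le_trans (sum_le_sum fun m hm => ?_)
      ((s.mul_left 500).sum_le_tsum (Icc 1 n) fun i _ => by positivity)
    have m0 : (0 : ℝ) < m := by exact_mod_cast (mem_Icc.1 hm).1
    rw [div_le_iff₀ (by positivity), show (3 / 2 : ℝ) = 1 + 1 / 2 by norm_num, Real.rpow_add m0,
      Real.rpow_one, ← Real.sqrt_eq_rpow]
    refine (ar2_part h m).trans ?_
    have := Real.sqrt_pos.2 m0
    field_simp
    rw [Real.sq_sqrt m0.le]
    linarith

end Pool.Agent.Lib.MP_f36384_an
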