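import Pool.Agent.Lib.MP_f36384_an.N.Po

/-! The orbit moves little near a point where the iterates blow up. -/

namespace Pool.Agent.Lib.MP_f36384_an

open Real Metric Complex Filter Topology Finset

/-- The average of the positive parts of the real parts of the first iterates. -/
noncomputable def uu (N : ℕ) (t w : ℂ) : ℝ :=
  (∑ K ∈ range N, max ((fm t)^[K + 1] w).re 0) / N

theorem ba_cont (k : ℕ) : Continuous fun p : ℂ × ℂ => (fm p.1)^[k] p.2 := by
  induction k with
  | zero => exact continuous_snd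
  | succ k ih =>
    simp only [Function.iterate_succ_apply', fm]
    exact continuous_fst.mul (ih.cexp.sub continuous_const)

theorem ba_diff (t : ℂ) (k : ℕ) : Differentiable ℂ (fm t)^[k] :=
  Differentiable.iterate (by unfold fm; fun_prop) k

theorem ba_sel (N : ℕ) (t w : ℂ) : ∃ A : Finset ℕ,
    uu N t w = ((∑ K ∈ A, (fm t)^[K + 1] w) / N).re ∧
      ∀ t' w', ((∑ K ∈ A, (fm t')^[K + 1] w') / N).re ≤ uu N t' w' := by
  refine ⟨(range N).filter fun K => 0 ≤ ((fm t)^[K + 1] w).re, ?_, fun t' w' => ?_⟩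
  · rw [div_natCast_re, re_sum, sum_filter, uu]
    simp only [max_def']
  · rw [div_natCast_re, re_sum, sum_filter, uu]
    gcongr with K
    split_ifs
    exacts [le_max_left _ _, le_max_right _ _]

theorem uu_nonneg (N : ℕ) (t w : ℂ) : 0 ≤ uu N t w :=
  div_nonneg (sum_nonneg fun _ _ => le_max_right _ _) N.cast_nonneg

theorem uu_cont (N : ℕ) : Continuous fun p : ℂ × ℂ => uu N p.1 p.2 := by
  exact (continuous_finsetSum _ fun K _ =>
    (continuous_re.comp (ba_cont _)).max continuous_const).div_const _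

theorem uu_unif (N : ℕ) (L : ℝ) : ∃ κ : ℝ, 0 < κ ∧ ∀ t t' w w' : ℂ, ‖t‖ ≤ 1 → ‖w‖ ≤ L →
    ‖t' - t‖ ≤ κ → ‖w' - w‖ ≤ κ → uu N t w - 1 ≤ uu N t' w' := by
  obtain ⟨δ, h0, h⟩ := Metric.uniformContinuousOn_iff.1
    (((isCompact_closedBall (0 : ℂ) 2).prod
      (isCompact_closedBall (0 : ℂ) (L + 1))).uniformContinuousOn_of_continuous
      (uu_cont N).continuousOn) 1 one_pos
  refine ⟨min (δ / 2) 1, by positivity, fun t t' w w' a b c d => ?_⟩
  obtain ⟨c1, c2⟩ := le_min_iff.1 c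
  obtain ⟨d1, d2⟩ := le_min_iff.1 d
  have := h (t', w') ⟨mem_closedBall_zero_iff.2 (by linarith [norm_le_norm_add_norm_sub' t' t]),
    mem_closedBall_zero_iff.2 (by linarith [norm_le_norm_add_norm_sub' w' w])⟩ (t, w)
    ⟨mem_closedBall_zero_iff.2 (by linarith), mem_closedBall_zero_iff.2 (by linarith)⟩
    (by rw [Prod.dist_eq, dist_eq_norm, dist_eq_norm]; exact max_lt (by linarith) (by linarith))
  rw [Real.dist_eq] at this
  linarith [(abs_lt.1 this).1]

theorem ring_pt {N : ℕ} {t w p : ℂ} {s : ℝ} (hs : 0 < s) (hp : ‖p - w‖ ≤ s) :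
    ∃ y, ‖y - w‖ = s ∧ uu N t p ≤ uu N t y := by
  obtain ⟨A, e, h⟩ := ba_sel N t p
  have hd : Differentiable ℂ fun y => Complex.exp ((∑ K ∈ A, (fm t)^[K + 1] y) / N) :=
    ((Differentiable.fun_sum fun K _ => ba_diff t _).div_const _).cexp
  obtain ⟨y, h1, h2⟩ := Complex.exists_mem_frontier_isMaxOn_norm (U := ball w s) isBounded_ball
    (nonempty_ball.2 hs) hd.diffContOnCl
  rw [frontier_ball _ hs.ne'] at h1
  have := h2 (show p ∈ closure (ball w s) by rwa [closure_ball _ hs.ne', mem_closedBall_iff_norm])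
  simp only [Set.mem_ofPred_eq, Function.comp_apply, Complex.norm_exp, Real.exp_le_exp] at this
  exact ⟨y, mem_sphere_iff_norm.1 h1, e.trans_le (this.trans (h t y))⟩

theorem prod_lb (m : ℕ) (x : ℝ) :
    (m.factorial : ℝ) / 4 ^ m ≤ ∏ i ∈ range m, max 1 |x - i| := by
  induction m generalizing x with
  | zero => simp
  | succ m ih =>
    have k : ∀ y : ℝ, m / 2 ≤ |y| → ((m : ℝ) + 1) / 4 ≤ max 1 |y| := fun y h => by
      linarith [le_max_left 1 |y|, le_max_right 1 |y|]
    have e : ((m + 1).factorial : ℝ) / 4 ^ (m + 1) = m.factorial / 4 ^ m * ((m + 1) / 4) := by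
      rw [Nat.factorial_succ]
      push_cast
      ring
    rw [e]
    rcases le_total x (m / 2) with h | h
    · rw [prod_range_succ]
      exact mul_le_mul (ih x) (k _ (le_abs.2 (.inr (by linarith)))) (by positivity) (by positivity)
    · rw [prod_range_succ']
      refine mul_le_mul ((ih (x - 1)).trans_eq (prod_congr rfl fun i _ => ?_))
        (k _ (le_abs.2 (.inl (by simpa using h)))) (by positivity) (by positivity)
      push_cast
      ring_nf

theorem ba_U (N n : ℕ) : Continuous fun t => uu N t (W n t) :=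
  (uu_cont N).comp (continuous_id.prodMk (W_dif n).continuous)

theorem uu_le_Po (N n : ℕ) {R : ℝ} {z : ℂ} (hz : ‖z‖ < R) :
    uu N z (W n z) ≤ Po (fun t => uu N t (W n t)) R z := by
  obtain ⟨A, e, h⟩ := ba_sel N z (W n z)
  have hd : Differentiable ℂ fun t => (∑ K ∈ A, (fm t)^[K + 1] (W n t)) / N := by
    simp only [← W_add]
    exact (Differentiable.fun_sum fun K _ => W_dif _).div_const _
  rw [e, ← Po_re hd.diffContOnCl hz]
  exact Po_le (continuous_re.comp hd.continuous).continuousOn (ba_U N n).continuousOn hz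
    fun ζ _ => h ζ _

theorem avg_uu (N n : ℕ) {R : ℝ} (h0 : 199 / 200 ≤ R) (h1 : R < 1) :
    circleAverage (fun t => uu N t (W n t)) 0 R ≤ 5 / 2 := by
  have e : (fun t => uu N t (W n t)) =
      fun t => (N : ℝ)⁻¹ • (∑ K ∈ range N, fun t => max (W (n + (K + 1)) t).re 0) t := by
    funext t
    simp only [uu, W_add, Finset.sum_apply, smul_eq_mul, div_eq_inv_mul]
  have c (k : ℕ) : Continuous fun t => max (W k t).re 0 :=
    (continuous_re.comp (W_dif k).continuous).max continuous_const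
  rw [e, circleAverage_fun_smul, circleAverage_sum fun K _ => (c _).continuousOn.circleIntegrable',
    smul_eq_mul]
  refine (mul_le_mul_of_nonneg_left (sum_le_card_nsmul _ _ (5 / 2) fun K _ => posAvg_W _ h0 h1)
    (by positivity)).trans ?_
  rw [card_range, nsmul_eq_mul, ← mul_assoc]
  linarith [inv_mul_le_one (a := (N : ℝ))]

theorem loc_bar (N : ℕ) (L : ℝ) {η ε c : ℝ} (hη : 0 < η) (hε : 4 * η ≤ ε) (hc : 1 < c) :
    ∃ κ : ℝ, 0 < κ ∧ ∀ (n : ℕ) (R ρ : ℝ) (t q : ℂ) (φ : ℂ → ℝ), 0 ≤ ρ → ρ < R → R < 1 → ‖t‖ = 1 →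
      Continuous φ → (∀ ζ, 0 ≤ φ ζ) → (∀ ζ, φ ζ ≤ 1) →
      (∀ ζ, φ ζ ≠ 0 → ε ≤ ‖W n ζ - W n (ρ * t)‖) → ‖W n (ρ * t)‖ ≤ L → ‖q‖ < η →
      c < uu N t (W n (ρ * t) + q) →
      Po φ R (ρ * t) ≤ Real.log 22 / Real.log (5 * ε / η) +
        Po (fun t => uu N t (W n t)) R (ρ * t) / (c - 1) + 2 * (1 - ρ) / κ ^ 2 := by
  obtain ⟨κ, hκ, hu⟩ := uu_unif N (L + 2 * η)
  obtain ⟨m, hm⟩ := exists_nat_gt (η / κ)
  have m0 : (0 : ℝ) < m := (by positivity : 0 < η / κ).trans hm
  have mκ : η / m ≤ κ := by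
    rw [div_lt_iff₀ hκ] at hm
    rw [div_le_iff₀ m0]
    linarith
  refine ⟨κ, hκ, fun n R ρ t q φ ρ0 ρR R1 t1 hφ φ0 φ1 φe hL hq hcq => ?_⟩
  set w := W n (ρ * t)
  have hy := fun i : ℕ => ring_pt (N := N) (t := t) (w := w) (p := w + q)
    (s := η * (1 + i / m)) (by positivity) (by
      rw [add_sub_cancel_left]
      exact hq.le.trans (le_mul_of_one_le_right hη.le (le_add_of_nonneg_right (by positivity))))
  choose y y1 y2 using hy
  have y3 : ∀ i ∈ range m, ‖y i - w‖ ≤ 2 * η := fun i hi => by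
    have : (i : ℝ) / m ≤ 1 := (div_le_one m0).2 (by exact_mod_cast (mem_range.1 hi).le)
    rw [y1]
    nlinarith
  obtain ⟨Ω, hΩ, eΩ⟩ := exists_He (ρ0.trans_lt ρR) (ba_U N n).continuousOn
  have c0 : 0 < c - 1 := by linarith
  have ε0 : 0 < ε := by linarith
  have l0 : 0 < Real.log (5 * ε / η) := Real.log_pos (by rw [lt_div_iff₀ hη]; linarith)
  let Q : ℂ → ℂ := fun ζ => ((c - 1)⁻¹ : ℝ) * Ω ζ + (2 / κ ^ 2 : ℝ) * (1 - ζ * (starRingEnd ℂ) t)
  let Y : ℂ → ℂ := fun ζ => ∏ i ∈ range m, (11 / η : ℝ) * (W n ζ - y i)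
  have eY : ∀ ζ, ‖Y ζ‖ = ∏ i ∈ range m, 11 / η * ‖W n ζ - y i‖ := fun ζ => by
    simp only [Y, norm_prod, norm_mul, Complex.norm_real,
      Real.norm_of_nonneg (by positivity : 0 ≤ 11 / η)]
  have eQ : ∀ ζ ∈ ball (0 : ℂ) R, (Q ζ).re = Po (fun t => uu N t (W n t)) R ζ / (c - 1) +
      2 * (1 - (ζ * (starRingEnd ℂ) t).re) / κ ^ 2 := fun ζ h => by
    simp only [Q, add_re, re_ofReal_mul, sub_re, one_re, eΩ ζ h]
    ring
  have d1 : ∀ ζ ∈ ball (0 : ℂ) R, ‖ζ - t‖ ^ 2 ≤ 2 * (1 - (ζ * (starRingEnd ℂ) t).re) :=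
    fun ζ h => by
      rw [Complex.sq_norm, normSq_sub, ← Complex.sq_norm, ← Complex.sq_norm, t1]
      nlinarith [mem_ball_zero_iff.1 h, norm_nonneg ζ]
  have d2 : ∀ ζ ∈ ball (0 : ℂ) R, uu N ζ (W n ζ) / (c - 1) + ‖ζ - t‖ ^ 2 / κ ^ 2 ≤ (Q ζ).re :=
    fun ζ h => by
      rw [eQ ζ h]
      gcongr
      exacts [uu_le_Po N n (mem_ball_zero_iff.1 h), d1 ζ h]
  have u0 : ∀ ζ, 0 ≤ uu N ζ (W n ζ) / (c - 1) := fun ζ => div_nonneg (uu_nonneg _ _ _) c0.le
  have hz : ‖(ρ : ℂ) * t‖ < R := by simpa [t1, abs_of_nonneg ρ0] using ρR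
  have hb : ∀ ζ ∈ ball (0 : ℂ) R, (Q ζ).re ≤ 1 →
      Real.exp (m * Real.log (5 * ε / η) * φ ζ) ≤ ‖Y ζ‖ := fun ζ h h1 => by
    rw [eY]
    by_cases e : φ ζ = 0
    · have a1 : ‖ζ - t‖ ≤ κ := by
        refine pow_le_pow_left₀_iff_aux hκ.le ((div_le_one (by positivity)).1 ?_)
        linarith [d2 ζ h, u0 ζ]
      have a2 : uu N ζ (W n ζ) ≤ c - 1 := (div_le_one c0).1 (by
        linarith [d2 ζ h, (by positivity : 0 ≤ ‖ζ - t‖ ^ 2 / κ ^ 2)])
      have a3 : ∀ i ∈ range m, 11 / m * max 1 |m * (‖W n ζ - w‖ - η) / η - i| ≤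
          11 / η * ‖W n ζ - y i‖ := fun i hi => by
        have b1 : κ < ‖W n ζ - y i‖ := not_le.1 fun b => by
          linarith [hu t ζ (y i) _ t1.le (by
            linarith [norm_le_norm_add_norm_sub' (y i) w, y3 i hi]) a1 b, y2 i]
        have b2 := abs_norm_sub_norm_le (W n ζ - w) (y i - w)
        rw [sub_sub_sub_cancel_right, y1, show ‖W n ζ - w‖ - η * (1 + i / m) =
          η / m * (m * (‖W n ζ - w‖ - η) / η - i) by field_simp; ring, abs_mul,
          abs_of_pos (by positivity : 0 < η / m)] at b2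
        rw [show (11 : ℝ) / m = 11 / η * (η / m) by field_simp, mul_assoc,
          mul_max_of_nonneg _ _ (by positivity : 0 ≤ η / m)]
        exact mul_le_mul_of_nonneg_left (max_le (by linarith) b2) (by positivity)
      refine le_trans ?_ (prod_le_prod (fun _ _ => by positivity) a3)
      rw [e, mul_zero, Real.exp_zero, prod_mul_distrib, prod_const, card_range]
      refine le_trans ?_ (mul_le_mul_of_nonneg_left (prod_lb m _) (by positivity))
      have f1 := Real.pow_div_factorial_le_exp (m : ℝ) m0.le m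
      have f2 : Real.exp m ≤ (11 / 4) ^ m := by
        rw [← Real.exp_one_pow]
        exact pow_le_pow_left₀ (Real.exp_pos _).le (by linarith [Real.exp_one_lt_d9]) m
      have f3 : (0 : ℝ) < m.factorial := by exact_mod_cast m.factorial_pos
      rw [show (11 / m : ℝ) ^ m * (m.factorial / 4 ^ m) = (11 / 4) ^ m / (m ^ m / m.factorial) by
        simp only [div_pow]; field_simp, one_le_div (by positivity)]
      exact f1.trans f2
    · refine le_trans ?_ (prod_le_prod (f := fun _ => 5 * ε / η) (fun _ _ => by positivity)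
        fun i hi => ?_)
      · rw [prod_const, card_range, ← Real.exp_log (by positivity : 0 < (5 * ε / η) ^ m),
          Real.log_pow, Real.exp_le_exp]
        exact mul_le_of_le_one_right (by positivity) (φ1 ζ)
      · have := norm_sub_le_norm_sub_add_norm_sub (W n ζ) (y i) w
        rw [div_mul_eq_mul_div]
        refine div_le_div_of_nonneg_right ?_ hη.le
        linarith [φe ζ e, y3 i hi]
  have e1 := eQ _ (mem_ball_zero_iff.2 hz)
  rw [mul_assoc, Complex.mul_conj, Complex.normSq_eq_norm_sq, t1, re_ofReal_mul, ofReal_re,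
    one_pow, mul_one] at e1
  rw [add_assoc, ← e1]
  have l1 : 0 < Real.log 22 := Real.log_pos (by norm_num)
  by_cases hq1 : (Q (ρ * t)).re < 1
  · have k := barrier (Y := Y) (Q := Q) (γ := m * Real.log (5 * ε / η)) (by positivity) hφ φ0 φ1
      (Differentiable.fun_finsetProd fun i _ => ((W_dif n).sub_const _).const_mul _)
      ((hΩ.const_mul _).add (by fun_prop))
      (fun ζ h => le_trans (add_nonneg (u0 ζ) (by positivity)) (d2 ζ h)) hb hz hq1
    have k2 : Real.log ‖Y (ρ * t)‖ ≤ m * Real.log 22 := by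
      rw [← Real.log_pow]
      refine Real.log_le_log ((Real.exp_pos _).trans_le (hb _ (mem_ball_zero_iff.2 hz) hq1.le)) ?_
      rw [eY]
      refine (prod_le_prod (g := fun _ => 22) (fun _ _ => by positivity) fun i hi => ?_).trans_eq
        (by simp)
      rw [div_mul_eq_mul_div, div_le_iff₀ hη, norm_sub_rev]
      linarith [y3 i hi]
    rw [← sub_le_iff_le_add, le_div_iff₀ l0]
    refine le_of_mul_le_mul_left ?_ m0
    linarith
  · have := Po_le (ψ := fun _ => 1) hφ.continuousOn continuousOn_const hz fun ζ _ => φ1 ζ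
    rw [Po_const 1 hz] at this
    linarith [div_pos l1 l0]

end Pool.Agent.Lib.MP_f36384_an
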