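import Pool.Agent.Lib.MP_f36384_an.N.Cs
import Pool.Agent.Lib.MP_f36384_an.N.Ar

/-! The bounds on a cell are correct. -/

namespace Pool.Agent.Lib.MP_f36384_an.Ct

open Finset Real

theorem S_cast : (S : ℝ) = 1099511627776 := by simp [S]

theorem S0 : (0 : ℝ) < S := Nat.cast_pos.2 S_pos

attribute [local irreducible] S

variable {a x : ℕ → ℝ} {Y ρ : ℝ} {y : ℕ}

theorem phi_succ (y l : ℕ) (ls : List ℕ) (i p : ℕ) : phi y (l :: ls) i p =
    (l * p / S - 1172812402962) * (l * p / S - 1172812402962) / i + phi y ls (i + 1) (p * y / S) := by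
  rw [phi]

theorem phi_ok (hY : (y : ℝ) ≤ S * Y) (ls : List ℕ) (i p : ℕ) (h : Lo (fun j => S * a j) i ls)
    (hp : (p : ℝ) ≤ S * Y ^ i) : (phi y ls i p : ℝ) ≤
      S ^ 2 * ∑ k ∈ range ls.length, (a (i + k) * Y ^ (i + k) - 16 / 15) ^ 2 / (i + k : ℕ) := by
  induction ls generalizing i p with
  | nil => simp [phi]
  | cons l ls ih =>
    have h0 := S0
    have h1 : ((p * y / S : ℕ) : ℝ) ≤ S * Y ^ (i + 1) := by
      refine Nat.cast_div_le.trans ?_
      rw [div_le_iff₀ h0, Nat.cast_mul]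
      exact (mul_le_mul hp hY (by positivity) ((Nat.cast_nonneg p).trans hp)).trans_eq (by ring)
    have h2 : ((l * p / S : ℕ) : ℝ) ≤ S * (a i * Y ^ i) := by
      refine Nat.cast_div_le.trans ?_
      rw [div_le_iff₀ h0, Nat.cast_mul]
      exact (mul_le_mul h.1 hp (by positivity) ((Nat.cast_nonneg l).trans h.1)).trans_eq (by ring)
    have h3 : ((l * p / S - 1172812402962 : ℕ) : ℝ) ≤ |S * (a i * Y ^ i - 16 / 15)| := by
      rcases le_total (l * p / S) 1172812402962 with e | e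
      · rw [Nat.sub_eq_zero_of_le e, Nat.cast_zero]
        exact abs_nonneg _
      · refine le_trans ?_ (le_abs_self _)
        rw [Nat.cast_sub e]
        have := S_cast
        push_cast
        linarith
    have h4 := ih (i + 1) _ h.2 h1
    rw [phi_succ, List.length_cons, sum_range_succ', Nat.cast_add, mul_add, add_comm]
    generalize l * p / S - 1172812402962 = v at h3
    refine add_le_add (h4.trans_eq (by simp only [add_assoc, add_comm 1])) (Nat.cast_div_le.trans ?_)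
    rw [add_zero, ← mul_div_assoc, ← mul_pow, ← sq_abs, sq, Nat.cast_mul]
    gcongr

theorem ubs_cons (y c h : ℕ) (cs hs : List ℕ) (j p : ℕ) : ubs y (c :: cs) (h :: hs) j p =
    (bif c.ble (h * p / (j * S) + 1) then c else h * p / (j * S) + 1) ::
      ubs y cs hs (j + 1) (p * y / S + 1) := by
  rw [ubs]

theorem ubs_ok (h0 : 0 ≤ ρ) (hy : S * ρ ≤ y) (hx : ∀ j : ℕ, j * x j = a j * ρ ^ j)
    (cs hs : List ℕ) (j p : ℕ) (hj : 0 < j) (hc : Hi (fun j => S * x j) j cs)
    (hh : Hi (fun j => S * a j) j hs) (hp : S * ρ ^ j ≤ p) :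
    Hi (fun j => S * x j) j (ubs y cs hs j p) := by
  induction cs generalizing hs j p with
  | nil => cases hs <;> exact trivial
  | cons c cs ih =>
    cases hs with
    | nil => exact hc
    | cons h hs =>
      have s0 := S0
      rw [ubs_cons]
      refine ⟨?_, ih _ _ _ j.succ_pos hc.2 hh.2 ?_⟩
      · cases Nat.ble c _
        · have h1 := (div_bd (h * p) (Nat.mul_pos hj S_pos)).2
          have j0 : (0 : ℝ) < j := Nat.cast_pos.2 hj
          have h2 := mul_le_mul hh.1 hp (by positivity) (Nat.cast_nonneg _)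
          rw [cond_false]
          push_cast at h1 ⊢
          refine le_of_mul_le_mul_left ((le_of_eq ?_).trans (h2.trans h1)) (by positivity)
          linear_combination (S : ℝ) ^ 2 * hx j
        · exact hc.1
      · have h1 := (div_bd (p * y) S_pos).2
        have h2 := mul_le_mul hp hy (by positivity) (Nat.cast_nonneg _)
        push_cast at h1 ⊢
        exact le_of_mul_le_mul_left ((le_of_eq (by ring)).trans (h2.trans h1)) s0

theorem cap_ok (h : AI x) (j : ℕ) (c : ℝ) (hj : j ∈ Icc 1 16)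
    (h1 : 16 / 15 ≤ j * (c / S * (99 / 100) ^ j))
    (h2 : 52 / 5 * j ≤ (j * (c / S * (99 / 100) ^ j) - 16 / 15) ^ 2) : S * x j ≤ c := by
  have j0 : (0 : ℝ) < j := Nat.cast_pos.2 (mem_Icc.1 hj).1
  have h3 := (single_le_sum (f := fun i : ℕ => (i * (x i * (99 / 100) ^ i) - 16 / 15) ^ 2 / (i : ℝ))
    (fun i _ => by positivity) hj).trans h.cell
  rw [div_le_iff₀ j0] at h3
  have h4 := (abs_le_of_sq_le_sq' (h3.trans h2) (sub_nonneg.2 h1)).2
  rw [sub_le_sub_iff_right, mul_le_mul_iff_right₀ j0, mul_le_mul_iff_left₀ (by positivity),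
    le_div_iff₀ S0] at h4
  rwa [mul_comm]

theorem caps_ok (h : AI x) : Hi (fun j => S * x j) 1 caps := by
  simp only [caps, Hi, and_true]
  refine ⟨?_, ?_, ?_, ?_, ?_, ?_, ?_, ?_, ?_, ?_, ?_, ?_, ?_, ?_, ?_, ?_⟩ <;>
    exact cap_ok h _ _ (by decide) (by norm_num [S_cast]) (by norm_num [S_cast])

theorem ball_eq (z : G) (w y : ℕ) {r : List ℕ × List ℕ}
    (e : go (mk ⟨z, gn w, 0⟩) 15 2 (mk ⟨z, gn w, 0⟩) [mk ⟨gn S, gn 0, 0⟩] [mk ⟨gn S, gn 0, 0⟩] = r) :
    ball z w y = bif (5 * phi y (S :: r.1) 1 y).ble (52 * S * S) then caps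
      else ubs (y * 100 / 99 + 1) caps (S :: r.2) 1 (y * 100 / 99 + 1) := by
  subst e
  rfl

theorem lo_one (u : ℂ) {L : List ℕ} (h : Lo (fun j => S * (j * ‖ps u j‖)) 2 L) :
    Lo (fun j => S * (j * ‖ps u j‖)) 1 (S :: L) := by
  rw [Lo]
  exact ⟨by simp [ps_one], h⟩

theorem hi_one (u : ℂ) {L : List ℕ} (h : Hi (fun j => S * (j * ‖ps u j‖)) 2 L) :
    Hi (fun j => S * (j * ‖ps u j‖)) 1 (S :: L) := by
  rw [Hi]
  exact ⟨by simp [ps_one], h⟩

theorem phi_le {u : ℂ} (h : AI fun j => ‖ps u j‖ * ρ ^ j) (hc : (y : ℝ) ≤ S * (ρ * (99 / 100)))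
    {L : List ℕ} (hL : Lo (fun j => S * (j * ‖ps u j‖)) 1 L) (hn : L.length ≤ 16) :
    5 * phi y L 1 y ≤ 52 * S * S := by
  have k := phi_ok (a := fun j => j * ‖ps u j‖) hc L 1 y hL (by rwa [pow_one])
  have k2 : ∑ k ∈ range L.length, ((1 + k : ℕ) * ‖ps u (1 + k)‖ *
      (ρ * (99 / 100)) ^ (1 + k) - 16 / 15) ^ 2 / (1 + k : ℕ) ≤ (52 / 5 : ℝ) := by
    refine le_trans ?_ h.cell
    rw [← Finset.Ico_add_one_right_eq_Icc, sum_Ico_eq_sum_range]
    refine (sum_le_sum_of_subset_of_nonneg (range_subset_range.2 hn)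
      fun _ _ _ => by positivity).trans_eq (sum_congr rfl fun k _ => ?_)
    rw [mul_pow, mul_assoc, mul_assoc]
  have k3 := k.trans (mul_le_mul_of_nonneg_left k2 (sq_nonneg _))
  generalize phi y L 1 y = v at k3
  rw [← Nat.cast_le (α := ℝ)]
  push_cast
  linarith

theorem fin_ok {u : ℂ} (h0 : 0 ≤ ρ) (h : AI fun j => ‖ps u j‖ * ρ ^ j) {L H : List ℕ}
    (hL : Lo (fun j => S * (j * ‖ps u j‖)) 1 L) (hH : Hi (fun j => S * (j * ‖ps u j‖)) 1 H)
    (hn : L.length ≤ 16) {b : Bool} (hb : (5 * phi y L 1 y).ble (52 * S * S) = b) :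
    Hi (fun j => S * (‖ps u j‖ * ρ ^ j)) 1
      (bif b then caps else ubs (y * 100 / 99 + 1) caps H 1 (y * 100 / 99 + 1)) := by
  cases b
  · have hρ : S * (ρ * (99 / 100)) ≤ y := le_of_not_gt fun hc =>
      Nat.not_le_of_not_ble_eq_true (hb.trans_ne Bool.false_ne_true) (phi_le h hc.le hL hn)
    have hv : S * ρ ≤ (y * 100 / 99 + 1 : ℕ) := by
      have := (div_bd (y * 100) (k := 99) (by norm_num)).2
      push_cast at this ⊢
      linarith
    rw [cond_false]
    exact ubs_ok (a := fun j => j * ‖ps u j‖) h0 hv (fun j => (mul_assoc _ _ _).symm) _ _ 1 _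
      one_pos (caps_ok h) hH (by rwa [pow_one])
  · exact caps_ok h

theorem ball_ok {u : ℂ} (hn : NR u) (h0 : 0 ≤ ρ) (h : AI fun j => ‖ps u j‖ * ρ ^ j) {z : G} {w : ℕ}
    (hw : 0 < w) (hu : ‖S * u - ev z‖ ≤ w) (y : ℕ) :
    Hi (fun j => S * (‖ps u j‖ * ρ ^ j)) 1 (ball z w y) := by
  have w0 : (0 : ℝ) < w := Nat.cast_pos.2 hw
  have w1 : (w : ℂ) ≠ 0 := Nat.cast_ne_zero.2 hw.ne'
  have hτ : ‖(S * u - ev z) / w‖ ≤ 1 := by rwa [norm_div, Complex.norm_natCast, div_le_one w0]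
  generalize eτ : (S * u - ev z) / w = τ at hτ
  have ht : (mk ⟨z, gn w, 0⟩).In τ (S * u) := U.In.mk' (by
    simp [U.In, ev_gn, ← eτ, mul_div_cancel₀ _ w1])
  have ho : (mk ⟨gn S, gn 0, 0⟩).In τ S := U.In.mk' (by simp [U.In, ev_gn])
  obtain ⟨g1, g2, g3⟩ := go_ok hτ hn ht 15 0 2 rfl (p := mk ⟨z, gn w, 0⟩)
    (A := [mk ⟨gn S, gn 0, 0⟩]) (E := [mk ⟨gn S, gn 0, 0⟩]) (by simpa using ht)
    (by simpa [ps_one] using ho) (by simpa [ps_one] using ho)
  rw [ball_eq z w y rfl]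
  exact fin_ok h0 h (lo_one u g1) (hi_one u g2)
    ((List.length_cons ..).trans_le (Nat.succ_le_succ g3)) rfl

/-- The first entry is squared. -/
def fx (x : ℕ → ℝ) (j : ℕ) : ℝ := if j = 1 then x j ^ 2 else x j

theorem Hi.congr {f g : ℕ → ℝ} {j : ℕ} {L : List ℕ} (h : Hi f j L) (e : ∀ i, j ≤ i → g i ≤ f i) :
    Hi g j L := by
  induction L generalizing j with
  | nil => trivial
  | cons l L ih => exact ⟨(e j le_rfl).trans h.1, ih h.2 fun i k => e i (by omega)⟩

theorem sq1_ok (h0 : 0 ≤ x 1) {L : List ℕ} (h : Hi (fun j => S * x j) 1 L) :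
    Hi (fun j => S * fx x j) 1 (sq1 L) := by
  cases L with
  | nil => trivial
  | cons l L =>
    refine ⟨?_, h.2.congr fun i k => by rw [fx, if_neg (by omega)]⟩
    have s0 := S0
    have h1 := (div_bd (l * l) S_pos).2
    have h2 := mul_self_le_mul_self (by positivity) h.1
    push_cast at h1 ⊢
    exact le_of_mul_le_mul_left ((le_of_eq (by simp only [fx, if_true]; ring)).trans (h2.trans h1)) s0

/-- The angle of a grid point. -/
noncomputable def Th (a : ℝ) : ℝ := 2 * arctan (a / Q)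

theorem Q_pos : 0 < Q := by decide

theorem Q0 : (0 : ℝ) < Q := Nat.cast_pos.2 Q_pos

attribute [local irreducible] Q

theorem Th_mono {s t : ℝ} (h : s ≤ t) : Th s ≤ Th t := by
  have := Q0
  have := arctan_strictMono.monotone (show s / Q ≤ t / Q by gcongr)
  unfold Th
  linarith

theorem Th_lip {a s t : ℝ} (ha : 0 ≤ a) (h : a ≤ s) (k : s ≤ t) :
    Th t - Th s ≤ 2 * ((t - s) * Q / (Q * Q + a * a)) := by
  have q := Q0
  have := (convex_Ici (a / Q)).image_sub_le_mul_sub_of_deriv_le continuous_arctan.continuousOn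
    differentiable_arctan.differentiableOn (C := 1 / (1 + (a / Q) ^ 2)) (fun v hv => by
      have : a / Q ≤ v := interior_subset hv
      rw [Real.deriv_arctan]
      exact one_div_le_one_div_of_le (by positivity) (by gcongr)) (s / Q) (show a / Q ≤ s / Q by gcongr) (t / Q) (show a / Q ≤ t / Q by
        gcongr; exact h.trans k) (by gcongr)
  rw [Th, Th, ← mul_sub]
  refine mul_le_mul_of_nonneg_left (this.trans_eq ?_) zero_le_two
  field_simp

theorem exp_Th (a : ℝ) : Complex.exp (Th a * Complex.I) =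
    ⟨(Q * Q - a * a) / (Q * Q + a * a), 2 * Q * a / (Q * Q + a * a)⟩ := by
  have q := Q0
  have c := cos_sq_arctan (a / Q)
  have s := (tan_mul_cos (cos_arctan_pos (a / Q)).ne').symm
  apply Complex.ext
  · rw [Complex.exp_ofReal_mul_I_re, Th, cos_two_mul, c]
    field_simp
    ring
  · rw [Complex.exp_ofReal_mul_I_im, Th, sin_two_mul, s, tan_arctan, mul_assoc, mul_assoc, ← sq, c]
    field_simp

theorem hl_ok {a b : ℕ} (h : a ≤ b) : S * (((b : ℝ) - a) * Q / (Q * Q + a * a)) ≤ hl a b := by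
  have q := Q0
  have := (div_bd ((b - a) * Q * S) (k := Q * Q + a * a)
    (Nat.add_pos_left (Nat.mul_pos Q_pos Q_pos) _)).2
  rw [hl, ← mul_div_assoc, div_le_iff₀ (by positivity)]
  push_cast [Nat.cast_sub h] at this ⊢
  linarith

theorem ce_ok (σ : Bool) {a b : ℕ} (h : a ≤ b) {θ : ℝ} (h1 : Th a ≤ θ) (h2 : θ ≤ Th b)
    (r0 : 1 - 1 / 2 ^ 30 ≤ ρ) (r1 : ρ ≤ 1) :
    ‖S * ((bif σ then 1 else -1) * circleMap 0 ρ θ) - ev (ce σ a b)‖ ≤ (hl a b + 1026 : ℕ) := by
  have q := Q0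
  have s0 := S0
  have hab : (a : ℝ) ≤ b := Nat.cast_le.2 h
  have e : ev (bif σ then gn 1 else ⟨0, 0, 1, 0⟩) = bif σ then 1 else -1 := by
    cases σ <;> apply Complex.ext <;> simp [ev, gn]
  have n1 : ‖(bif σ then 1 else -1 : ℂ)‖ = 1 := by cases σ <;> simp
  rw [ce, ev_gm, e, mul_left_comm, ← mul_sub, norm_mul, n1, one_mul]
  have k0 : 0 < 4 * Q * Q + (a + b) * (a + b) :=
    Nat.add_pos_left (Nat.mul_pos (Nat.mul_pos four_pos Q_pos) Q_pos) _
  have k1 := gd_le ⟨S * (4 * Q * Q), 4 * Q * S * (a + b), S * ((a + b) * (a + b)), 0⟩ k0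
  have k2 : ev ⟨S * (4 * Q * Q), 4 * Q * S * (a + b), S * ((a + b) * (a + b)), 0⟩ =
      (4 * Q * Q + (a + b) * (a + b) : ℕ) * (S * Complex.exp (Th ((a + b) / 2) * Complex.I)) := by
    rw [exp_Th]
    apply Complex.ext <;> simp only [ev, Complex.mul_re, Complex.mul_im, Complex.natCast_re,
      Complex.natCast_im] <;> push_cast <;> field_simp <;> ring
  rw [k2, ← mul_sub, norm_mul, Complex.norm_natCast, mul_comm 2,
    mul_le_mul_iff_right₀ (Nat.cast_pos.2 k0)] at k1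
  have l1 := Th_lip (a := a) (s := a) (t := (a + b) / 2) (by positivity) le_rfl (by linarith)
  have l2 := Th_lip (a := a) (s := (a + b) / 2) (t := b) (by positivity) (by linarith) (by linarith)
  have l3 : |θ - Th ((a + b) / 2)| ≤ ((b : ℝ) - a) * Q / (Q * Q + a * a) := by
    rw [abs_le]
    constructor
    · refine le_trans (neg_le_neg (l1.trans_eq (by ring))) (by linarith)
    · refine le_trans (by linarith) (l2.trans_eq (by ring))
  have l4 : ‖Complex.exp (θ * Complex.I) - Complex.exp (Th ((a + b) / 2) * Complex.I)‖ ≤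
      |θ - Th ((a + b) / 2)| := by
    have := Real.norm_exp_I_mul_ofReal_sub_one_le (x := θ - Th ((a + b) / 2))
    rw [← one_mul ‖_ - 1‖, ← Complex.norm_exp_ofReal_mul_I (Th ((a + b) / 2)), ← norm_mul, mul_sub,
      ← Complex.exp_add, mul_one] at this
    refine le_trans (le_of_eq ?_) this
    congr 3
    push_cast
    ring
  have l5 : ‖circleMap 0 ρ θ - Complex.exp (θ * Complex.I)‖ ≤ 1 / 2 ^ 30 := by
    rw [circleMap, zero_add, ← sub_one_mul, norm_mul, Complex.norm_exp_ofReal_mul_I, mul_one,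
      ← Complex.ofReal_one, ← Complex.ofReal_sub, Complex.norm_real, Real.norm_eq_abs, abs_le]
    constructor <;> linarith
  have l6 := norm_mul_le_of_le (Complex.norm_natCast S).le
    ((norm_sub_le_norm_sub_add_norm_sub _ _ _).trans (add_le_add l5 (l4.trans l3)))
  rw [mul_sub] at l6
  refine (norm_sub_le_norm_sub_add_norm_sub _ _ _).trans ((add_le_add l6 k1).trans ?_)
  have := hl_ok h
  have := S_cast
  push_cast
  linarith

end Pool.Agent.Lib.MP_f36384_an.Ct
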