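import Mathlib

/-! First order ball arithmetic with natural numbers: definitions. -/

namespace Pool.Agent.Lib.MP_f36384_an.Ct

/-- The scale. -/
def S : ℕ := 1099511627776

/-- The denominator of the end points. -/
def Q : ℕ := 1048576

/-- The number `a + b i - c - d i`. -/
structure G where
  a : ℕ
  b : ℕ
  c : ℕ
  d : ℕ

/-- A natural number. -/
def gn (k : ℕ) : G := ⟨k, 0, 0, 0⟩

/-- Product. -/
def gm (u v : G) : G :=
  ⟨((u.a.mul v.a).add (u.c.mul v.c)).add ((u.b.mul v.d).add (u.d.mul v.b)),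
    ((u.a.mul v.b).add (u.c.mul v.d)).add ((u.b.mul v.a).add (u.d.mul v.c)),
    ((u.a.mul v.c).add (u.c.mul v.a)).add ((u.b.mul v.b).add (u.d.mul v.d)),
    ((u.a.mul v.d).add (u.c.mul v.b)).add ((u.b.mul v.c).add (u.d.mul v.a))⟩

/-- Sum. -/
def ga (u v : G) : G := ⟨u.a.add v.a, u.b.add v.b, u.c.add v.c, u.d.add v.d⟩

/-- Difference. -/
def gs (u v : G) : G := ⟨u.a.add v.c, u.b.add v.d, u.c.add v.a, u.d.add v.b⟩

/-- Conjugate. -/
def st (u : G) : G := ⟨u.a, u.d, u.c, u.b⟩

/-- Quotient by a natural number. -/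
def gd (u : G) (k : ℕ) : G :=
  ⟨(u.a.sub u.c).div k, (u.b.sub u.d).div k, (u.c.sub u.a).div k, (u.d.sub u.b).div k⟩

/-- The distance of two natural numbers. -/
def ab (x y : ℕ) : ℕ := (x.sub y).add (y.sub x)

/-- The square of the modulus. -/
def nq (z : G) : ℕ := ((ab z.a z.c).mul (ab z.a z.c)).add ((ab z.b z.d).mul (ab z.b z.d))

/-- A crude upper bound for the modulus. -/
def nu (z : G) : ℕ := (ab z.a z.c).add (ab z.b z.d)

/-- One Newton step. -/
def nw (n g : ℕ) : ℕ := ((g.add (n.div g)).div 2).add 1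

/-- An upper bound for the square root. -/
def sr (n g : ℕ) : ℕ := bif n.ble (g.mul g) then g else n.add 1

/-- An upper bound for the modulus. -/
def up (z : G) : ℕ := sr (nq z) (nw (nq z) (nw (nq z) ((nu z).add 1)))

/-- A lower bound for the modulus. -/
def lo (z : G) : ℕ := (nq z).div ((up z).add 1)

/-- Value, slope and error. -/
structure U where
  a : G
  b : G
  e : ℕ

/-- The same with bounds for the moduli. -/
structure T extends U where
  m : ℕ
  n : ℕ

/-- Attach the bounds. -/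
def mk (x : U) : T := ⟨x, (up x.a).add (up x.b), up x.b⟩

/-- Product. -/
def mul (x y : T) : U := ⟨gm x.a y.a, ga (gm x.a y.b) (gm x.b y.a),
  ((x.n.mul y.n).add (x.e.mul (y.m.add y.e))).add (y.e.mul x.m)⟩

/-- Sum. -/
def add (x y : U) : U := ⟨ga x.a y.a, ga x.b y.b, x.e.add y.e⟩

/-- Convolution. -/
def conv : List T → List T → U
  | x :: xs, y :: ys => add (mul x y) (conv xs ys)
  | _, _ => ⟨gn 0, gn 0, 0⟩

/-- Division by a natural number. -/
def dc (x : U) (k : ℕ) : T := mk ⟨gd x.a k, gd x.b k, (x.e.div k).add 5⟩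

/-- Division. -/
def dv (s : U) (d : T) (l : ℕ) : T :=
  let a := gd (gm s.a (st d.a)) (nq d.a)
  let r := gs s.b (gm a d.b)
  let b := gd (gm r (st d.a)) (nq d.a)
  let q := mk ⟨a, b, 0⟩
  ⟨⟨a, b, (nu (gs s.a (gm a d.a)) + nu (gs r (gm b d.a)) + q.n * d.n + q.m * d.e + s.e) / l + 1⟩,
    q.m, q.n⟩

/-- The recursion for the coefficients; lower and upper bounds. -/
def go (t : T) : ℕ → ℕ → T → List T → List T → List ℕ × List ℕ
  | 0, _, _, _, _ => ([], [])
  | f + 1, j, p, A, E =>
    let s := conv A E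
    let d := mk ⟨gs p.a (gn S), p.b, p.e⟩
    let l := lo d.a - d.n - d.e
    bif (50 * l).ble (d.m + d.e) then ([(lo s.a - up s.b - s.e) / (d.m + d.e + 1)], [])
    else
      let q := dv s d l
      let r := go t f (j + 1) (dc (mul p t) S) (A ++ [q])
        (dc (add ⟨gm q.a (gn S), gm q.b (gn S), q.e * S⟩ s) (j * S) :: E)
      ((lo q.a - q.n - q.e) :: r.1, (q.m + q.e) :: r.2)

/-- The left side of the area inequality from below. -/
def phi (y : ℕ) : List ℕ → ℕ → ℕ → ℕ
  | [], _, _ => 0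
  | l :: ls, i, p =>
    (l * p / S - 1172812402962) * (l * p / S - 1172812402962) / i + phi y ls (i + 1) (p * y / S)

/-- Upper bounds. -/
def ubs (y : ℕ) : List ℕ → List ℕ → ℕ → ℕ → List ℕ
  | c :: cs, h :: hs, j, p =>
    (bif c.ble (h * p / (j * S) + 1) then c else h * p / (j * S) + 1) ::
      ubs y cs hs (j + 1) (p * y / S + 1)
  | cs, _, _, _ => cs

/-- Square the first entry. -/
def sq1 : List ℕ → List ℕ
  | [] => []
  | u :: us => (u * u / S + 1) :: us

/-- Half of the length of a cell. -/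
def hl (a b : ℕ) : ℕ := (b - a) * Q * S / (Q * Q + a * a) + 1

/-- The centre of a cell. -/
def ce (σ : Bool) (a b : ℕ) : G :=
  gm (bif σ then gn 1 else ⟨0, 0, 1, 0⟩)
    (gd ⟨S * (4 * Q * Q), 4 * Q * S * (a + b), S * ((a + b) * (a + b)), 0⟩
      (4 * Q * Q + (a + b) * (a + b)))

/-- A priori bounds. -/
def caps : List ℕ := [4766293801851, 3156492684192, 2512747833657, 2150864993582, 1914111197452,
  1745170155245, 1617631250914, 1517470322861, 1436482977776, 1369517955797, 1313161584783,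
  1265053165836, 1223502808853, 1187265762386, 1155402860499, 1127190828207]

/-- The bounds on a ball. -/
def ball (z : G) (w y : ℕ) : List ℕ :=
  let t := mk ⟨z, gn w, 0⟩
  let o := mk ⟨gn S, gn 0, 0⟩
  let r := go t 15 2 t [o] [o]
  bif (5 * phi y (S :: r.1) 1 y).ble (52 * S * S) then caps
  else ubs (y * 100 / 99 + 1) caps (S :: r.2) 1 (y * 100 / 99 + 1)

/-- The bounds on a cell. -/
def cell (σ : Bool) (a b y : ℕ) : List ℕ := sq1 (ball (ce σ a b) (hl a b + 1026) (y * Q))

/-- Run through the cells. -/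
def run (σ : Bool) : List (ℕ × ℕ) → ℕ → List ℕ → ℕ × List ℕ
  | [], a, s => (a, s)
  | (k, y) :: L, a, s =>
    run σ L (a + k) (List.zipWith (fun c u => c + 2 * hl a (a + k) * u) s (cell σ a (a + k) y))

end Pool.Agent.Lib.MP_f36384_an.Ct
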