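import Pool.Agent.Lib.MP_f36384_an.N.Cd

/-! Certified cells, part 4. -/

namespace Pool.Agent.Lib.MP_f36384_an.Ct

theorem m7 : run false
    [(1024, 1722240), (1024, 1726720), (1024, 1731200), (2048, 1764480), (2048, 1771520), (2048,
    1778560), (2048, 1785600), (2048, 1792640), (2048, 1799040), (2048, 1805440), (2048, 1811840),
    (2048, 1817600), (2048, 1823360), (2048, 1829120), (2048, 1834880), (2048, 1840000), (2048,
    1845120), (2048, 1850240), (2048, 1855360), (2048, 1860480), (2048, 1864960), (4096, 1907840),
    (4096, 1918720), (8192, 1960960), (8192, 1972480), (8192, 1982720), (8192, 1991040), (8192,
    1998720), (8192, 2004480), (8192, 2008960), (8192, 2012160), (4096, 1959680), (4096, 1952000),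
    (4096, 1941760), (4096, 1927680), (8192, 2051840), (8192, 2093440), (8192, 1948160), (4096,
    1859200), (4096, 1880320), (4096, 1898880), (4096, 1913600), (4096, 1923840), (4096, 1931520),
    (4096, 1936000), (4096, 1939200)]
    689152 [4018803760889740818471212, 1069343087618760990788486, 965418864013385853095164,
    1044976282144481780393252, 929059493264009087769418, 1000561283788351032800056,
    1035518719337188605281126, 1101882453186084424835414, 1150692217365841902444788,
    1205277866645306693448192, 1206906427066898767582868, 1282049449027607867365778,
    1310759221845228451666966, 1358864324883513592005610, 1356302251986298144564482,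
    1368883993366970505199256] = (876544, [4987384430285632086802188, 1372785060111361951498800,
    1160428514293277665651558, 1225762384236867520009498, 1144237617067243581634702,
    1184834197507106213331436, 1189639812289345032952486, 1354829672211682787977746,
    1399619042813967361156544, 1440273056001117177976626, 1494940891337132835458104,
    1569062246694193209790250, 1585916099184249688957264, 1657316774901173939517508,
    1646661775483723453012832, 1652190110771117580775726]) :=
  by decide +kernel

theorem m8 : run false
    [(4096, 1940480), (4096, 1941120), (8192, 1976960), (8192, 1970560), (8192, 1962240), (8192,
    1952000), (8192, 1940480), (8192, 1927680), (8192, 1912960), (2048, 1831680), (2048, 1826560),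
    (2048, 1821440), (2048, 1815680), (2048, 1809920), (2048, 1804800), (2048, 1799040), (2048,
    1792640), (2048, 1786880), (2048, 1780480), (2048, 1774080), (2048, 1767680), (2048, 1760640),
    (2048, 1753600), (2048, 1746560), (2048, 1738880), (2048, 1731840), (2048, 1723520), (2048,
    1715840), (2048, 1707520), (2048, 1699200), (2048, 1690240), (2048, 1681280), (2048, 1672320),
    (4096, 1701120), (4096, 1681280), (4096, 1660800), (4096, 1639040), (4096, 1616000), (4096,
    1591680), (8192, 1678080), (8192, 1628160), (8192, 1630080), (8192, 1450240)]
    876544 [4987384430285632086802188, 1372785060111361951498800, 1160428514293277665651558,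
    1225762384236867520009498, 1144237617067243581634702, 1184834197507106213331436,
    1189639812289345032952486, 1354829672211682787977746, 1399619042813967361156544,
    1440273056001117177976626, 1494940891337132835458104, 1569062246694193209790250,
    1585916099184249688957264, 1657316774901173939517508, 1646661775483723453012832,
    1652190110771117580775726] = (1048576, [5635105617468354314135040, 1592438113004031224954708,
    1298589276219941552707518, 1324411100428613971358156, 1338621418293958759743208,
    1363469659755114413674142, 1346250853297677200584978, 1515971865040120962675068,
    1599258721316465444031370, 1633375110295796414543510, 1689431411058581343534330,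
    1784314592990436769572114, 1807083119617369192585604, 1872295147877299994775430,
    1862908431626040267404684, 1873700416495144474414516]) :=
  by decide +kernel

end Pool.Agent.Lib.MP_f36384_an.Ct
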