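import Pool.Agent.Lib.MP_f36384_an.N.Ci
import Pool.Agent.Lib.MP_f36384_an.N.D1
import Pool.Agent.Lib.MP_f36384_an.N.D2
import Pool.Agent.Lib.MP_f36384_an.N.D3
import Pool.Agent.Lib.MP_f36384_an.N.D4

/-! The certified averages of the first sixteen coefficients. -/

namespace Pool.Agent.Lib.MP_f36384_an

open Real Metric Complex Filter Topology Finset

namespace Ct

variable {φ : ℕ → ℝ → ℝ}

theorem tp (h : Cl true φ) : S ^ 2 * ∫ θ in (0)..π / 2, φ 1 θ ≤ (2875424624163664784256526 : ℕ) ∧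
    ∀ j ∈ Icc 2 16, S ^ 2 * ∫ θ in (0)..π / 2, φ j θ ≤ (1770000000000000000000000 : ℕ) :=
  Iv.fin (h.run p7 <| h.run p6 <| h.run p5 <| h.run p4 <| h.run p3 <| h.run p2 <| h.run p1 <|
    h.run p0 <| iv_zero 16) rfl (by decide +kernel)

theorem tm (h : Cl false φ) : S ^ 2 * ∫ θ in (0)..π / 2, φ 1 θ ≤ (5635105617468354314135040 : ℕ) ∧
    ∀ j ∈ Icc 2 16, S ^ 2 * ∫ θ in (0)..π / 2, φ j θ ≤ (1880000000000000000000000 : ℕ) :=
  Iv.fin (h.run m8 <| h.run m7 <| h.run m6 <| h.run m5 <| h.run m4 <| h.run m3 <| h.run m2 <|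
    h.run m1 <| h.run m0 <| iv_zero 16) rfl (by decide +kernel)

end Ct

open Ct in
theorem cert : ∀ᶠ ρ in 𝓝[<] (1 : ℝ), circleAverage (fun t => ‖hj t 1‖ ^ 2) 0 ρ ≤ 9 / 4 ∧
    ∀ j ∈ Icc 2 16, circleAverage (fun t => ‖hj t j‖) 0 ρ ≤ 99 / 100 := by
  filter_upwards [Ico_mem_nhdsLT (show (1 - 1 / 2 ^ 30 : ℝ) < 1 by norm_num)] with ρ ⟨r0, r1⟩
  have h0 : 0 < ρ := lt_of_lt_of_le (by norm_num) r0
  have a1 := tp (cl_ok r0 r1 continuous_id fun θ j => by simp)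
  have a2 := tp (cl_ok r0 r1 (α := fun θ => 2 * π - θ) (by fun_prop) fun θ j => by
    rw [← norm_conj, ← ps_conj]
    simp [circleMap, ← exp_conj, sub_mul, Complex.exp_sub, Complex.exp_neg])
  have a3 := tm (cl_ok r0 r1 (α := fun θ => π + θ) (by fun_prop) fun θ j => by
    simp [circleMap, add_mul, Complex.exp_add])
  have a4 := tm (cl_ok r0 r1 (α := fun θ => π - θ) (by fun_prop) fun θ j => by
    rw [← norm_conj, ← ps_conj]
    simp [circleMap, ← exp_conj, sub_mul, Complex.exp_sub, Complex.exp_neg, neg_div])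
  have f := fun j => four (gg_cont h0 r1 j)
  have p := pi_gt_d2
  simp only [S_cast, id, Nat.cast_ofNat] at a1 a2 a3 a4
  refine ⟨?_, fun j k => ?_⟩
  · rw [circleAverage_def, smul_eq_mul, inv_mul_le_iff₀ (by positivity)]
    refine (f 1).trans_le ?_
    linarith [a1.1, a2.1, a3.1, a4.1]
  · rw [circleAverage_def, smul_eq_mul, inv_mul_le_iff₀ (by positivity)]
    have e : gg ρ j = fun θ => ‖hj (circleMap 0 ρ θ) j‖ :=
      funext fun θ => if_neg (by have := mem_Icc.1 k; omega)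
    rw [← e, f]
    linarith [a1.2 j k, a2.2 j k, a3.2 j k, a4.2 j k]

end Pool.Agent.Lib.MP_f36384_an
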