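import Pool.Agent.Lib.MP_f36384_an.N.Cb

/-! Integration of the bounds over the cells. -/

namespace Pool.Agent.Lib.MP_f36384_an.Ct

open Finset Real

attribute [local irreducible] S Q cell ball

variable {φ : ℕ → ℝ → ℝ} {σ : Bool} {ρ : ℝ}

theorem ps_conj (u : ℂ) (j : ℕ) : ps (starRingEnd ℂ u) j = starRingEnd ℂ (ps u j) := by
  induction j using Nat.strong_induction_on with
  | _ j ih =>
    rcases j with _ | _ | j
    · simp [ps_zero]
    · simp [ps_one]
    · rw [ps_rec, ps_rec, map_div₀, map_sum, sum_congr rfl fun i hi => by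
        rw [ih _ (by have := mem_range.1 hi; omega), ih _ (by have := mem_range.1 hi; omega)]]
      simp [map_ofNat]

/-- The bounds on all cells hold. -/
def Cl (σ : Bool) (φ : ℕ → ℝ → ℝ) : Prop := (∀ j, Continuous (φ j)) ∧
  ∀ (a b y : ℕ) (θ : ℝ), a ≤ b → Th a ≤ θ → θ ≤ Th b → Hi (fun j => S * φ j θ) 1 (cell σ a b y)

/-- The functions to be integrated. -/
noncomputable def gg (ρ : ℝ) (j : ℕ) (θ : ℝ) : ℝ := fx (fun j => ‖hj (circleMap 0 ρ θ) j‖) j

theorem gg_cont (h0 : 0 < ρ) (h1 : ρ < 1) (j : ℕ) : Continuous (gg ρ j) := by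
  have c := ((hj_diff j).continuousOn.comp_continuous (continuous_circleMap 0 ρ) fun θ => by
    simpa [abs_of_pos h0] using h1).norm
  unfold gg fx
  split_ifs
  exacts [c.pow 2, c]

theorem cl_ok (r0 : 1 - 1 / 2 ^ 30 ≤ ρ) (r1 : ρ < 1) {α : ℝ → ℝ} (hα : Continuous α)
    (e : ∀ θ j, ‖ps (circleMap 0 ρ (α θ)) j‖ = ‖ps ((bif σ then 1 else -1) * circleMap 0 ρ θ) j‖) :
    Cl σ fun j θ => gg ρ j (α θ) := by
  have h0 : 199 / 200 ≤ ρ := le_trans (by norm_num) r0
  have h1 : 0 < ρ := lt_of_lt_of_le (by norm_num) h0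
  refine ⟨fun j => (gg_cont h1 r1 j).comp hα, fun a b y θ k k1 k2 => ?_⟩
  have ai := ai_hj (t := circleMap 0 ρ (α θ)) (by simpa [An, abs_of_pos h1] using ⟨h0, r1⟩)
  simp only [gg, hj, norm_mul, norm_pow, e] at ai ⊢
  rw [cell]
  exact sq1_ok (by positivity) (ball_ok (nr_of_lt (by cases σ <;> simpa [abs_of_pos h1]))
    (norm_nonneg _) ai (Nat.add_pos_right _ (by norm_num)) (ce_ok σ k k1 k2 r0 r1.le) _)

theorem zip_ok (hc : ∀ j, Continuous (φ j)) {p q : ℝ} {w : ℕ} (k : p ≤ q) (hw : S * (q - p) ≤ w)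
    (s c : List ℕ) (j : ℕ) (hs : Hi (fun j => S ^ 2 * ∫ θ in (0)..p, φ j θ) j s)
    (h : ∀ θ ∈ Set.Icc p q, Hi (fun j => S * φ j θ) j c) :
    Hi (fun j => S ^ 2 * ∫ θ in (0)..q, φ j θ) j (List.zipWith (fun c u => c + w * u) s c) := by
  induction s generalizing c j with
  | nil => trivial
  | cons l s ih =>
    cases c with
    | nil => trivial
    | cons u c =>
      refine ⟨?_, ih _ _ hs.2 fun θ e => (h θ e).2⟩
      have h1 := intervalIntegral.integral_mono_on (μ := MeasureTheory.volume) k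
        (((hc j).intervalIntegrable p q).const_mul S) intervalIntegrable_const fun θ e => (h θ e).1
      rw [intervalIntegral.integral_const_mul, intervalIntegral.integral_const, smul_eq_mul] at h1
      have h2 := mul_le_mul_of_nonneg_left h1 S0.le
      have h3 := mul_le_mul_of_nonneg_right hw u.cast_nonneg
      have h4 := hs.1
      beta_reduce at h4 ⊢
      rw [← intervalIntegral.integral_add_adjacent_intervals ((hc j).intervalIntegrable 0 p)
        ((hc j).intervalIntegrable p q)]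
      push_cast
      linarith

/-- The integrals up to a grid point are bounded. -/
def Iv (φ : ℕ → ℝ → ℝ) (a : ℕ) (s : List ℕ) : Prop :=
  Hi (fun j => S ^ 2 * ∫ θ in (0)..Th a, φ j θ) 1 s

theorem Cl.run (h : Cl σ φ) {L : List (ℕ × ℕ)} {a b : ℕ} {s r : List ℕ} (e : run σ L a s = (b, r))
    (hs : Iv φ a s) : Iv φ b r := by
  induction L generalizing a s with
  | nil => cases e; exact hs
  | cons x L ih =>
    obtain ⟨x, y⟩ := x
    have k : (a : ℝ) ≤ (a + x : ℕ) := Nat.cast_le.2 (a.le_add_right _)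
    rw [Ct.run] at e
    refine ih e (zip_ok h.1 (Th_mono k) ?_ _ _ _ hs fun θ e =>
      h.2 a (a + x) y θ (a.le_add_right _) e.1 e.2)
    have h1 := mul_le_mul_of_nonneg_left (Th_lip a.cast_nonneg le_rfl k) S0.le
    have h2 := hl_ok (a.le_add_right x)
    rw [Nat.cast_mul, Nat.cast_ofNat]
    linarith

theorem iv_zero (n : ℕ) : Iv φ 0 (List.replicate n 0) := by
  rw [Iv]
  generalize 1 = j
  induction n generalizing j with
  | zero => trivial
  | succ n ih => exact ⟨by simp [Th], ih _⟩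

theorem Hi.all {f : ℕ → ℝ} {j B : ℕ} {L : List ℕ} (h : Hi f j L) (hB : ∀ l ∈ L, l ≤ B) :
    ∀ i ∈ Ico j (j + L.length), f i ≤ B := fun i k => by
  induction L generalizing j with
  | nil => simp at k
  | cons l L ih =>
    rw [mem_Ico, List.length_cons] at k
    rcases k.1.eq_or_lt with rfl | e
    · exact h.1.trans (Nat.cast_le.2 (hB l List.mem_cons_self))
    · exact ih h.2 (fun l e => hB l (List.mem_cons_of_mem _ e)) (mem_Ico.2 ⟨e, by omega⟩)

theorem Iv.fin {l B : ℕ} {L : List ℕ} (h : Iv φ Q (l :: L)) (hL : L.length = 15)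
    (hB : ∀ l ∈ L, l ≤ B) : S ^ 2 * ∫ θ in (0)..π / 2, φ 1 θ ≤ l ∧
      ∀ j ∈ Icc 2 16, S ^ 2 * ∫ θ in (0)..π / 2, φ j θ ≤ B := by
  rw [Iv, Th, div_self Q0.ne', arctan_one, show 2 * (π / 4) = π / 2 by ring] at h
  exact ⟨h.1, fun j k => h.2.all hB j (by rw [hL]; exact k)⟩

theorem four {G : ℝ → ℝ} (h : Continuous G) : ∫ θ in (0)..2 * π, G θ =
    (∫ θ in (0)..π / 2, G θ) + (∫ θ in (0)..π / 2, G (2 * π - θ)) +
      (∫ θ in (0)..π / 2, G (π + θ)) + ∫ θ in (0)..π / 2, G (π - θ) := by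
  have a := fun a b c => intervalIntegral.integral_add_adjacent_intervals (μ := MeasureTheory.volume)
    (h.intervalIntegrable a b) (h.intervalIntegrable b c)
  rw [intervalIntegral.integral_comp_sub_left, intervalIntegral.integral_comp_sub_left,
    intervalIntegral.integral_comp_add_left, ← a 0 π, ← a 0 (π / 2) π, ← a π (π + π / 2)]
  ring_nf

end Pool.Agent.Lib.MP_f36384_an.Ct
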