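import Pool.Agent.Lib.MP_f36384_an.N.Ce

/-! The coefficients in a cone, and a mean square bound. -/

namespace Pool.Agent.Lib.MP_f36384_an

open Real Metric Complex Filter Topology Finset

/-- The Taylor coefficients in `t` of the coefficients of the lineariser. -/
noncomputable def cf (j m : ℕ) : ℂ := co (fun t => hj t j) m

theorem cO_avg {G : ℕ → ℂ → ℂ} {f : ℂ → ℂ} {b : ℕ → ℝ} {s : ℝ} (hb : Summable b)
    (hc : ∀ j, ContinuousOn (G j) (sphere 0 |s|))
    (hG : ∀ j, ∀ z ∈ sphere (0 : ℂ) |s|, ‖G j z‖ ≤ b j)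
    (hs : ∀ z ∈ sphere (0 : ℂ) |s|, HasSum (fun j => G j z) (f z)) :
    HasSum (fun j => circleAverage (G j) 0 s) (circleAverage f 0 s) := by
  simp only [circleAverage_def]
  refine HasSum.const_smul _ (intervalIntegral.hasSum_integral_of_dominated_convergence
    (fun j _ => b j) (fun j => ((hc j).comp_continuous (continuous_circleMap _ _)
      (circleMap_mem_sphere' _ _)).aestronglyMeasurable)
    (fun j => .of_forall fun θ _ => hG j _ (circleMap_mem_sphere' _ _ _))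
    (.of_forall fun _ _ => hb) intervalIntegrable_const
    (.of_forall fun θ _ => hs _ (circleMap_mem_sphere' _ _ _)))

theorem cO_shift {g : ℂ → ℂ} {s : ℝ} (hs : 0 < s) (hg : DiffContOnCl ℂ g (ball 0 s)) (K a : ℕ) :
    circleAverage (fun z => ((s : ℂ) / z) ^ K * (g z * z ^ a)) 0 s =
      if a ≤ K then co g (K - a) * s ^ K else 0 := by
  have hne : ∀ z ∈ sphere (0 : ℂ) |s|, z ≠ 0 := fun z hz => ne_of_mem_sphere hz (by positivity)
  split_ifs with h
  · obtain ⟨k, rfl⟩ := Nat.exists_eq_add_of_le h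
    rw [circleAverage_congr_sphere (f₂ := fun z => (s : ℂ) ^ a • (((s : ℂ) / z) ^ k * g z))
      fun z hz => by
        have := hne z hz
        simp only [smul_eq_mul, div_pow, pow_add]; field_simp,
      circleAverage_fun_smul, avg_coef hs hg, Nat.add_sub_cancel_left, smul_eq_mul]
    ring
  · obtain ⟨k, rfl⟩ := Nat.exists_eq_add_of_lt (not_le.1 h)
    rw [circleAverage_congr_sphere
      (f₂ := fun z => (s : ℂ) ^ K • (((s : ℂ) / z) ^ 0 * (g z * z ^ (k + 1)))) fun z hz => by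
        have := hne z hz
        simp only [smul_eq_mul, div_pow, pow_add]; field_simp,
      circleAverage_fun_smul, avg_coef hs (g := fun z => g z * z ^ (k + 1))
        ⟨hg.1.mul (by fun_prop), hg.2.mul (by fun_prop)⟩]
    simp [co]

theorem cO_an {s : ℝ} (h0 : 199 / 200 ≤ s) (h1 : s < 1) {z : ℂ} (hz : z ∈ sphere (0 : ℂ) |s|) :
    ‖z‖ = s ∧ An z := by
  have : ‖z‖ = s := by rwa [mem_sphere_zero_iff_norm, abs_of_nonneg (by linarith)] at hz
  exact ⟨this, this ▸ h0, this ▸ h1⟩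

theorem cO_cont {s : ℝ} (h0 : 0 < s) (h1 : s < 1) (j : ℕ) :
    ContinuousOn (fun z => hj z j) (sphere 0 |s|) := cont_sphere h0 (diffCl (hj_diff j) h1)

theorem cO_lim {φ : ℝ → ℝ} {C : ℝ} (hφ : Continuous φ) (h : ∀ᶠ s in 𝓝[<] (1 : ℝ), φ s ≤ C) :
    φ 1 ≤ C := le_of_tendsto ((hφ.tendsto 1).mono_left nhdsWithin_le_nhds) h

theorem cO_near : ∀ᶠ s in 𝓝[<] (1 : ℝ), 199 / 200 ≤ s ∧ s < 1 :=
  Ico_mem_nhdsLT (show (199 / 200 : ℝ) < 1 by norm_num)

theorem cO_par {s : ℝ} (h0 : 0 < s) (h1 : s < 1) (j : ℕ) :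
    HasSum (fun m => (‖cf j m‖ * s ^ m) ^ 2) (circleAverage (fun z => ‖hj z j‖ ^ 2) 0 s) := by
  have := parseval (taylor (hj_diff j)).1 h0 h1
  rwa [circleAverage_congr_sphere (f₂ := fun z => ‖hj z j‖ ^ 2) fun z hz => by
    rw [mem_sphere_zero_iff_norm, abs_of_pos h0] at hz
    simp only
    rw [(taylor (hj_diff j)).2 z (mem_ball_zero_iff.2 (hz ▸ h1))]] at this

theorem a_eq (n K : ℕ) :
    co (W n) K = ∑ j ∈ range (K / (n + 1) + 1), cf j (K - j * (n + 1)) := by
  obtain ⟨s, h0, h1⟩ : ∃ s : ℝ, 199 / 200 ≤ s ∧ s < 1 := ⟨_, le_rfl, by norm_num⟩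
  have hs : 0 < s := by linarith
  have h2 := cO_avg (s := s) (G := fun j z => ((s : ℂ) / z) ^ K * (hj z j * z ^ (j * (n + 1))))
    (f := fun z => ((s : ℂ) / z) ^ K * W n z) (b := fun j => 10 * s ^ j)
    ((summable_geometric_of_lt_one hs.le h1).mul_left 10)
    (fun j => ((continuousOn_const.div continuousOn_id fun z hz => (cO_an h0 h1 hz).2.ne).pow
      K).mul ((cO_cont hs h1 j).mul (by fun_prop)))
    (fun j z hz => by
      obtain ⟨e, ha⟩ := cO_an h0 h1 hz
      rw [norm_mul, norm_mul, norm_pow, norm_pow, norm_div, e, Complex.norm_real,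
        Real.norm_of_nonneg hs.le, div_self hs.ne', one_pow, one_mul]
      exact mul_le_mul (hj_le ha j) (pow_le_pow_of_le_one hs.le h1.le (by nlinarith))
        (by positivity) (by norm_num))
    (fun z hz => by
      obtain ⟨e, ha⟩ := cO_an h0 h1 hz
      refine HasSum.mul_left _ ?_
      simp only [mul_comm _ (n + 1), pow_mul]
      rw [W_hj ha]
      refine ((cv_one (hj_le ha)).summable ?_).hasSum
      rw [norm_pow]
      exact pow_lt_one₀ (norm_nonneg _) ha.2 n.succ_ne_zero)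
  rw [avg_coef hs (W_dif n).diffContOnCl] at h2
  simp only [cO_shift hs (diffCl (hj_diff _) h1)] at h2
  have h3 := h2.unique (hasSum_sum_of_ne_finset_zero (s := range (K / (n + 1) + 1)) fun j hj =>
    if_neg fun h => hj (mem_range_succ_iff.2 ((Nat.le_div_iff_mul_le n.succ_pos).2 h)))
  refine mul_right_cancel₀ (pow_ne_zero K (ofReal_ne_zero.2 hs.ne')) ?_
  rw [h3, sum_mul]
  exact sum_congr rfl fun j hj =>
    if_pos ((Nat.le_div_iff_mul_le n.succ_pos).1 (mem_range_succ_iff.1 hj))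

theorem cf_sq : ∃ C : ℝ, ∀ S T : Finset ℕ, ∑ j ∈ S, ∑ m ∈ T, ‖cf j m‖ ^ 2 ≤ C := by
  obtain ⟨C, hC⟩ := ai_sq
  refine ⟨C, fun S T => ?_⟩
  have := cO_lim (φ := fun s => ∑ j ∈ S, ∑ m ∈ T, (‖cf j m‖ * s ^ m) ^ 2) (C := C) (by fun_prop) (by
    filter_upwards [cO_near] with s ⟨h0, h1⟩
    have hs : 0 < s := by linarith
    have hi : ∀ j ∈ S, CircleIntegrable (fun z => ‖hj z j‖ ^ 2) 0 s := fun j _ =>
      ((cO_cont hs h1 j).norm.pow 2).circleIntegrable'
    refine (sum_le_sum fun j _ =>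
      sum_le_hasSum T (fun _ _ => sq_nonneg _) (cO_par hs h1 j)).trans ?_
    rw [← circleAverage_fun_sum hi]
    exact circleAverage_mono_on_of_le_circle
      (continuousOn_finsetSum S fun j _ => (cO_cont hs h1 j).norm.pow 2).circleIntegrable'
      fun z hz => hC _ (ai_hj (cO_an h0 h1 hz).2) S)
  simpa using this

theorem cf_zero (m : ℕ) : cf 0 m = 0 := by
  simp [cf, co, hj_zero]

theorem cO_one : cf 1 1 = 1 / 2 := by
  have h := a_eq 1 3
  have e : co (W 1) 3 = iteratedDeriv 2 (F 1) 0 / (2 : ℕ).factorial := coeff_shift (F_diff 1) 2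
  have e1 : F 1 = fun t => Complex.exp (-1 * t) - 1 := funext fun t => by simp [F]
  have e2 : deriv (F 1) = fun t => -Complex.exp (-1 * t) := funext fun t => by
    rw [e1]
    simpa using (((hasDerivAt_id t).const_mul (-1)).cexp.sub_const 1).deriv
  have e3 : iteratedDeriv 2 (F 1) 0 = 1 := by
    rw [iteratedDeriv_succ, iteratedDeriv_one, e2]
    simpa using (((hasDerivAt_id (0 : ℂ)).const_mul (-1)).cexp.neg).deriv
  rw [e, e3] at h
  simpa [sum_range_succ, cf_zero] using h.symm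

theorem cf_one (m : ℕ) : ‖cf 1 m‖ ≤ 1 := by
  have e0 : ‖cf 1 0‖ = 1 := by simp [cf, co, hj_one, hh_zero]
  have e1 : ‖cf 1 1‖ = 1 / 2 := by simp [cO_one]
  rcases Nat.lt_or_ge m 2 with hm | hm
  · interval_cases m
    · exact e0.le
    · rw [e1]; norm_num
  have := cO_lim (φ := fun s => ∑ k ∈ {0, 1, m}, (‖cf 1 k‖ * s ^ k) ^ 2) (C := 9 / 4)
    (by fun_prop) (by
      filter_upwards [cO_near, cert] with s ⟨h0, h1⟩ h2
      exact (sum_le_hasSum _ (fun _ _ => sq_nonneg _) (cO_par (by linarith) h1 1)).trans h2.1)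
  rw [sum_insert (by simp; omega), sum_pair (by omega), e0, e1] at this
  simp only [one_pow, mul_one] at this
  exact (sq_le_one_iff₀ (norm_nonneg _)).1 (by linarith)

theorem cf_two {j : ℕ} (hj : 2 ≤ j) (m : ℕ) : ‖cf j m‖ ≤ 99 / 100 := by
  have := cO_lim (φ := fun s => ‖cf j m‖ * s ^ m) (C := 99 / 100) (by fun_prop) (by
    filter_upwards [cO_near, cert] with s ⟨h0, h1⟩ h2
    have hs : 0 < s := by linarith
    have hi := (cO_cont hs h1 j).norm.circleIntegrable'
    have h3 := norm_avg_le (f := fun z => ((s : ℂ) / z) ^ m * MP_f36384_an.hj z j) hi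
      fun z hz => by
        rw [norm_mul, norm_pow, norm_div, (cO_an h0 h1 hz).1, Complex.norm_real,
          Real.norm_of_nonneg hs.le, div_self hs.ne', one_pow, one_mul]
    rw [avg_coef hs (diffCl (hj_diff j) h1), norm_mul, norm_pow, Complex.norm_real,
      Real.norm_of_nonneg hs.le] at h3
    refine h3.trans ?_
    rcases Nat.lt_or_ge j 17 with h | h
    · exact h2.2 j (mem_Icc.2 ⟨hj, by omega⟩)
    · exact circleAverage_mono_on_of_le_circle hi fun z hz => (ai_hj (cO_an h0 h1 hz).2).big h)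
  simpa using this

theorem cO_sq : ∃ C : ℝ, ∀ u : Finset (ℕ × ℕ), ∑ p ∈ u, ‖cf p.1 p.2‖ ^ 2 ≤ C := by
  obtain ⟨C, hC⟩ := cf_sq
  refine ⟨C, fun u => (sum_le_sum_of_subset_of_nonneg subset_product fun _ _ _ =>
    sq_nonneg _).trans ?_⟩
  rw [sum_product]
  exact hC _ _

theorem cO_tail {ε : ℝ} (hε : 0 < ε) : ∀ᶠ n in atTop, ∀ u : Finset (ℕ × ℕ), (∀ p ∈ u, n < p.2) →
    ∑ p ∈ u, ‖cf p.1 p.2‖ ^ 2 ≤ ε := by
  obtain ⟨C, hC⟩ := cO_sq
  obtain ⟨s, hs⟩ := summable_iff_vanishing_norm.1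
    (summable_of_sum_le (fun _ => sq_nonneg _) hC) ε hε
  filter_upwards [eventually_ge_atTop (s.sup Prod.snd)] with n hn u hu
  exact (le_abs_self _).trans (hs u (disjoint_left.2 fun p h1 h2 =>
    (hu p h1).not_ge ((le_sup (f := Prod.snd) h2).trans hn))).le

theorem cO_lt {n K i : ℕ} (h : i ∈ range (K / (n + 1))) : n < K - i * (n + 1) := by
  have : (i + 1) * (n + 1) ≤ K := (Nat.le_div_iff_mul_le n.succ_pos).1 (mem_range.1 h)
  rw [add_one_mul] at this
  omega

theorem cone (J : ℕ) : ∀ᶠ n in atTop, ∀ K < J * (n + 1), ‖co (W n) K‖ ≤ 1 := by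
  have h0 : (0 : ℝ) < 1 / (100 * (J + 1)) := by positivity
  filter_upwards [cO_tail (pow_pos h0 2)] with n hn K hK
  have hJ : K / (n + 1) < J := (Nat.div_lt_iff_lt_mul n.succ_pos).2 hK
  rw [a_eq, sum_range_succ]
  rcases Nat.lt_or_ge (K / (n + 1)) 2 with h | h
  · rw [sum_eq_zero fun i hi => by
      rw [show i = 0 by have := mem_range.1 hi; omega, cf_zero], zero_add]
    rcases Nat.le_one_iff_eq_zero_or_eq_one.1 (Nat.lt_succ_iff.1 h) with e | e <;> rw [e]
    · simp [cf_zero]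
    · exact cf_one _
  have h1 : ∑ i ∈ range (K / (n + 1)), ‖cf i (K - i * (n + 1))‖ ≤
      (range (K / (n + 1))).card • (1 / (100 * (J + 1)) : ℝ) :=
    sum_le_card_nsmul _ _ _ fun i hi => by
      have := hn {(i, K - i * (n + 1))} (by simpa using cO_lt hi)
      rw [sum_singleton] at this
      exact pow_le_pow_left₀_iff_aux h0.le this
  rw [card_range, nsmul_eq_mul] at h1
  have h2 : ((K / (n + 1) : ℕ) : ℝ) * (1 / (100 * (J + 1))) ≤ 1 / 100 := by
    have : ((K / (n + 1) : ℕ) : ℝ) ≤ J + 1 := by exact_mod_cast by omega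
    rw [mul_one_div, div_le_div_iff₀ (by positivity) (by norm_num)]
    linarith
  have h3 := cf_two h (K - K / (n + 1) * (n + 1))
  linarith [norm_add_le (∑ i ∈ range (K / (n + 1)), cf i (K - i * (n + 1)))
    (cf (K / (n + 1)) (K - K / (n + 1) * (n + 1))),
    norm_sum_le (range (K / (n + 1))) fun i => cf i (K - i * (n + 1))]

theorem mean_sq : ∃ C : ℝ, 0 < C ∧ ∀ q : ℝ, q < 1 → ∀ᶠ n in atTop, ∀ ρ : ℝ, 0 < ρ →
    ρ ^ (n + 1) ≤ q → circleAverage (fun z => ‖W n z‖ ^ 2) 0 ρ ≤ C := by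
  obtain ⟨C, hC⟩ := cO_sq
  have C0 : 0 ≤ C := by simpa using hC ∅
  refine ⟨2 * C + 2, by positivity, fun q hq => ?_⟩
  filter_upwards [cO_tail (sub_pos.2 hq)] with n hn ρ h0 hρ
  have q0 : 0 ≤ q := le_trans (by positivity) hρ
  have h1 : ρ < 1 := lt_of_pow_lt_pow_left₀ (n + 1) zero_le_one (by simpa using hρ.trans_lt hq)
  have hT := taylor (R := 1) (W_dif n).differentiableOn
  have hP := parseval hT.1 h0 h1
  rw [circleAverage_congr_sphere (f₂ := fun z => ‖W n z‖ ^ 2) fun z hz => by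
    rw [mem_sphere_zero_iff_norm, abs_of_pos h0] at hz
    simp only
    rw [hT.2 z (mem_ball_zero_iff.2 (hz ▸ h1))]] at hP
  refine hasSum_le_of_sum_le hP fun U => ?_
  have key : ∀ K, (‖co (W n) K‖ * ρ ^ K) ^ 2 ≤
      2 * ‖cf (K / (n + 1)) (K - K / (n + 1) * (n + 1))‖ ^ 2 +
      2 * ((1 - q)⁻¹ * ∑ i ∈ range (K / (n + 1)), ‖cf i (K - i * (n + 1))‖ ^ 2) := fun K => by
    have a1 : ‖co (W n) K‖ * ρ ^ K ≤ ‖cf (K / (n + 1)) (K - K / (n + 1) * (n + 1))‖ +
        ∑ i ∈ range (K / (n + 1)), q ^ i * ‖cf i (K - i * (n + 1))‖ := by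
      rw [a_eq, sum_range_succ, add_comm]
      refine (mul_le_mul_of_nonneg_right ((norm_add_le _ _).trans
        (add_le_add le_rfl (norm_sum_le _ _))) (by positivity)).trans ?_
      rw [add_mul, sum_mul]
      refine add_le_add (mul_le_of_le_one_right (norm_nonneg _) (pow_le_one₀ h0.le h1.le))
        (sum_le_sum fun i hi => ?_)
      rw [mul_comm]
      refine mul_le_mul_of_nonneg_right ?_ (norm_nonneg _)
      calc ρ ^ K ≤ ρ ^ ((n + 1) * i) := pow_le_pow_of_le_one h0.le h1.le (by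
            have := cO_lt hi
            rw [mul_comm]; omega)
        _ ≤ q ^ i := by rw [pow_mul]; exact pow_le_pow_left₀ (by positivity) hρ i
    have a2 := sum_mul_sq_le_sq_mul_sq (range (K / (n + 1))) (fun i => q ^ i)
      fun i => ‖cf i (K - i * (n + 1))‖
    have a3 : ∑ i ∈ range (K / (n + 1)), (q ^ i) ^ 2 ≤ (1 - q)⁻¹ :=
      (sum_le_sum fun i _ => pow_le_of_le_one (by positivity) (pow_le_one₀ q0 hq.le)
        two_ne_zero).trans (sum_le_hasSum _ (fun _ _ => by positivity)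
          (hasSum_geometric_of_lt_one q0 hq))
    have a4 := a2.trans (mul_le_mul_of_nonneg_right a3 (sum_nonneg fun _ _ => sq_nonneg _))
    refine (pow_le_pow_left₀ (by positivity) a1 2).trans ?_
    nlinarith [sq_nonneg (‖cf (K / (n + 1)) (K - K / (n + 1) * (n + 1))‖ -
      ∑ i ∈ range (K / (n + 1)), q ^ i * ‖cf i (K - i * (n + 1))‖)]
  refine (sum_le_sum fun K _ => key K).trans ?_
  rw [sum_add_distrib, ← mul_sum, ← mul_sum, ← mul_sum]
  have b1 := hC (U.image fun K => (K / (n + 1), K - K / (n + 1) * (n + 1)))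
  rw [sum_image fun K _ K' _ e => by
    have e1 := Nat.div_mul_le_self K (n + 1)
    have e2 := Nat.div_mul_le_self K' (n + 1)
    obtain ⟨e3, e4⟩ := Prod.mk.inj e
    rw [e3] at e1 e4
    omega] at b1
  have b2 := hn ((U.sigma fun K => range (K / (n + 1))).image
    fun x => (x.2, x.1 - x.2 * (n + 1))) fun p hp => by
      obtain ⟨x, hx, rfl⟩ := mem_image.1 hp
      exact cO_lt (mem_sigma.1 hx).2
  rw [sum_image fun x hx y hy e => by
    have e1 := cO_lt (mem_sigma.1 hx).2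
    have e2 := cO_lt (mem_sigma.1 hy).2
    obtain ⟨e3, e4⟩ := Prod.mk.inj e
    rw [e3] at e1 e4
    exact Sigma.ext (by omega) (heq_of_eq e3), sum_sigma] at b2
  have b3 := mul_le_mul_of_nonneg_left b2 (inv_nonneg.2 (sub_pos.2 hq).le)
  rw [inv_mul_cancel₀ (sub_pos.2 hq).ne'] at b3
  simp only at b1 b3
  linarith

end Pool.Agent.Lib.MP_f36384_an
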