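import Pool.Agent.Lib.MP_f36384_an.Sq

/-! Power series on discs and the formal linearising series. -/

namespace Pool.Agent.Lib.MP_f36384_an

open Real Metric Complex Filter Topology Finset

/-- The orbit of the singular value. -/
noncomputable def W (n : ℕ) (t : ℂ) : ℂ := t * F n t

/-- Taylor coefficients at the origin. -/
noncomputable def co (g : ℂ → ℂ) (k : ℕ) : ℂ := iteratedDeriv k g 0 / k.factorial

/-- The sum of a power series. -/
noncomputable def Sr (c : ℕ → ℂ) (z : ℂ) : ℂ := ∑' j, c j * z ^ j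

/-- The terms are bounded at radius `ρ`. -/
def Bd (c : ℕ → ℂ) (ρ : ℝ) : Prop := ∃ C : ℝ, ∀ j, ‖c j‖ * ρ ^ j ≤ C

/-- The series converges on the open disc of radius `R`. -/
def Cv (c : ℕ → ℂ) (R : ℝ) : Prop := ∀ ρ, 0 ≤ ρ → ρ < R → Bd c ρ

/-- The formal linearising series of `fm t`. -/
noncomputable def ps (t : ℂ) : ℕ → ℂ
  | 0 => 0
  | 1 => 1
  | j + 2 => (∑ i : Fin (j + 1), ((i : ℕ) + 1) * ps t (i + 1) * (t ^ (j - i) * ps t (j + 1 - i))) /
      ((j + 2) * (t ^ (j + 1) - 1))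
decreasing_by all_goals omega

/-- Not a root of unity. -/
def NR (t : ℂ) : Prop := ∀ k : ℕ, t ^ (k + 1) ≠ 1

/-- The annulus. -/
def An (t : ℂ) : Prop := 199 / 200 ≤ ‖t‖ ∧ ‖t‖ < 1

variable {c : ℕ → ℂ} {R ρ s : ℝ} {z t : ℂ} {g : ℂ → ℂ}

theorem W_dif (n : ℕ) : Differentiable ℂ (W n) := W_diff n

theorem W_iter (n : ℕ) (t : ℂ) : W n t = (fm t)^[n] (-t) := W_eq n t

theorem W_add (n k : ℕ) (t : ℂ) : W (n + k) t = (fm t)^[k] (W n t) := by
  rw [W_iter, W_iter, add_comm, Function.iterate_add_apply]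

theorem ps_zero (t : ℂ) : ps t 0 = 0 := by rw [ps]

theorem ps_one (t : ℂ) : ps t 1 = 1 := by rw [ps]

theorem ps_rec (t : ℂ) (j : ℕ) : ps t (j + 2) =
    (∑ i ∈ range (j + 1), ((i : ℂ) + 1) * ps t (i + 1) * (t ^ (j - i) * ps t (j + 1 - i))) /
      ((j + 2) * (t ^ (j + 1) - 1)) := by
  rw [ps, Finset.sum_range]

theorem nr_of_lt (h : ‖t‖ < 1) : NR t := fun k e => by
  have := pow_lt_one₀ (norm_nonneg t) h k.succ_ne_zero
  rw [← norm_pow, e, norm_one] at this
  exact lt_irrefl _ this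

theorem An.ne (h : An t) : t ≠ 0 := by
  rintro rfl
  norm_num [An] at h

theorem Bd.mono (h : Bd c ρ) (h0 : 0 ≤ s) (hs : s ≤ ρ) : Bd c s :=
  h.imp fun _ k j => (mul_le_mul_of_nonneg_left (pow_le_pow_left₀ h0 hs j) (norm_nonneg _)).trans (k j)

theorem Bd.cv (h : Bd c ρ) : Cv c ρ := fun _ h0 hs => h.mono h0 hs.le

theorem Cv.mono (h : Cv c R) (hs : s ≤ R) : Cv c s := fun ρ h0 k => h ρ h0 (k.trans_le hs)

theorem cv_one {B : ℝ} (h : ∀ j, ‖c j‖ ≤ B) : Cv c 1 := Bd.cv ⟨B, by simpa using h⟩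

theorem Cv.sum (h : Cv c R) (h0 : 0 ≤ s) (hs : s < R) : Summable fun j => ‖c j‖ * s ^ j := by
  obtain ⟨ρ, h1, h2⟩ := exists_between hs
  have hρ : 0 < ρ := h0.trans_lt h1
  obtain ⟨C, hC⟩ := h ρ hρ.le h2
  refine Summable.of_nonneg_of_le (fun j => by positivity) (fun j => ?_)
    ((summable_geometric_of_lt_one (div_nonneg h0 hρ.le) ((div_lt_one hρ).2 h1)).mul_left C)
  calc ‖c j‖ * s ^ j = ‖c j‖ * ρ ^ j * (s / ρ) ^ j := by rw [div_pow]; field_simp
    _ ≤ _ := by gcongr; exact hC j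

theorem Cv.sumn (h : Cv c R) (hz : ‖z‖ < R) : Summable fun j => ‖c j * z ^ j‖ := by
  simpa only [norm_mul, norm_pow] using h.sum (norm_nonneg z) hz

theorem bd_of_sum (h : Summable fun j => ‖c j‖ * s ^ j) : Bd c s :=
  (h.tendsto_atTop_zero.bddAbove_range).imp fun _ k j => k ⟨j, rfl⟩

theorem term_le (c : ℕ → ℂ) (j : ℕ) (w : ℂ) (hw : w ∈ ball (0 : ℂ) s) :
    ‖c j * w ^ j‖ ≤ ‖c j‖ * s ^ j := by
  rw [norm_mul, norm_pow]
  gcongr
  exact (mem_ball_zero_iff.1 hw).le

theorem Cv.summable (h : Cv c R) (hz : ‖z‖ < R) : Summable fun j => c j * z ^ j := h.sumn hz |>.of_norm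

theorem Cv.diffOn (h : Cv c R) : DifferentiableOn ℂ (Sr c) (ball 0 R) := fun z hz => by
  obtain ⟨s, h1, h2⟩ := exists_between (mem_ball_zero_iff.1 hz)
  exact ((differentiableOn_tsum_of_summable_norm (h.sum ((norm_nonneg z).trans h1.le) h2)
    (fun j => by fun_prop) isOpen_ball (term_le c)).differentiableAt
    (isOpen_ball.mem_nhds (mem_ball_zero_iff.2 h1))).differentiableWithinAt

theorem Cv.der (h : Cv c R) : Cv (fun j => ((j : ℂ) + 1) * c (j + 1)) R := fun s h0 hs => by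
  obtain ⟨ρ, h1, h2⟩ := exists_between hs
  have hρ : 0 < ρ := h0.trans_lt h1
  obtain ⟨C, hC⟩ := h ρ hρ.le h2
  have q0 := div_nonneg h0 hρ.le
  have q1 := (div_lt_one hρ).2 h1
  obtain ⟨B, hB⟩ := ((tendsto_self_mul_const_pow_of_lt_one q0 q1).add
    (tendsto_pow_atTop_nhds_zero_of_lt_one q0 q1)).bddAbove_range
  refine ⟨C / ρ * B, fun j => ?_⟩
  have e : ‖((j : ℂ) + 1) * c (j + 1)‖ * s ^ j =
      ‖c (j + 1)‖ * ρ ^ (j + 1) / ρ * (j * (s / ρ) ^ j + (s / ρ) ^ j) := by
    rw [norm_mul, ← Nat.cast_succ, Complex.norm_natCast, div_pow, pow_succ]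
    push_cast
    field_simp
  have hC0 : 0 ≤ C := le_trans (by positivity) (hC 0)
  rw [e]
  exact mul_le_mul (div_le_div_of_nonneg_right (hC _) hρ.le) (hB ⟨j, rfl⟩) (by positivity)
    (by positivity)

theorem Cv.hasDerivAt (h : Cv c R) (hz : ‖z‖ < R) :
    HasDerivAt (Sr c) (Sr (fun j => ((j : ℂ) + 1) * c (j + 1)) z) z := by
  obtain ⟨s, h1, h2⟩ := exists_between hz
  have k := hasSum_deriv_of_summable_norm (h.sum ((norm_nonneg z).trans h1.le) h2)
    (fun j => by fun_prop) isOpen_ball (term_le c) (mem_ball_zero_iff.2 h1)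
  have d : ∀ j : ℕ, deriv (fun w : ℂ => c j * w ^ j) z = c j * (j * z ^ (j - 1)) := fun j =>
    ((hasDerivAt_pow j z).const_mul (c j)).deriv
  simp only [d] at k
  have k2 := (hasSum_nat_add_iff' 1).2 k
  have e : Sr (fun j => ((j : ℂ) + 1) * c (j + 1)) z = deriv (Sr c) z := by
    refine HasSum.tsum_eq ?_
    convert! k2 using 1
    · funext j
      simp only [Nat.add_sub_cancel, Nat.cast_succ]
      ring
    · simp
      rfl
  rw [e]
  exact ((h.diffOn).differentiableAt (isOpen_ball.mem_nhds (mem_ball_zero_iff.2 hz))).hasDerivAt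

theorem Sr_zero (c : ℕ → ℂ) : Sr c 0 = c 0 := by
  rw [Sr, tsum_eq_single 0 fun j hj => by simp [hj]]
  simp

theorem taylor (hg : DifferentiableOn ℂ g (ball 0 R)) :
    Cv (co g) R ∧ ∀ z ∈ ball (0 : ℂ) R, Sr (co g) z = g z := by
  have k : ∀ z ∈ ball (0 : ℂ) R, HasSum (fun j => co g j * z ^ j) (g z) := fun z hz => by
    convert! hasSum_taylorSeries_on_ball hg hz using 2 with j
    simp only [co, sub_zero, smul_eq_mul]
    ring
  refine ⟨fun ρ h0 hρ => ?_, fun z hz => (k z hz).tsum_eq⟩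
  have := (k ρ (by simpa [abs_of_nonneg h0] using hρ)).summable.tendsto_atTop_zero.norm
  refine this.bddAbove_range.imp fun _ k j => le_of_eq_of_le ?_ (k ⟨j, rfl⟩)
  simp [abs_of_nonneg h0]

theorem co_eq (h : Cv c R) (hR : 0 < R) (e : g =ᶠ[𝓝 0] Sr c) : co g = c := by
  funext k
  induction k generalizing c g with
  | zero => simp [co, e.eq_of_nhds, Sr_zero]
  | succ k ih =>
    have e2 : deriv g =ᶠ[𝓝 0] Sr fun j => ((j : ℂ) + 1) * c (j + 1) :=
      e.deriv.trans (eventually_of_mem (ball_mem_nhds 0 hR) fun z hz =>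
        (h.hasDerivAt (mem_ball_zero_iff.1 hz)).deriv)
    have := ih h.der e2
    have h1 : (k : ℂ) + 1 ≠ 0 := Nat.cast_add_one_ne_zero k
    have h2 : (k.factorial : ℂ) ≠ 0 := Nat.cast_ne_zero.2 k.factorial_ne_zero
    rw [co, div_eq_iff h2] at this
    rw [co, iteratedDeriv_succ', this, Nat.factorial_succ]
    push_cast
    field_simp

theorem avg_coef (hs : 0 < s) (hg : DiffContOnCl ℂ g (ball 0 s)) (k : ℕ) :
    circleAverage (fun z => ((s : ℂ) / z) ^ k * g z) 0 s = co g k * s ^ k := by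
  rw [circleAverage_eq_circleIntegral hs.ne', co]
  have : (∮ z in C(0, s), (z - 0)⁻¹ • (((s : ℂ) / z) ^ k * g z)) =
      ∮ z in C(0, s), (s : ℂ) ^ k • ((1 / (z - 0) ^ (k + 1)) • g z) := by
    congr 1
    funext z
    simp only [sub_zero, smul_eq_mul, div_pow, pow_succ]
    ring
  rw [this, circleIntegral.integral_smul, hg.circleIntegral_one_div_sub_center_pow_smul hs k]
  simp only [smul_eq_mul]
  have := two_pi_I_ne_zero
  field_simp

/-- Termwise averaging. -/
theorem avg_hasSum {f : ℕ → ℂ → ℂ} {u : ℕ → ℝ} (hu : Summable u)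
    (hf : ∀ k, ContinuousOn (f k) (sphere 0 |s|))
    (hb : ∀ k, ∀ z ∈ sphere (0 : ℂ) |s|, ‖f k z‖ ≤ u k)
    (hl : ∀ z ∈ sphere (0 : ℂ) |s|, HasSum (fun k => f k z) (g z)) :
    HasSum (fun k => circleAverage (f k) 0 s) (circleAverage g 0 s) := by
  simp only [circleAverage_def]
  refine HasSum.const_smul _ (intervalIntegral.hasSum_integral_of_dominated_convergence
    (fun k _ => u k) (fun k => ?_) (fun k => .of_forall fun θ _ => ?_) (.of_forall fun _ _ => hu)
    intervalIntegrable_const (.of_forall fun θ _ => ?_))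
  · exact ((hf k).comp_continuous (continuous_circleMap 0 s)
      (circleMap_mem_sphere' 0 s)).aestronglyMeasurable
  · exact hb k _ (circleMap_mem_sphere' 0 s θ)
  · exact hl _ (circleMap_mem_sphere' 0 s θ)

theorem parseval (h : Cv c R) (h0 : 0 < s) (hs : s < R) :
    HasSum (fun k => (‖c k‖ * s ^ k) ^ 2) (circleAverage (fun z => ‖Sr c z‖ ^ 2) 0 s) := by
  have hg := diffCl h.diffOn hs
  have hc := cont_sphere h0 hg
  have hnz : ∀ z ∈ sphere (0 : ℂ) |s|, ‖z‖ = s := fun z hz => by simpa [abs_of_pos h0] using hz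
  have hne : ∀ z ∈ sphere (0 : ℂ) |s|, z ≠ 0 := fun z hz e => by
    have := hnz z hz
    rw [e, norm_zero] at this
    exact h0.ne this
  obtain ⟨B, hB⟩ := (isCompact_sphere (0 : ℂ) |s|).exists_bound_of_continuousOn hc
  have k := avg_hasSum (f := fun k z => ((starRingEnd ℂ) (c k) * s ^ k) • ((s / z) ^ k * Sr c z))
    (g := fun z => ((‖Sr c z‖ ^ 2 : ℝ) : ℂ)) ((h.sum h0.le hs).mul_right B)
    (fun k => (((continuousOn_const.div continuousOn_id hne).pow k).mul hc).const_smul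
      ((starRingEnd ℂ) (c k) * s ^ k))
    (fun k z hz => by
      simp only [smul_eq_mul, norm_mul, norm_pow, norm_div, hnz z hz, Complex.norm_conj,
        Complex.norm_real, Real.norm_of_nonneg h0.le, div_self h0.ne', one_pow, one_mul]
      gcongr
      exact hB z hz)
    (fun z hz => by
      have h1 := ((Complex.hasSum_conj' (f := fun j => c j * z ^ j)).2
        (h.summable ((hnz z hz).trans_lt hs)).hasSum).mul_right (Sr c z)
      have hz0 := hne z hz
      have hcj : (starRingEnd ℂ) z = s * (s / z) := by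
        rw [← mul_div_assoc, eq_div_iff hz0, mul_comm, Complex.mul_conj, Complex.normSq_eq_norm_sq,
          hnz z hz]
        push_cast
        ring
      convert! h1 using 1
      · funext j
        simp only [map_mul, map_pow, hcj, mul_pow, smul_eq_mul]
        ring
      · rw [← Complex.normSq_eq_norm_sq, Complex.normSq_eq_conj_mul_self]
        rfl)
  have ci : CircleIntegrable (fun z => ‖Sr c z‖ ^ 2) 0 s := (hc.norm.pow 2).circleIntegrable'
  have e1 : circleAverage (fun z => ((‖Sr c z‖ ^ 2 : ℝ) : ℂ)) 0 s = _ :=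
    Complex.ofRealCLM.circleAverage_comp_comm ci
  rw [e1] at k
  refine Complex.hasSum_ofReal.1 ?_
  convert! k using 2 with j
  rw [circleAverage_fun_smul, avg_coef h0 hg, co_eq h (h0.trans hs) EventuallyEq.rfl, mul_pow,
    ← Complex.normSq_eq_norm_sq, ofReal_mul, Complex.normSq_eq_conj_mul_self]
  push_cast
  simp only [smul_eq_mul]
  ring

theorem Sr_mul {b : ℕ → ℂ} (h : Cv c R) (hb : Cv b R) (hz : ‖z‖ < R) :
    Sr c z * Sr b z = Sr (fun n => ∑ k ∈ range (n + 1), c k * b (n - k)) z := by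
  rw [Sr, Sr, tsum_mul_tsum_eq_tsum_sum_range_of_summable_norm (h.sumn hz) (hb.sumn hz)]
  refine tsum_congr fun n => ?_
  rw [sum_mul]
  refine sum_congr rfl fun k hk => ?_
  rw [← pow_mul_pow_sub z (Nat.lt_succ_iff.1 (mem_range.1 hk))]
  ring

/-- Coefficients of the exponential of the linearising series. -/
noncomputable def es (t : ℂ) : ℕ → ℂ
  | 0 => 1
  | k + 1 => t ^ k * ps t (k + 1)

theorem es_cv (h1 : ‖t‖ ≤ 1) (h : Cv (ps t) R) : Cv (es t) R := fun ρ h0 hρ => by
  obtain ⟨C, hC⟩ := h ρ h0 hρ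
  refine ⟨max 1 C, fun j => ?_⟩
  rcases j with _ | j
  · simp [es]
  · refine le_trans ?_ ((hC (j + 1)).trans (le_max_right _ _))
    rw [es, norm_mul, norm_pow]
    gcongr
    exact mul_le_of_le_one_left (norm_nonneg _) (pow_le_one₀ (norm_nonneg _) h1)

theorem es_rec (hn : NR t) (n : ℕ) : ((n : ℂ) + 1) * es t (n + 1) =
    ∑ k ∈ range (n + 1), ((k : ℂ) + 1) * ps t (k + 1) * es t (n - k) := by
  rcases n with _ | n
  · simp [es]
  · have h2 : ((n : ℂ) + 2) * (t ^ (n + 1) - 1) ≠ 0 :=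
      mul_ne_zero (by exact_mod_cast (n + 1).succ_ne_zero) (sub_ne_zero.2 (hn n))
    have e := (eq_div_iff h2).1 (ps_rec t n)
    rw [sum_range_succ, sum_congr rfl fun k hk => by
      rw [Nat.succ_sub (Nat.lt_succ_iff.1 (mem_range.1 hk)), es,
        ← Nat.succ_eq_add_one (n - k), ← Nat.succ_sub (Nat.lt_succ_iff.1 (mem_range.1 hk))],
      ← e]
    simp only [Nat.sub_self, es]
    push_cast
    ring

/-- The functional equation of the linearising series. -/
theorem fe (h0 : t ≠ 0) (h1 : ‖t‖ ≤ 1) (hn : NR t) (h : Cv (ps t) R) (hz : ‖z‖ < R) :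
    fm t (Sr (ps t) z) = Sr (ps t) (t * z) := by
  have he := es_cv h1 h
  have hR : 0 < R := (norm_nonneg z).trans_lt hz
  have hd : ∀ w ∈ ball (0 : ℂ) R,
      HasDerivAt (fun w => Sr (es t) w * Complex.exp (-Sr (ps t) w)) 0 w := fun w hw => by
    have hw' := mem_ball_zero_iff.1 hw
    convert! (he.hasDerivAt hw').fun_mul (h.hasDerivAt hw').fun_neg.cexp using 1
    simp only [es_rec hn]
    rw [← Sr_mul h.der he hw']
    ring
  have k := isOpen_ball.is_const_of_deriv_eq_zero (convex_ball (0 : ℂ) R).isPreconnected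
    (fun w hw => (hd w hw).differentiableAt.differentiableWithinAt) (fun w hw => (hd w hw).deriv)
    (mem_ball_zero_iff.2 hz) (mem_ball_self hR)
  simp only [Sr_zero, es, ps_zero, neg_zero, Complex.exp_zero, mul_one] at k
  rw [Complex.exp_neg, mul_inv_eq_one₀ (Complex.exp_ne_zero _)] at k
  have hz' : ‖t * z‖ < R := by
    rw [norm_mul]
    exact (mul_le_of_le_one_left (norm_nonneg _) h1).trans_lt hz
  rw [fm, ← k, Sr, Sr, (he.summable hz).tsum_eq_zero_add, (h.summable hz').tsum_eq_zero_add]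
  simp only [es, ps_zero, pow_zero, mul_one, zero_add, add_sub_cancel_left, ← tsum_mul_left]
  exact tsum_congr fun j => by ring

theorem ps_difAt (hn : NR t) (j : ℕ) : DifferentiableAt ℂ (fun t => ps t j) t := by
  induction j using Nat.strong_induction_on with
  | _ j ih =>
    rcases j with _ | _ | j
    · simp [ps_zero]
    · simp [ps_one]
    · simp only [ps_rec]
      refine DifferentiableAt.div (DifferentiableAt.fun_sum fun i hi => ?_) (by fun_prop)
        (mul_ne_zero (by exact_mod_cast (j + 1).succ_ne_zero) (sub_ne_zero.2 (hn j)))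
      have := mem_range.1 hi
      exact ((ih _ (by omega)).const_mul _).mul ((differentiableAt_pow _).mul (ih _ (by omega)))

theorem ps_at_zero (j : ℕ) : ‖ps 0 (j + 1)‖ = 1 / (j + 1) := by
  induction j with
  | zero => simp [ps_one]
  | succ j ih =>
    rw [ps_rec, sum_eq_single j (fun i hi h => by
      rw [zero_pow (by have := mem_range.1 hi; omega), zero_mul, mul_zero]) (by simp)]
    have h1 : ‖(j : ℂ) + 1‖ = j + 1 := by exact_mod_cast Complex.norm_natCast (j + 1)
    have h2 : ‖(j : ℂ) + 2‖ = j + 2 := by exact_mod_cast Complex.norm_natCast (j + 2)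
    simp only [norm_div, norm_mul, ih, h1, h2, Nat.sub_self, Nat.add_sub_cancel_left, ps_one,
      pow_zero, norm_one, zero_pow j.succ_ne_zero, zero_sub, norm_neg]
    push_cast
    field_simp
    ring

end Pool.Agent.Lib.MP_f36384_an
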