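import Pool.Agent.Lib.MP_f36384_an.N.Cd
import Pool.Agent.Lib.MP_f36384_an.N.S0

/-! First order ball arithmetic: soundness. -/

namespace Pool.Agent.Lib.MP_f36384_an.Ct

open Complex

/-- The value. -/
noncomputable def ev (z : G) : ℂ := ⟨(z.a : ℝ) - z.c, (z.b : ℝ) - z.d⟩

theorem ev_gn (k : ℕ) : ev (gn k) = k := by apply Complex.ext <;> simp [ev, gn]

theorem ev_gm (u v : G) : ev (gm u v) = ev u * ev v := by
  apply Complex.ext <;> simp [ev, gm] <;> ring

theorem ev_ga (u v : G) : ev (ga u v) = ev u + ev v := by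
  apply Complex.ext <;> simp [ev, ga] <;> ring

theorem ev_gs (u v : G) : ev (gs u v) = ev u - ev v := by
  apply Complex.ext <;> simp [ev, gs] <;> ring

theorem ab_eq (x y : ℕ) : (ab x y : ℝ) = |(x : ℝ) - y| := by
  rcases le_total x y with h | h
  · rw [abs_sub_comm, abs_of_nonneg (sub_nonneg.2 (Nat.cast_le.2 h))]
    simp [ab, Nat.sub_eq_zero_of_le h, Nat.cast_sub h]
  · rw [abs_of_nonneg (sub_nonneg.2 (Nat.cast_le.2 h))]
    simp [ab, Nat.sub_eq_zero_of_le h, Nat.cast_sub h]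

theorem nq_eq (z : G) : (nq z : ℝ) = ‖ev z‖ ^ 2 := by
  simp [nq, ab_eq, Complex.sq_norm, normSq_apply, ev]

theorem nu_le (z : G) : ‖ev z‖ ≤ nu z := by
  simpa [nu, ab_eq, ev] using norm_le_abs_re_add_abs_im (ev z)

theorem up_le (z : G) : ‖ev z‖ ≤ up z := by
  refine abs_le_of_sq_le_sq' ?_ (Nat.cast_nonneg _) |>.2
  rw [← nq_eq, up, sr]
  norm_cast
  cases h : Nat.ble _ _
  · simp only [cond_false, Nat.add_eq]
    nlinarith
  · simpa [sq] using Nat.le_of_ble_eq_true h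

theorem lo_le (z : G) : (lo z : ℝ) ≤ ‖ev z‖ := by
  refine Nat.cast_div_le.trans ?_
  rw [div_le_iff₀ (by simp; positivity), nq_eq, sq]
  have := up_le z
  simp only [Nat.add_eq, Nat.cast_add, Nat.cast_one]
  exact mul_le_mul_of_nonneg_left (by linarith) (norm_nonneg _)

theorem div_bd (n : ℕ) {k : ℕ} (hk : 0 < k) :
    (k : ℝ) * (n / k : ℕ) ≤ n ∧ (n : ℝ) ≤ k * ((n / k : ℕ) + 1) := by
  norm_cast
  exact ⟨Nat.mul_div_le n k, (Nat.lt_mul_div_succ n hk).le⟩

theorem gd_aux (x y : ℕ) {k : ℕ} (hk : 0 < k) :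
    |(x : ℝ) - y - k * (((x - y) / k : ℕ) - ((y - x) / k : ℕ))| ≤ k := by
  have h1 := div_bd (x - y) hk
  have h2 := div_bd (y - x) hk
  rcases le_total x y with h | h
  · rw [Nat.cast_sub h] at h2
    rw [Nat.sub_eq_zero_of_le h, Nat.zero_div, abs_le]
    push_cast
    constructor <;> linarith [h2.1, h2.2]
  · rw [Nat.cast_sub h] at h1
    rw [Nat.sub_eq_zero_of_le h, Nat.zero_div, abs_le]
    push_cast
    constructor <;> linarith [h1.1, h1.2]

theorem gd_le (z : G) {k : ℕ} (hk : 0 < k) : ‖ev z - k * ev (gd z k)‖ ≤ 2 * k := by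
  refine (norm_le_abs_re_add_abs_im _).trans ?_
  have h1 := gd_aux z.a z.c hk
  have h2 := gd_aux z.b z.d hk
  simp only [ev, gd, sub_re, sub_im, mul_re, mul_im, natCast_re, natCast_im, zero_mul, sub_zero,
    add_zero, Nat.sub_eq]
  exact (add_le_add h1 h2).trans_eq (two_mul _).symm

theorem S_pos : 0 < S := by decide

attribute [local irreducible] S up lo nq nu gd gm gs ga gn

/-- The enclosure. -/
def U.In (τ : ℂ) (x : U) (z : ℂ) : Prop := ‖z - (ev x.a + ev x.b * τ)‖ ≤ x.e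

/-- The enclosure with correct bounds. -/
structure T.In (τ : ℂ) (x : T) (z : ℂ) : Prop where
  i : x.toU.In τ z
  m : ‖ev x.a‖ + ‖ev x.b‖ ≤ x.m
  n : ‖ev x.b‖ ≤ x.n

variable {τ z w u : ℂ}

theorem U.In.mk' {x : U} (h : x.In τ z) : (Ct.mk x).In τ z :=
  ⟨h, by simpa [Ct.mk] using add_le_add (up_le x.a) (up_le x.b), up_le x.b⟩

theorem U.In.add {x y : U} (h : x.In τ z) (k : y.In τ w) : (Ct.add x y).In τ (z + w) := by
  have := (norm_add_le _ _).trans (add_le_add h k)
  simp only [U.In, Ct.add, ev_ga, Nat.add_eq, Nat.cast_add]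
  exact (congrArg _ (by ring)).trans_le this

theorem nt (hτ : ‖τ‖ ≤ 1) (b : ℂ) : ‖b * τ‖ ≤ ‖b‖ := by
  rw [norm_mul]
  exact mul_le_of_le_one_right (norm_nonneg _) hτ

theorem T.In.lin (hτ : ‖τ‖ ≤ 1) {x : T} (h : x.In τ z) : ‖ev x.a + ev x.b * τ‖ ≤ x.m :=
  (norm_add_le _ _).trans ((add_le_add le_rfl (nt hτ _)).trans h.m)

theorem T.In.hi (hτ : ‖τ‖ ≤ 1) {x : T} (h : x.In τ z) : ‖z‖ ≤ (x.m + x.e : ℕ) := by
  have := norm_sub_norm_le z (ev x.a + ev x.b * τ)
  have h1 := h.lin hτ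
  have h2 : _ ≤ _ := h.i
  push_cast
  linarith

theorem U.In.low (hτ : ‖τ‖ ≤ 1) {x : U} (h : x.In τ z) {n : ℕ} (hn : ‖ev x.b‖ ≤ n) :
    ((lo x.a - n - x.e : ℕ) : ℝ) ≤ ‖z‖ := by
  have h1 := norm_sub_norm_le (ev x.a + ev x.b * τ) z
  have h2 := norm_sub_norm_le (ev x.a) (-(ev x.b * τ))
  have h3 := nt hτ (ev x.b)
  have h4 := lo_le x.a
  have h5 : _ ≤ _ := h
  rw [norm_sub_rev] at h1
  rw [norm_neg, sub_neg_eq_add] at h2
  rcases le_total (lo x.a) (n + x.e) with e | e
  · rw [Nat.sub_sub, Nat.sub_eq_zero_of_le e, Nat.cast_zero]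
    exact norm_nonneg _
  · rw [Nat.sub_sub, Nat.cast_sub e, Nat.cast_add]
    linarith

theorem T.In.mul (hτ : ‖τ‖ ≤ 1) {x y : T} (h : x.In τ z) (k : y.In τ w) :
    (Ct.mul x y).In τ (z * w) := by
  have e : z * w - (ev x.a * ev y.a + (ev x.a * ev y.b + ev x.b * ev y.a) * τ) =
      (ev x.b * τ) * (ev y.b * τ) + (z - (ev x.a + ev x.b * τ)) * w +
        (w - (ev y.a + ev y.b * τ)) * (ev x.a + ev x.b * τ) := by ring
  simp only [U.In, Ct.mul, ev_ga, ev_gm, Nat.add_eq, Nat.mul_eq, Nat.cast_add, Nat.cast_mul, e]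
  refine norm_add_le_of_le (norm_add_le_of_le ?_ ?_) ?_
  · exact norm_mul_le_of_le ((nt hτ _).trans h.n) ((nt hτ _).trans k.n)
  · exact norm_mul_le_of_le h.i (by simpa using k.hi hτ)
  · exact norm_mul_le_of_le k.i (h.lin hτ)

theorem conv_in (hτ : ‖τ‖ ≤ 1) {A E : List T} {a e : List ℂ} (h : List.Forall₂ (T.In τ) A a)
    (k : List.Forall₂ (T.In τ) E e) : (conv A E).In τ (List.zipWith (· * ·) a e).sum := by
  induction h generalizing E e with
  | nil => simp [conv, U.In, ev_gn]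
  | cons h _ ih =>
    cases k with
    | nil => simp [conv, U.In, ev_gn]
    | cons k k' => exact (h.mul hτ k).add (ih k')

theorem U.In.dc (hτ : ‖τ‖ ≤ 1) {x : U} (h : x.In τ z) {k : ℕ} (hk : 0 < k) :
    (Ct.dc x k).In τ (z / k) := by
  refine U.In.mk' ?_
  have k0 : (0 : ℝ) < k := Nat.cast_pos.2 hk
  have k1 : (k : ℂ) ≠ 0 := Nat.cast_ne_zero.2 hk.ne'
  have e : z / k - (ev (gd x.a k) + ev (gd x.b k) * τ) = (z - (ev x.a + ev x.b * τ) +
      (ev x.a - k * ev (gd x.a k)) + (ev x.b - k * ev (gd x.b k)) * τ) / k := by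
    field_simp
    ring
  have := norm_add_le_of_le (norm_add_le_of_le h (gd_le x.a hk)) ((nt hτ _).trans (gd_le x.b hk))
  simp only [U.In, e, norm_div, Complex.norm_natCast, div_le_iff₀ k0, Nat.add_eq, Nat.cast_add,
    Nat.cast_ofNat]
  have h2 : (x.e : ℝ) ≤ k * ((x.e.div k : ℕ) + 1) := (div_bd x.e hk).2
  linarith

theorem U.In.dv (hτ : ‖τ‖ ≤ 1) {s : U} {d : T} (h : s.In τ z) (k : d.In τ w) {l : ℕ} (hl : 0 < l)
    (hw : (l : ℝ) ≤ ‖w‖) : (Ct.dv s d l).In τ (z / w) := by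
  have l0 : (0 : ℝ) < l := Nat.cast_pos.2 hl
  have w0 : w ≠ 0 := norm_pos_iff.1 (l0.trans_le hw)
  unfold Ct.dv
  extract_lets a r b q
  have hq : q.In τ (ev a + ev b * τ) := U.In.mk' (x := ⟨a, b, 0⟩) (by simp [U.In])
  refine ⟨?_, hq.m, hq.n⟩
  have e : z / w - (ev a + ev b * τ) = (ev (gs s.a (gm a d.a)) + ev (gs r (gm b d.a)) * τ -
      (ev b * τ) * (ev d.b * τ) - (ev a + ev b * τ) * (w - (ev d.a + ev d.b * τ)) +
      (z - (ev s.a + ev s.b * τ))) / w := by
    simp only [r, ev_gs, ev_gm]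
    field_simp
    ring
  have := norm_add_le_of_le (norm_sub_le_of_le (norm_sub_le_of_le (norm_add_le_of_le
    (nu_le (gs s.a (gm a d.a))) ((nt hτ _).trans (nu_le (gs r (gm b d.a)))))
    (norm_mul_le_of_le ((nt hτ _).trans hq.n) ((nt hτ _).trans k.n)))
    (norm_mul_le_of_le (hq.lin hτ) k.i)) h
  have h2 := (div_bd (nu (gs s.a (gm a d.a)) + nu (gs r (gm b d.a)) + q.n * d.n + q.m * d.e + s.e)
    hl).2
  simp only [U.In, e, norm_div, div_le_iff₀ (l0.trans_le hw)]
  push_cast at h2 ⊢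
  refine (this.trans h2).trans ?_
  rw [mul_comm]
  gcongr

/-- Entries are lower bounds. -/
def Lo (f : ℕ → ℝ) : ℕ → List ℕ → Prop
  | _, [] => True
  | j, l :: ls => (l : ℝ) ≤ f j ∧ Lo f (j + 1) ls

/-- Entries are upper bounds. -/
def Hi (f : ℕ → ℝ) : ℕ → List ℕ → Prop
  | _, [] => True
  | j, l :: ls => f j ≤ (l : ℝ) ∧ Hi f (j + 1) ls

theorem go_succ {t p d q : T} {f j l : ℕ} {A E : List T} {s : U} (es : conv A E = s)
    (ed : mk ⟨gs p.a (gn S), p.b, p.e⟩ = d) (el : lo d.a - d.n - d.e = l) (eq : dv s d l = q) :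
    go t (f + 1) j p A E =
    bif (50 * l).ble (d.m + d.e) then ([(lo s.a - up s.b - s.e) / (d.m + d.e + 1)], [])
    else ((lo q.a - q.n - q.e) :: (go t f (j + 1) (dc (mul p t) S) (A ++ [q])
        (dc (add ⟨gm q.a (gn S), gm q.b (gn S), q.e * S⟩ s) (j * S) :: E)).1,
      (q.m + q.e) :: (go t f (j + 1) (dc (mul p t) S) (A ++ [q])
        (dc (add ⟨gm q.a (gn S), gm q.b (gn S), q.e * S⟩ s) (j * S) :: E)).2) := by
  subst es ed el eq
  rfl

theorem go_ok (hτ : ‖τ‖ ≤ 1) (hn : NR u) {t : T} (ht : t.In τ (S * u)) (f n j : ℕ) (hj : j = n + 2)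
    {p : T} {A E : List T} (hp : p.In τ (S * u ^ (n + 1)))
    (hA : List.Forall₂ (T.In τ) A ((List.range (n + 1)).map fun i => S * ((i + 1) * ps u (i + 1))))
    (hE : List.Forall₂ (T.In τ) E
      ((List.range (n + 1)).map fun i => S * (u ^ (n - i) * ps u (n + 1 - i)))) :
    Lo (fun j => S * (j * ‖ps u j‖)) j (go t f j p A E).1 ∧
      Hi (fun j => S * (j * ‖ps u j‖)) j (go t f j p A E).2 ∧ (go t f j p A E).1.length ≤ f := by
  induction f generalizing n j p A E with
  | zero => exact ⟨trivial, trivial, le_rfl⟩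
  | succ f ih =>
    have S0 : (S : ℂ) ≠ 0 := Nat.cast_ne_zero.2 S_pos.ne'
    have n0 : (n : ℂ) + 2 ≠ 0 := by exact_mod_cast (by omega : n + 2 ≠ 0)
    have u0 := sub_ne_zero.2 (hn n)
    have hs := conv_in hτ hA hE
    have e : (List.zipWith (· * ·)
        ((List.range (n + 1)).map fun i => (S : ℂ) * ((i + 1) * ps u (i + 1)))
        ((List.range (n + 1)).map fun i => S * (u ^ (n - i) * ps u (n + 1 - i)))).sum =
        S * ((n + 2) * ps u (n + 2)) * (S * u ^ (n + 1) - S) := by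
      rw [List.zipWith_map, List.zipWith_self, ← List.sum_toFinset _ List.nodup_range,
        List.toFinset_range, ps_rec]
      field_simp
      rw [Finset.mul_sum]
      exact Finset.sum_congr rfl fun i _ => by ring
    rw [e] at hs
    have hd : (mk ⟨gs p.a (gn S), p.b, p.e⟩).In τ (S * u ^ (n + 1) - S) := U.In.mk' (by
      have : _ ≤ _ := hp.i
      simp only [U.In, ev_gs, ev_gn]
      exact (congrArg _ (by ring)).trans_le this)
    have nn : ‖(S : ℂ) * ((n + 2) * ps u (n + 2))‖ = S * (j * ‖ps u j‖) := by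
      rw [hj, norm_mul, norm_mul, Complex.norm_natCast, ← Complex.norm_natCast (n + 2)]
      push_cast
      rfl
    generalize es : conv A E = s at hs
    generalize ed : mk ⟨gs p.a (gn S), p.b, p.e⟩ = d at hd
    generalize el : lo d.a - d.n - d.e = l
    generalize eq : dv s d l = q
    rw [go_succ es ed el eq]
    cases hb : Nat.ble (50 * l) (d.m + d.e)
    · have l0 : 0 < l := by
        have := Nat.not_le_of_not_ble_eq_true (hb.trans_ne Bool.false_ne_true)
        omega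
      have hq : q.In τ (S * ((n + 2) * ps u (n + 2))) := by
        have := hs.dv hτ hd l0 (el ▸ hd.i.low hτ hd.n)
        rwa [mul_div_cancel_right₀ _ (by rw [← mul_sub_one]; exact mul_ne_zero S0 u0), eq] at this
      have k := ih (n + 1) (j + 1) (by omega) (p := dc (mul p t) S) (A := A ++ [q])
        (E := dc (add ⟨gm q.a (gn S), gm q.b (gn S), q.e * S⟩ s) (j * S) :: E) (by
          convert (hp.mul hτ ht).dc hτ S_pos using 1
          field_simp
          ring) (by
          rw [List.range_succ (n := n + 1), List.map_append]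
          exact List.rel_append hA (.cons (by convert hq using 3; push_cast; ring) .nil)) (by
          rw [List.range_succ_eq_map, List.map_cons, List.map_map]
          refine .cons ?_ (by convert hE using 3; simp)
          have h1 : U.In τ ⟨gm q.a (gn S), gm q.b (gn S), q.e * S⟩
              (S * ((n + 2) * ps u (n + 2)) * S) := by
            have := norm_mul_le_of_le hq.i (Complex.norm_natCast S).le
            simp only [U.In, ev_gm, ev_gn, Nat.cast_mul]
            exact (congrArg _ (by ring)).trans_le this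
          convert (h1.add hs).dc hτ (Nat.mul_pos (by omega : 0 < j) S_pos) using 1
          rw [hj]
          push_cast
          field_simp
          ring)
      rw [cond_false, Lo, Hi, List.length_cons]
      exact ⟨⟨(hq.i.low hτ hq.n).trans nn.le, k.1⟩, ⟨nn.ge.trans (hq.hi hτ), k.2.1⟩,
        Nat.succ_le_succ k.2.2⟩
    · rw [cond_true, Lo]
      refine ⟨⟨Nat.cast_div_le.trans ?_, trivial⟩, trivial, by simp⟩
      have h1 := hs.low hτ (up_le _)
      rw [norm_mul, nn] at h1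
      rw [div_le_iff₀ (by positivity)]
      refine h1.trans (mul_le_mul_of_nonneg_left ((hd.hi hτ).trans ?_) (by positivity))
      exact Nat.cast_le.2 (Nat.le_succ _)

end Pool.Agent.Lib.MP_f36384_an.Ct
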