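import Pool.Agent.Lib.MP_f36384_an.N.Ba

/-! The iterates blow up near the boundary of the rotation domain. -/

namespace Pool.Agent.Lib.MP_f36384_an

open Real Metric Complex Filter Topology Finset

variable {t : ℂ} {R : ℝ}

/-- Cesaro means of the normalised iterates. -/
noncomputable def ch (t : ℂ) (N : ℕ) (w : ℂ) : ℂ :=
  (∑ K ∈ range N, (t ^ (K + 1))⁻¹ * (fm t)^[K + 1] w) / N

theorem ju2_dense (h1 : ‖t‖ = 1) (hn : NR t) {u : ℂ} (hu : ‖u‖ = 1) {ε : ℝ} (hε : 0 < ε) :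
    ∃ k : ℕ, ‖u - t ^ k‖ < ε := by
  let e := AddCircle.homeomorphCircle (T := 1) one_ne_zero
  obtain ⟨a, ha⟩ := e.surjective ⟨t, mem_sphere_zero_iff_norm.2 h1⟩
  have he : ∀ k : ℕ, (e (k • a) : ℂ) = t ^ k := fun k => by
    rw [AddCircle.homeomorphCircle_apply] at ha ⊢
    rw [AddCircle.toCircle_nsmul, ha]
    rfl
  have hd : DenseRange fun k : ℕ => k • a := denseRange_zsmul_iff_nsmul.1
    (AddCircle.denseRange_zsmul_iff.2 (addOrderOf_eq_zero_iff'.2 fun k hk z => by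
      obtain ⟨k, rfl⟩ := Nat.exists_eq_add_one.2 hk
      refine hn k ?_
      rw [← he, z, AddCircle.homeomorphCircle_apply, AddCircle.toCircle_zero, Circle.coe_one]))
  obtain ⟨k, hk⟩ := (e.surjective.denseRange.comp hd e.continuous).exists_dist_lt
    ⟨u, mem_sphere_zero_iff_norm.2 hu⟩ hε
  exact ⟨k, by rw [← he, ← dist_eq_norm]; exact hk⟩

theorem ju2_glue {f : ℂ → ℂ} {δ : ℝ} (hR : 0 < R) (hδ : 0 < δ)
    (hf : DifferentiableOn ℂ f (ball 0 R))
    (H : ∀ z : ℂ, R ≤ ‖z‖ → ‖z‖ < R + δ → ∃ g : ℂ → ℂ, DifferentiableOn ℂ g (ball z (2 * δ)) ∧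
      ∀ w ∈ ball z (2 * δ), ‖w‖ < R → g w = f w) :
    ∃ G : ℂ → ℂ, DifferentiableOn ℂ G (ball 0 (R + δ)) ∧ ∀ w, ‖w‖ < R → G w = f w := by
  choose! g gd ge using H
  refine ⟨fun z => if ‖z‖ < R then f z else g z z, fun z hz => ?_, fun w hw => if_pos hw⟩
  refine DifferentiableAt.differentiableWithinAt ?_
  have hz' := mem_ball_zero_iff.1 hz
  rcases lt_or_ge ‖z‖ R with l | l
  · have m := isOpen_ball.mem_nhds (mem_ball_zero_iff.2 l)
    exact (hf.differentiableAt m).congr_of_eventuallyEq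
      (mem_of_superset m fun w hw => if_pos (mem_ball_zero_iff.1 hw))
  have s : ball z δ ⊆ ball z (2 * δ) := ball_subset_ball (by linarith)
  refine ((gd z l hz').differentiableAt (ball_mem_nhds z (by linarith))).congr_of_eventuallyEq ?_
  filter_upwards [ball_mem_nhds z hδ, isOpen_ball.mem_nhds hz] with w hw hw'
  split_ifs with c
  · exact (ge z l hz' w (s hw) c).symm
  have s' : ball z δ ⊆ ball w (2 * δ) := ball_subset_ball' (by
    linarith [dist_comm z w, mem_ball.1 hw])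
  obtain ⟨u, u1, u2⟩ := exists_dist_lt_lt hδ hR (mem_ball.1 hz)
  have c' := not_lt.1 c
  have w' := mem_ball_zero_iff.1 hw'
  refine (((gd w c' w').mono s').analyticOnNhd isOpen_ball).eqOn_of_preconnected_of_eventuallyEq
    (((gd z l hz').mono s).analyticOnNhd isOpen_ball) (convex_ball _ _).isPreconnected
    (mem_ball'.2 u1) ?_ hw
  filter_upwards [isOpen_ball.mem_nhds (mem_ball'.2 u1), isOpen_ball.mem_nhds (mem_ball.2 u2)]
    with v v1 v2
  rw [ge w c' w' v (s' v1) (mem_ball_zero_iff.1 v2), ge z l hz' v (s v1) (mem_ball_zero_iff.1 v2)]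

theorem ju2_fe (h1 : ‖t‖ = 1) (hn : NR t) (h : Cv (ps t) R) {z : ℂ} (hz : ‖z‖ < R) (k : ℕ) :
    (fm t)^[k] (Sr (ps t) z) = Sr (ps t) (t ^ k * z) := by
  induction k with
  | zero => simp
  | succ k ih =>
    rw [Function.iterate_succ_apply', ih, fe (norm_pos_iff.1 (h1 ▸ one_pos)) h1.le hn h
      (by simpa [h1] using hz), pow_succ', mul_assoc]

theorem ju2_iter (t : ℂ) (k : ℕ) : Differentiable ℂ (fm t)^[k] :=
  Differentiable.iterate (by unfold fm; fun_prop) k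

theorem ju1_mean {a : ℕ → ℂ} {B : ℝ} (h0 : 0 ≤ B) (N : ℕ) (h : ∀ K, ‖a K‖ ≤ B) :
    ‖(∑ K ∈ range N, a K) / N‖ ≤ B := by
  rw [norm_div, Complex.norm_natCast]
  refine div_le_of_le_mul₀ N.cast_nonneg h0 ((norm_sum_le_of_le _ fun K _ => h K).trans_eq ?_)
  rw [sum_const, card_range, nsmul_eq_mul, mul_comm]

theorem ju1_geom {q : ℂ} (h1 : ‖q‖ = 1) (h : q ≠ 1) :
    Tendsto (fun N : ℕ => (∑ K ∈ range N, q ^ (K + 1)) / N) atTop (𝓝 0) := by
  refine squeeze_zero_norm (fun N => ?_) (tendsto_const_div_atTop_nhds_zero_nat (2 / ‖q - 1‖))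
  simp only [pow_succ, ← sum_mul, geom_sum_eq h, norm_div, norm_mul, h1, mul_one,
    Complex.norm_natCast]
  gcongr
  exact (norm_sub_le _ _).trans_eq (by rw [norm_pow, h1, one_pow, norm_one, one_add_one_eq_two])

theorem ch_tendsto (h1 : ‖t‖ = 1) (hn : NR t) (h : Cv (ps t) R) {z : ℂ} (hz : ‖z‖ < R) :
    Tendsto (fun N => ch t N (Sr (ps t) z)) atTop (𝓝 z) := by
  have t0 : t ≠ 0 := norm_pos_iff.1 (h1 ▸ one_pos)
  have e : ∀ N : ℕ, ch t N (Sr (ps t) z) =
      ∑' j, (∑ K ∈ range N, (t ^ (K + 1))⁻¹ * (ps t j * (t ^ (K + 1) * z) ^ j)) / N := fun N => by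
    simp only [ch, ju2_fe h1 hn h hz]
    exact ((hasSum_sum fun K _ => (h.summable (z := t ^ (K + 1) * z)
      (by simpa [h1] using hz)).hasSum.mul_left _).div_const _).tsum_eq.symm
  simp only [e]
  refine (tendsto_tsum_of_dominated_convergence (h.sumn hz) (fun j => ?_)
    (Eventually.of_forall fun N j => ju1_mean (norm_nonneg _) N fun K => by simp [h1])).trans_eq
    (congrArg _ (tsum_ite_eq 1 fun _ : ℕ => z))
  rcases j with _ | _ | j
  · simp [ps_zero]
  · refine tendsto_const_nhds.congr' ((eventually_gt_atTop 0).mono fun N hN => ?_)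
    simp [ps_one, t0, hN.ne']
  · have := (ju1_geom (q := t ^ (j + 1)) (by simp [h1]) (hn j)).const_mul (ps t (j + 2) * z ^ (j + 2))
    rw [mul_zero] at this
    rw [if_neg (by omega)]
    refine this.congr fun N => ?_
    rw [← mul_div_assoc, mul_sum]
    refine congrArg (· / (N : ℂ)) (sum_congr rfl fun K _ => ?_)
    field_simp
    ring

/-- An extension across one boundary point gives a larger disc of convergence. -/
theorem extend (h1 : ‖t‖ = 1) (hn : NR t) (h : Cv (ps t) R) (hR : 0 < R) {ξ : ℂ} (hξ : ‖ξ‖ = R)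
    {σ : ℝ} (hσ : 0 < σ) {Y : ℂ → ℂ} (hY : DifferentiableOn ℂ Y (ball ξ σ))
    (e : ∀ z ∈ ball ξ σ, ‖z‖ < R → Y z = Sr (ps t) z) : ∃ ρ, R < ρ ∧ Bd (ps t) ρ := by
  have t0 : ∀ k : ℕ, t ^ k ≠ 0 := fun k => pow_ne_zero k (norm_pos_iff.1 (h1 ▸ one_pos))
  obtain ⟨G, Gd, Ge⟩ := ju2_glue hR (δ := σ / 4) (by linarith) h.diffOn fun z z1 z2 => by
    have z0 : 0 < ‖z‖ := hR.trans_le z1
    have x0 : ξ ≠ 0 := norm_pos_iff.1 (hξ ▸ hR)
    obtain ⟨k, hk⟩ := ju2_dense h1 hn (u := (R / ‖z‖ : ℝ) * z / ξ)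
      (by rw [norm_div, norm_mul, norm_real, Real.norm_of_nonneg (by positivity), hξ]; field_simp)
      (ε := σ / 4 / R) (by positivity)
    have a1 : ‖(R / ‖z‖ : ℝ) * z - t ^ k * ξ‖ < σ / 4 := by
      rw [lt_div_iff₀ hR, ← hξ, ← norm_mul, sub_mul, div_mul_cancel₀ _ x0, hξ] at hk
      exact hk
    have a2 : ‖z - (R / ‖z‖ : ℝ) * z‖ = ‖z‖ - R := by
      rw [← one_sub_mul, ← ofReal_one, ← ofReal_sub, norm_mul, norm_real,
        Real.norm_of_nonneg (sub_nonneg.2 (div_le_one_of_le₀ z1 z0.le))]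
      field_simp
    have m : ∀ w ∈ ball z (2 * (σ / 4)), w / t ^ k ∈ ball ξ σ := fun w hw => by
      rw [mem_ball, dist_eq_norm] at hw ⊢
      rw [div_sub' (t0 k), norm_div, norm_pow, h1, one_pow, div_one]
      linarith [norm_sub_le_norm_sub_add_norm_sub w z (t ^ k * ξ),
        norm_sub_le_norm_sub_add_norm_sub z ((R / ‖z‖ : ℝ) * z) (t ^ k * ξ)]
    refine ⟨fun w => (fm t)^[k] (Y (w / t ^ k)), (ju2_iter t k).comp_differentiableOn
      (hY.comp (by fun_prop) m), fun w hw c => ?_⟩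
    have c' : ‖w / t ^ k‖ < R := by simpa [h1] using c
    beta_reduce
    rw [e _ (m w hw) c', ju2_fe h1 hn h c', mul_div_cancel₀ _ (t0 k)]
  have := (taylor Gd).1 (R + σ / 8) (by linarith) (by linarith)
  rw [co_eq h hR (mem_of_superset (ball_mem_nhds 0 hR) fun w hw =>
    Ge w (mem_ball_zero_iff.1 hw))] at this
  exact ⟨_, by linarith, this⟩

/-- A holomorphic left inverse near a boundary point gives an extension. -/
theorem inv_ext {c : ℕ → ℂ} (h : Cv c R) {x : ℂ} {r : ℝ} (hr : 0 < r) {X : ℂ → ℂ}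
    (hX : DifferentiableOn ℂ X (ball x r))
    (e : ∀ z : ℂ, ‖z‖ < R → Sr c z ∈ ball x r → X (Sr c z) = z) {ζ : ℕ → ℂ} (hζ : ∀ i, ‖ζ i‖ < R)
    (l1 : Tendsto (fun i => ‖ζ i‖) atTop (𝓝 R)) (l2 : Tendsto (fun i => Sr c (ζ i)) atTop (𝓝 x)) :
    ∃ (ξ : ℂ) (σ : ℝ) (Y : ℂ → ℂ), ‖ξ‖ = R ∧ 0 < σ ∧ DifferentiableOn ℂ Y (ball ξ σ) ∧
      ∀ z ∈ ball ξ σ, ‖z‖ < R → Y z = Sr c z := by
  have Xa := hX.analyticOnNhd isOpen_ball
  have Sa : ∀ z : ℂ, ‖z‖ < R → AnalyticAt ℂ (Sr c) z := fun z hz =>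
    h.diffOn.analyticOnNhd isOpen_ball z (mem_ball_zero_iff.2 hz)
  have ev : ∀ z : ℂ, ‖z‖ < R → ∀ V ∈ 𝓝 (Sr c z), ∀ᶠ w in 𝓝 z, ‖w‖ < R ∧ Sr c w ∈ V :=
    fun z hz V hV => (continuous_norm.continuousAt.eventually_lt continuousAt_const hz).and
      ((Sa z hz).continuousAt hV)
  have dv : ∀ z : ℂ, ‖z‖ < R → Sr c z ∈ ball x r → deriv X (Sr c z) * deriv (Sr c) z = 1 :=
    fun z hz hb => by
      rw [← deriv_comp z (Xa _ hb).differentiableAt (Sa z hz).differentiableAt, ← deriv_id z]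
      exact Filter.EventuallyEq.deriv_eq
        ((ev z hz _ (isOpen_ball.mem_nhds hb)).mono fun w hw => e w hw.1 hw.2)
  set A : Set ℂ := {w | w ∈ ball x r ∧ ∃ z : ℂ, ‖z‖ < R ∧ Sr c z = w}
  have Ao : IsOpen A := isOpen_iff_mem_nhds.2 <| by
    rintro _ ⟨hb, z, hz, rfl⟩
    rw [← (Sa z hz).hasStrictDerivAt.map_nhds_eq (right_ne_zero_of_mul_eq_one (dv z hz hb))]
    exact (ev z hz _ (isOpen_ball.mem_nhds hb)).mono fun w hw => ⟨hw.2, w, hw.1, rfl⟩
  have AX : ∀ w ∈ A, ‖X w‖ < R ∧ Sr c (X w) = w := by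
    rintro _ ⟨hb, z, hz, rfl⟩
    rw [e z hz hb]
    exact ⟨hz, rfl⟩
  have l3 := l2.eventually (ball_mem_nhds x hr)
  have x0 : ‖X x‖ = R := tendsto_nhds_unique
    ((Xa x (mem_ball_self hr)).continuousAt.tendsto.comp l2).norm
    (l1.congr' (l3.mono fun i hi => congrArg norm (e _ (hζ i) hi).symm))
  have d0 : ∀ᶠ w in 𝓝[≠] x, deriv X w ≠ 0 := by
    refine (Xa x (mem_ball_self hr)).deriv.eventually_eq_zero_or_eventually_ne_zero.resolve_left
      fun a => ?_
    obtain ⟨i, h1, h2⟩ := ((l2.eventually a).and l3).exists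
    exact left_ne_zero_of_mul_eq_one (dv _ (hζ i) h2) h1
  obtain ⟨ε, ε0, hε⟩ := Metric.eventually_nhds_iff.1 (eventually_nhdsWithin_iff.1 d0)
  obtain ⟨i, h1, h2⟩ := ((l2.eventually (ball_mem_nhds x ε0)).and l3).exists
  have iA : Sr c (ζ i) ∈ A := ⟨h2, _, hζ i, rfl⟩
  have p0 : 0 < dist (Sr c (ζ i)) x := dist_pos.2 fun a => (AX _ (a ▸ iA)).1.ne x0
  have cb := closedBall_subset_ball (x := x) (mem_ball.1 h2)
  obtain ⟨y, ⟨y1, y2⟩, y3⟩ := Set.not_subset.1 fun a => by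
    have b := (isPreconnected_sphere (by simp) x _).subset_of_closure_inter_subset Ao
      ⟨_, mem_sphere.2 rfl, iA⟩ a
    obtain ⟨z, z1, z2⟩ := exists_mem_frontier_isMaxOn_norm isBounded_ball ⟨x, mem_ball_self p0⟩
      (hX.mono (closure_ball_subset_closedBall.trans cb)).diffContOnCl
    exact (x0.ge.trans (z2 (subset_closure (mem_ball_self p0)))).not_gt
      (AX z (b (frontier_ball_subset_sphere z1))).1
  have yb := cb (sphere_subset_closedBall y2)
  have yc := (Xa y yb).continuousAt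
  have yf := mem_closure_iff_frequently.1 y1
  have y0 : ‖X y‖ = R := by
    refine (isClosed_Iic.mem_of_frequently_of_tendsto (yf.mono fun w hw => (AX w hw).1.le)
      yc.norm.tendsto).eq_of_not_lt fun a => y3 ⟨yb, _, a, ?_⟩
    exact tendsto_nhds_unique_of_frequently_eq ((Sa _ a).continuousAt.tendsto.comp yc.tendsto)
      tendsto_id (yf.mono fun w hw => (AX w hw).2)
  have yd : deriv X y ≠ 0 := hε ((mem_sphere.1 y2).trans_lt h1) fun a =>
    p0.ne' (by rw [← mem_sphere.1 y2, a, dist_self])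
  obtain ⟨σ, σ0, hσ⟩ := ((Xa y yb).analyticAt_localInverse yd).exists_ball_analyticOnNhd
  refine ⟨_, σ, _, y0, σ0, hσ.differentiableOn, fun z z1 z2 => ?_⟩
  obtain ⟨w, w1, w2, w3⟩ := (yf.and_eventually
    (((Xa y yb).hasStrictDerivAt.eventually_left_inverse yd).eventually_nhds.and
      (yc (ball_mem_nhds _ σ0)))).exists
  refine (hσ.mono Set.inter_subset_left).eqOn_of_preconnected_of_eventuallyEq (U := _ ∩ ball 0 R)
    (fun v hv => Sa v (mem_ball_zero_iff.1 hv.2))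
    ((convex_ball _ _).inter (convex_ball _ _)).isPreconnected
    ⟨w3, mem_ball_zero_iff.2 (AX w w1).1⟩ ?_ ⟨z1, mem_ball_zero_iff.2 z2⟩
  refine (ev _ (AX w w1).1 _ ((AX w w1).2.symm ▸ inter_mem w2 (isOpen_ball.mem_nhds w1.1))).mono
    fun v hv => ?_
  rw [← hv.2.1, e v hv.1 hv.2.2]

/-- Bounded averages give a left inverse. -/
theorem left_inv (h1 : ‖t‖ = 1) (hn : NR t) (h : Cv (ps t) R) {z₀ : ℂ} (hz : ‖z₀‖ < R) {r c : ℝ}
    (hr : 0 < r) (hb : ∃ᶠ N in atTop, ∀ p ∈ closedBall (Sr (ps t) z₀) r, uu N t p ≤ c) :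
    ∃ X : ℂ → ℂ, DifferentiableOn ℂ X (ball (Sr (ps t) z₀) r) ∧
      ∀ z : ℂ, ‖z‖ < R → Sr (ps t) z ∈ ball (Sr (ps t) z₀) r → X (Sr (ps t) z) = z := by
  set b := Sr (ps t) z₀ with hb0
  let g : ℕ → ℂ → ℂ := fun K w => (fm t)^[K + 1] (b + w) - (fm t)^[K + 1] b
  have gd : ∀ K, Differentiable ℂ (g K) := fun K =>
    ((ju2_iter t (K + 1)).comp (by fun_prop)).sub_const _
  let a : ℕ → ℕ → ℂ := fun N k => (∑ K ∈ range N, (t ^ (K + 1))⁻¹ * co (g K) k) / N
  obtain ⟨L, hL⟩ : ∃ L, ∀ K, ‖(fm t)^[K] b‖ ≤ L := ⟨_, fun K => by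
    rw [hb0, ju2_fe h1 hn h hz]
    exact tsum_of_norm_bounded (h.sumn hz).hasSum fun j => by simp [h1]⟩
  have L0 : 0 ≤ L := (norm_nonneg _).trans (hL 0)
  obtain ⟨U, hU⟩ := @exists_ultrafilter_le _ _
    (frequently_iff_neBot.1 (hb.and_eventually (eventually_gt_atTop 0)))
  have ab : ∀ᶠ N in U, ∀ k, ‖a N k‖ * r ^ k ≤ 4 * (c + L) := by
    refine mem_of_superset (le_principal_iff.1 (hU.trans inf_le_right)) fun N hN k => ?_
    have N0 : (0 : ℝ) < N := Nat.cast_pos.2 hN.2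
    have ci : ∀ K, Continuous fun w => max (g K w).re 0 := fun K =>
      (continuous_re.comp (gd K).continuous).max continuous_const
    have e1 : ∑ K ∈ range N, posAvg (g K) r ≤ (c + L) * N := by
      simp only [posAvg]
      rw [← circleAverage_fun_sum fun K _ => (ci K).continuousOn.circleIntegrable']
      refine circleAverage_mono_on_of_le_circle
        (continuous_finsetSum _ fun K _ => ci K).continuousOn.circleIntegrable' fun w hw => ?_
      have e2 := (div_le_iff₀ N0).1 (hN.1 (b + w) (by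
        simpa [abs_of_pos hr] using (mem_sphere_zero_iff_norm.1 hw).le))
      have e3 : ∑ K ∈ range N, max (g K w).re 0 ≤
          ∑ K ∈ range N, (max ((fm t)^[K + 1] (b + w)).re 0 + L) := sum_le_sum fun K _ =>
        max_le (by
          have := (abs_le.1 ((abs_re_le_norm _).trans (hL (K + 1)))).1
          simp only [g, sub_re]
          linarith [le_max_left ((fm t)^[K + 1] (b + w)).re 0])
          (add_nonneg (le_max_right _ _) L0)
      rw [sum_add_distrib, sum_const, card_range, nsmul_eq_mul] at e3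
      linarith
    have e4 : ‖∑ K ∈ range N, (t ^ (K + 1))⁻¹ * co (g K) k‖ * r ^ k ≤
        4 * ∑ K ∈ range N, posAvg (g K) r := by
      refine (mul_le_mul_of_nonneg_right (norm_sum_le _ _) (pow_nonneg hr.le k)).trans ?_
      rw [sum_mul, mul_sum]
      refine sum_le_sum fun K _ => ?_
      rw [norm_mul, norm_inv, norm_pow, h1, one_pow, inv_one, one_mul]
      exact coeff_le hr (gd K).diffContOnCl (by simp [g]) k
    rw [norm_div, Complex.norm_natCast, div_mul_eq_mul_div, div_le_iff₀ N0]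
    linarith
  choose A hA hl using fun k => (isCompact_closedBall (0 : ℂ) (4 * (c + L) / r ^ k)).ultrafilter_le_nhds
    (U.map fun N => a N k) (le_principal_iff.2 (ab.mono fun N hN =>
      mem_closedBall_zero_iff.2 ((le_div_iff₀ (pow_pos hr k)).2 (hN k))))
  have cv : Cv A r := Bd.cv ⟨_, fun k =>
    (le_div_iff₀ (pow_pos hr k)).1 (mem_closedBall_zero_iff.1 (hA k))⟩
  refine ⟨fun w => z₀ + Sr A (w - b), (cv.diffOn.comp (by fun_prop) fun w hw => by
    simpa [dist_eq_norm] using hw).const_add _, fun z h2 h3 => ?_⟩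
  set w := Sr (ps t) z - b with hw
  have w1 : ‖w‖ < r := mem_ball_iff_norm.1 h3
  have l1 : Tendsto (fun N => Sr (a N) w) U (𝓝 (Sr A w)) :=
    tendsto_tsum_of_dominated_convergence
      ((summable_geometric_of_lt_one (div_nonneg (norm_nonneg w) hr.le)
        ((div_lt_one hr).2 w1)).mul_left (4 * (c + L)))
      (fun k => Tendsto.mul_const _ (hl k)) (ab.mono fun N hN k => by
        calc ‖a N k * w ^ k‖ = ‖a N k‖ * r ^ k * (‖w‖ / r) ^ k := by
              rw [norm_mul, norm_pow, div_pow]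
              field_simp
          _ ≤ _ := mul_le_mul_of_nonneg_right (hN k) (by positivity))
  have e : ∀ N, Sr (a N) w = ch t N (Sr (ps t) z) - ch t N b := fun N => by
    have k : ∀ K, HasSum (fun j => co (g K) j * w ^ j) (g K w) := fun K => by
      have := taylor (R := r) (gd K).differentiableOn
      rw [← this.2 w (mem_ball_zero_iff.2 w1)]
      exact (this.1.summable w1).hasSum
    have := ((hasSum_sum fun K (_ : K ∈ range N) =>
      (k K).mul_left (t ^ (K + 1))⁻¹).div_const (N : ℂ)).tsum_eq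
    simp only [← mul_assoc, ← sum_mul, ← div_mul_eq_mul_div] at this
    rw [ch, ch, ← sub_div, ← sum_sub_distrib]
    refine this.trans ?_
    simp only [g, hw, add_sub_cancel, mul_sub]
  simp only [e] at l1
  have l2 := ((ch_tendsto h1 hn h h2).sub (ch_tendsto h1 hn h hz)).mono_left
    (hU.trans inf_le_left)
  beta_reduce
  rw [tendsto_nhds_unique l1 l2, add_sub_cancel]

theorem julia (h1 : ‖t‖ = 1) (hn : NR t) (h : Cv (ps t) R) (hR : 0 < R)
    (hm : ∀ ρ, R < ρ → ¬ Bd (ps t) ρ) (L c : ℝ) {η : ℝ} (hη : 0 < η) :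
    ∃ R' < R, ∀ᶠ N in atTop, ∀ z : ℂ, R' ≤ ‖z‖ → ‖z‖ < R → ‖Sr (ps t) z‖ ≤ L →
      ∃ p ∈ ball (Sr (ps t) z) η, c < uu N t p := by
  by_contra a
  have b : ∀ i : ℕ, ∃ N ≥ i, ∃ z : ℂ, R - 1 / (i + 1) ≤ ‖z‖ ∧ ‖z‖ < R ∧ ‖Sr (ps t) z‖ ≤ L ∧
      ∀ p ∈ ball (Sr (ps t) z) η, uu N t p ≤ c := fun i => by
    have := not_eventually.1 fun d => a ⟨_, sub_lt_self R (Nat.one_div_pos_of_nat (n := i)), d⟩
    simpa only [not_forall, not_exists, not_and, not_lt, exists_prop] using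
      frequently_atTop.1 this i
  choose N hN z z1 z2 z3 z4 using b
  obtain ⟨x, -, φ, hφ, l⟩ := (isCompact_closedBall (0 : ℂ) L).tendsto_subseq
    fun i => mem_closedBall_zero_iff.2 (z3 i)
  obtain ⟨j, hj⟩ := Metric.tendsto_atTop.1 l (η / 10) (by positivity)
  obtain ⟨X, Xd, Xe⟩ := left_inv h1 hn h (z2 (φ j)) (r := η / 2) (c := c) (by positivity)
    (frequently_atTop.2 fun M => ⟨N (φ (max j M)),
      (le_max_right _ _).trans ((hφ.id_le _).trans (hN _)), fun p hp => z4 _ p (by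
        have h2 := hj j le_rfl
        have h3 := hj _ (le_max_left j M)
        rw [mem_closedBall] at hp
        rw [mem_ball]
        linarith [dist_triangle_right (Sr (ps t) (z (φ j))) (Sr (ps t) (z (φ (max j M)))) x,
          dist_triangle p (Sr (ps t) (z (φ j))) (Sr (ps t) (z (φ (max j M)))),
          Function.comp_apply ▸ h2, Function.comp_apply ▸ h3])⟩)
  have s : ball x (η / 10) ⊆ ball (Sr (ps t) (z (φ j))) (η / 2) := ball_subset_ball' (by
    have h2 : dist (Sr (ps t) (z (φ j))) x < η / 10 := hj j le_rfl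
    linarith [dist_comm x (Sr (ps t) (z (φ j)))])
  have l1 : Tendsto (fun i => ‖z i‖) atTop (𝓝 R) :=
    tendsto_of_tendsto_of_tendsto_of_le_of_le
      (by simpa using tendsto_one_div_add_atTop_nhds_zero_nat.const_sub R) tendsto_const_nhds z1
      fun i => (z2 i).le
  obtain ⟨ξ, σ, Y, y1, y2, y3, y4⟩ := inv_ext h (by positivity) (Xd.mono s)
    (fun w hw hb => Xe w hw (s hb)) (fun i => z2 (φ i)) (l1.comp hφ.tendsto_atTop) l
  obtain ⟨ρ, r1, r2⟩ := extend h1 hn h hR y1 y2 y3 y4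
  exact hm ρ r1 r2

end Pool.Agent.Lib.MP_f36384_an
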