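import Pool.Agent.Lib.MP_f36384_an.N.S0

/-! The normalised lineariser in the annulus. -/

namespace Pool.Agent.Lib.MP_f36384_an

open Real Metric Complex Filter Topology Finset

/-- `W n t / t ^ (n + 1)` as an entire function. -/
noncomputable def Kn : ℕ → ℂ → ℂ
  | 0, _ => -1
  | n + 1, t => Kn n t * dslope Complex.exp 0 (t ^ (n + 1) * Kn n t)

/-- The limit of `W n t / t ^ (n + 1)`. -/
noncomputable def hh (t : ℂ) : ℂ := limUnder atTop fun n => Kn n t

/-- The coefficients of the normalised lineariser. -/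
noncomputable def hj (t : ℂ) (j : ℕ) : ℂ := ps t j * hh t ^ j

variable {R : ℝ} {z t : ℂ}

theorem li_cat (h : ‖t‖ < 1) (j : ℕ) : ‖ps t (j + 1)‖ * (1 - ‖t‖) ^ j ≤ catalan j := by
  induction j using Nat.strong_induction_on with
  | _ j ih =>
  obtain _ | j := j
  · simp [ps_one]
  have s0 : 0 < 1 - ‖t‖ := by linarith
  have tp : ∀ k, ‖t‖ ^ k ≤ 1 := fun k => pow_le_one₀ (norm_nonneg t) h.le
  have d : 1 - ‖t‖ ≤ ‖t ^ (j + 1) - 1‖ := by
    have := norm_sub_norm_le 1 (t ^ (j + 1))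
    rw [norm_sub_rev, norm_one, norm_pow, pow_succ ‖t‖] at this
    linarith [mul_le_mul_of_nonneg_right (tp j) (norm_nonneg t)]
  have n : ‖(j + 2 : ℂ)‖ = j + 2 := by exact_mod_cast Complex.norm_natCast (j + 2)
  rw [ps_rec, norm_div, norm_mul, n, div_mul_eq_mul_div,
    div_le_iff₀ (mul_pos (by positivity) (s0.trans_le d)), catalan_succ',
    Nat.sum_antidiagonal_eq_sum_range_succ (fun x y => catalan x * catalan y), Nat.cast_sum,
    sum_mul]
  refine (mul_le_mul_of_nonneg_right (norm_sum_le _ _) (by positivity)).trans ?_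
  rw [sum_mul]
  refine sum_le_sum fun i hi => ?_
  obtain ⟨k, rfl⟩ := Nat.exists_eq_add_of_le (Nat.lt_succ_iff.1 (mem_range.1 hi))
  have n' : ‖(i + 1 : ℂ)‖ = i + 1 := by exact_mod_cast Complex.norm_natCast (i + 1)
  have k1 := mul_le_mul (ih i (by omega)) (ih k (by omega)) (by positivity) (by positivity)
  rw [show i + k + 1 - i = k + 1 by omega, Nat.add_sub_cancel_left, norm_mul, norm_mul, norm_mul,
    n', norm_pow, Nat.cast_mul]
  calc _ = ‖ps t (i + 1)‖ * (1 - ‖t‖) ^ i * (‖ps t (k + 1)‖ * (1 - ‖t‖) ^ k) *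
        ((i + 1) * ‖t‖ ^ k * (1 - ‖t‖)) := by ring
    _ ≤ _ := by
      refine mul_le_mul k1 (mul_le_mul ?_ d s0.le (by positivity)) (by positivity) (by positivity)
      refine (mul_le_of_le_one_right (by positivity) (tp k)).trans ?_
      push_cast
      linarith [Nat.cast_nonneg (α := ℝ) k]

theorem bd_small (h : ‖t‖ < 1) : Bd (ps t) ((1 - ‖t‖) / 4) := by
  refine ⟨1, fun j => ?_⟩
  obtain _ | j := j
  · simp [ps_zero]
  have k := (li_cat h j).trans (show (catalan j : ℝ) ≤ 4 ^ j by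
    exact_mod_cast (catalan_eq_centralBinom_div j).trans_le
      ((Nat.div_le_self _ _).trans j.centralBinom_le_four_pow))
  have := norm_nonneg t
  rw [div_pow, ← mul_div_assoc, div_le_one (by positivity), pow_succ, pow_succ, ← mul_assoc]
  exact mul_le_mul k (by linarith) (by linarith) (by positivity)

theorem li_exp (ht : An t) (h : Cv (ps t) R) (hz : ‖z‖ < R) :
    Complex.exp (Sr (ps t) z) = 1 + Sr (ps t) (t * z) / t := by
  rw [← fe ht.ne ht.2.le (nr_of_lt ht.2) h hz, fm, mul_div_cancel_left₀ _ ht.ne, add_sub_cancel]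

theorem ten (ht : An t) (h : Cv (ps t) R) (hR : 0 < R) (j : ℕ) : ‖ps t j‖ * R ^ j ≤ 10 := by
  have tp : ∀ k, ‖t‖ ^ k ≤ 1 := fun k => pow_le_one₀ (norm_nonneg t) ht.2.le
  have mem : ∀ k z, ‖z‖ < R → ‖t ^ k * z‖ < R := fun k z hz => by
    rw [norm_mul, norm_pow]
    exact (mul_le_of_le_one_left (norm_nonneg z) (tp k)).trans_lt hz
  have dV : ∀ k, DifferentiableOn ℂ (fun z => Sr (ps t) (t ^ k * z)) (ball 0 R) := fun k =>
    h.diffOn.comp (by fun_prop) fun z hz =>
      mem_ball_zero_iff.2 (mem k z (mem_ball_zero_iff.1 hz))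
  obtain ⟨δ, hδ, small⟩ := Metric.continuousAt_iff.1
    (h.diffOn.continuousOn.continuousAt (ball_mem_nhds _ hR)) (5 / 2) (by norm_num)
  obtain ⟨N, hN⟩ := exists_pow_lt_of_lt_one (div_pos hδ hR) ht.2
  have key : ∀ i m : ℕ, N ≤ m + i → ∀ r : ℝ, 0 < r → r < R →
      posAvg (fun z => Sr (ps t) (t ^ m * z)) r ≤ 5 / 2 := by
    intro i
    induction i with
    | zero =>
      intro m hm r h1 h2
      refine circleAverage_mono_on_of_le_circle ((continuous_re.max continuous_const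
        |>.comp_continuousOn (cont_sphere h1 (diffCl (dV m) h2))).circleIntegrable') fun z hz => ?_
      have e : ‖z‖ = r := by simpa [abs_of_pos h1] using hz
      have := small (x := t ^ m * z) (by
        rw [dist_zero_right, norm_mul, norm_pow, e]
        exact (mul_le_mul (pow_le_pow_of_le_one (norm_nonneg t) ht.2.le hm) h2.le h1.le
          (by positivity)).trans_lt ((lt_div_iff₀ hR).1 hN))
      rw [Sr_zero, ps_zero, dist_zero_right] at this
      exact max_le ((Complex.re_le_norm _).trans this.le) (by norm_num)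
    | succ i ih =>
      intro m hm r h1 h2
      obtain ⟨r', h3, h4⟩ := exists_between h2
      refine step (τ := fun _ => t) h1 h3 (diffCl (dV m) h2) (diffCl (dV (m + 1)) h4)
        (by simp [Sr_zero, ps_zero]) (ih (m + 1) (by omega) r' (h1.trans h3) h4) fun z hz =>
          ⟨ht.1, ?_⟩
      rw [li_exp ht h (mem m z ((mem_sphere_zero_iff_norm.1 hz).trans_lt h2)), pow_succ',
        mul_assoc]
  have h1 : ∀ r, 0 < r → r < R → ‖ps t j‖ * r ^ j ≤ 10 := fun r h1 h2 => by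
    have := coeff_le h1 (diffCl (dV 0) h2) (by simp [Sr_zero, ps_zero]) j
    have e := congrFun (co_eq (g := fun z => Sr (ps t) (t ^ 0 * z)) h hR
      (.of_forall fun z => by simp)) j
    rw [co] at e
    rw [e] at this
    linarith [key N 0 (by omega) r h1 h2]
  have h2 : Tendsto (fun r : ℝ => ‖ps t j‖ * r ^ j) (𝓝[<] R) (𝓝 (‖ps t j‖ * R ^ j)) :=
    ((continuous_const.mul (continuous_pow j)).tendsto R).mono_left nhdsWithin_le_nhds
  refine le_of_tendsto h2 ?_
  filter_upwards [Ioo_mem_nhdsLT hR] with r hr using h1 r hr.1 hr.2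

theorem exists_h (ht : An t) : ∃ h : ℂ, Cv (ps t) ‖h‖ ∧ Sr (ps t) (t * h) = -t := by
  let S := {ρ : ℝ | 0 ≤ ρ ∧ Bd (ps t) ρ}
  have s0 : 0 < (1 - ‖t‖) / 4 := by linarith [ht.2]
  have m0 : (1 - ‖t‖) / 4 ∈ S := ⟨s0.le, bd_small ht.2⟩
  have bd : BddAbove S := ⟨10, fun ρ hρ => by
    rcases hρ.1.eq_or_lt with rfl | h
    · norm_num
    · simpa [ps_one] using ten ht hρ.2.cv h 1⟩
  have R0 : 0 < sSup S := s0.trans_le (le_csSup bd m0)
  have cv : Cv (ps t) (sSup S) := fun ρ h0 h1 => by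
    obtain ⟨ρ', h2, h3⟩ := exists_lt_of_lt_csSup ⟨_, m0⟩ h1
    exact h2.2.mono h0 h3.le
  have up : ∀ ρ ∈ S, ρ ≤ sSup S := fun ρ => le_csSup bd
  generalize sSup S = R at R0 cv up
  have t0 : 0 < ‖t‖ := norm_pos_iff.2 ht.ne
  obtain ⟨ρ₁, h1, h2⟩ := exists_between ((lt_div_iff₀ t0).2 (mul_lt_of_lt_one_right R0 ht.2))
  have dV : DifferentiableOn ℂ (fun z => Sr (ps t) (t * z)) (closedBall 0 ρ₁) :=
    cv.diffOn.comp (by fun_prop) fun z hz => by
      rw [mem_ball_zero_iff, norm_mul, mul_comm]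
      exact (mul_le_mul_of_nonneg_right (mem_closedBall_zero_iff.1 hz) t0.le).trans_lt
        ((lt_div_iff₀ t0).1 h2)
  have ex : ∀ ρ, R < ρ → ρ ≤ ρ₁ → ∃ h : ℂ, ‖h‖ < ρ ∧ Sr (ps t) (t * h) = -t := by
    intro ρ h3 h4
    by_contra! hn
    obtain ⟨G, Gd, G0, -, Ge⟩ := exists_log (R0.trans h3) (((dV.mono (ball_subset_closedBall.trans
      (closedBall_subset_closedBall h4))).div_const t).const_add 1) (fun w hw e =>
        hn w (mem_ball_zero_iff.1 hw) (by
          have := ht.ne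
          field_simp at e
          linear_combination e)) (by simp [Sr_zero, ps_zero])
    have e := eq_of_exp (Gd.mono (ball_subset_ball h3.le)) cv.diffOn
      (by rw [G0, Sr_zero, ps_zero]) fun w hw => by
        rw [Ge w (ball_subset_ball h3.le hw), li_exp ht cv (mem_ball_zero_iff.1 hw)]
    have c := (taylor Gd).1
    rw [co_eq cv R0 (eventually_of_mem (ball_mem_nhds _ R0) e)] at c
    obtain ⟨r, h5, h6⟩ := exists_between h3
    exact h5.not_ge (up r ⟨(R0.trans h5).le, c r (R0.trans h5).le h6⟩)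
  have cp : IsCompact (closedBall 0 ρ₁ ∩ (fun z => Sr (ps t) (t * z)) ⁻¹' {-t}) :=
    (isCompact_closedBall _ _).of_isClosed_subset
      (dV.continuousOn.preimage_isClosed_of_isClosed isClosed_closedBall isClosed_singleton)
      Set.inter_subset_left
  obtain ⟨h, ⟨h3, h4⟩, mn⟩ := cp.exists_isMinOn ((ex ρ₁ h1 le_rfl).imp fun h k =>
    ⟨mem_closedBall_zero_iff.2 k.1.le, k.2⟩) continuous_norm.continuousOn
  refine ⟨h, cv.mono (not_lt.1 fun h5 => ?_), h4⟩
  obtain ⟨h', h6, h7⟩ := ex _ h5 (mem_closedBall_zero_iff.1 h3)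
  exact h6.not_ge (mn ⟨mem_closedBall_zero_iff.2 (h6.le.trans (mem_closedBall_zero_iff.1 h3)), h7⟩)

theorem li_W (n : ℕ) (t : ℂ) : W n t = t ^ (n + 1) * Kn n t := by
  induction n with
  | zero => simp [W, F, Kn]
  | succ n ih =>
    have := sub_smul_dslope Complex.exp 0 (W n t)
    rw [sub_zero, Complex.exp_zero, smul_eq_mul] at this
    rw [W_add, Function.iterate_one, fm, ← this, Kn, ← ih, ih]
    ring

theorem li_dif (n : ℕ) : Differentiable ℂ (Kn n) := by
  induction n with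
  | zero => exact differentiable_const _
  | succ n ih =>
    exact ih.mul ((differentiableOn_univ.1 ((Complex.differentiableOn_dslope univ_mem).2
      Complex.differentiable_exp.differentiableOn)).comp ((differentiable_id.pow _).mul ih))

theorem li_iter (ht : An t) (h : Cv (ps t) R) (hz : ‖z‖ < R) (n : ℕ) :
    (fm t)^[n] (Sr (ps t) z) = Sr (ps t) (t ^ n * z) := by
  induction n with
  | zero => simp
  | succ n ih =>
    rw [Function.iterate_succ_apply', ih, fe ht.ne ht.2.le (nr_of_lt ht.2) h, pow_succ', mul_assoc]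
    rw [norm_mul, norm_pow]
    exact (mul_le_of_le_one_left (norm_nonneg z) (pow_le_one₀ (norm_nonneg t) ht.2.le)).trans_lt hz

theorem li_pos (ht : An t) (h : Sr (ps t) (t * z) = -t) : 0 < ‖z‖ := norm_pos_iff.2 fun e => by
  rw [e, mul_zero, Sr_zero, ps_zero, eq_comm, neg_eq_zero] at h
  exact ht.ne h

theorem li_orb (ht : An t) (h : Cv (ps t) ‖z‖) (e : Sr (ps t) (t * z) = -t) (n : ℕ) :
    W n t = Sr (ps t) (t ^ (n + 1) * z) := by
  rw [W_iter, ← e, li_iter ht h, pow_succ, mul_assoc]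
  rw [norm_mul]
  exact mul_lt_of_lt_one_left (li_pos ht e) ht.2

theorem li_est (ht : An t) (h : Cv (ps t) R) (hR : 0 < R) (hz : ‖z‖ ≤ R) (n : ℕ) :
    ‖Sr (ps t) (t ^ (n + 1) * z) / t ^ (n + 1) - z‖ ≤ 10 / (1 - ‖t‖) * ‖t‖ ^ n := by
  have t0 : 0 < ‖t‖ := norm_pos_iff.2 ht.ne
  have u1 : ‖t‖ ^ (n + 1) ≤ ‖t‖ := pow_le_of_le_one t0.le ht.2.le n.succ_ne_zero
  have u2 : ‖t‖ ^ (n + 1) ≤ ‖t‖ ^ n := pow_le_pow_of_le_one t0.le ht.2.le n.le_succ
  have u0 := pow_ne_zero (n + 1) ht.ne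
  rw [← norm_pow] at u1 u2
  generalize t ^ (n + 1) = u at u0 u1 u2
  have sm := h.summable (z := u * z) (by
    rw [norm_mul]
    exact (mul_le_mul u1 hz (norm_nonneg _) t0.le).trans_lt (mul_lt_of_lt_one_left hR ht.2))
  have e : Sr (ps t) (u * z) / u - z = ∑' j, ps t (j + 2) * z ^ (j + 2) * u ^ (j + 1) := by
    rw [Sr, ← sm.sum_add_tsum_nat_add 2, sum_range_succ, sum_range_one, ps_zero, ps_one, add_div,
      ← tsum_div_const]
    rw [tsum_congr fun j => show ps t (j + 2) * (u * z) ^ (j + 2) / u =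
      ps t (j + 2) * z ^ (j + 2) * u ^ (j + 1) by field_simp; ring]
    field_simp
    ring
  rw [e]
  refine (tsum_of_norm_bounded ((hasSum_geometric_of_lt_one t0.le ht.2).mul_left (10 * ‖t‖ ^ n))
    fun j => ?_).trans_eq (by ring)
  rw [norm_mul, norm_mul, norm_pow, norm_pow, pow_succ' ‖u‖, mul_assoc 10]
  refine mul_le_mul (le_trans ?_ (ten ht h hR (j + 2))) ?_ (by positivity) (by norm_num) <;> gcongr

theorem li_tend (ht : An t) {f : ℕ → ℂ} (h : ∀ n, ‖f n - z‖ ≤ 10 / (1 - ‖t‖) * ‖t‖ ^ n) :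
    Tendsto f atTop (𝓝 z) :=
  tendsto_iff_norm_sub_tendsto_zero.2 (squeeze_zero (fun _ => norm_nonneg _) h (by
    simpa using (tendsto_pow_atTop_nhds_zero_of_lt_one (norm_nonneg t) ht.2).const_mul
      (10 / (1 - ‖t‖))))

theorem li_Kn (ht : An t) (h : Cv (ps t) ‖z‖) (e : Sr (ps t) (t * z) = -t) (n : ℕ) :
    ‖Kn n t - z‖ ≤ 10 / (1 - ‖t‖) * ‖t‖ ^ n := by
  have := li_est ht h (li_pos ht e) le_rfl n
  rwa [← li_orb ht h e, li_W, mul_div_cancel_left₀ _ (pow_ne_zero _ ht.ne)] at this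

theorem hh_spec (ht : An t) : Cv (ps t) ‖hh t‖ ∧ Sr (ps t) (t * hh t) = -t := by
  obtain ⟨h, h1, h2⟩ := exists_h ht
  rw [show hh t = h from (li_tend ht (li_Kn ht h1 h2)).limUnder_eq]
  exact ⟨h1, h2⟩

theorem hh_diff : DifferentiableOn ℂ hh (ball 0 1) := by
  intro z hz
  obtain ⟨ρ, h1, h2⟩ := exists_between (max_lt (mem_ball_zero_iff.1 hz)
    (show (199 / 200 : ℝ) < 1 by norm_num))
  obtain ⟨h3, h4⟩ := max_lt_iff.1 h1
  have ρ0 : 0 < ρ := by linarith
  have uc : UniformCauchySeqOn Kn atTop (ball 0 ρ) := Metric.uniformCauchySeqOn_iff.2 fun ε hε => by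
    have c0 : 0 < 10 / (1 - ρ) := div_pos (by norm_num) (by linarith)
    obtain ⟨N, hN⟩ := exists_pow_lt_of_lt_one (div_pos (half_pos hε) c0) h2
    refine ⟨N, fun m hm n hn x hx => ?_⟩
    rw [dist_eq_norm]
    refine (Complex.norm_le_of_forall_mem_frontier_norm_le (C := 2 * (10 / (1 - ρ) * ρ ^ N))
      isBounded_ball ((li_dif m).sub (li_dif n)).diffContOnCl (fun w hw => ?_)
      (subset_closure hx)).trans_lt (by linarith [(lt_div_iff₀' c0).1 hN])
    rw [frontier_ball _ ρ0.ne', mem_sphere_zero_iff_norm] at hw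
    have hw' : An w := ⟨by linarith, by linarith⟩
    obtain ⟨k1, k2⟩ := hh_spec hw'
    have k : ∀ n ≥ N, ‖Kn n w - hh w‖ ≤ 10 / (1 - ρ) * ρ ^ N := fun n hn =>
      (li_Kn hw' k1 k2 n).trans (hw ▸ mul_le_mul_of_nonneg_left
        (pow_le_pow_of_le_one (norm_nonneg w) hw'.2.le hn) (hw ▸ c0.le))
    have := norm_sub_le_norm_sub_add_norm_sub (Kn m w) (hh w) (Kn n w)
    rw [norm_sub_rev (hh w)] at this
    exact this.trans (by linarith [k m hm, k n hn])
  have tu := uc.tendstoUniformlyOn_of_tendsto (f := hh) fun x hx =>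
    (uc.cauchySeq hx).tendsto_limUnder
  exact ((tu.tendstoLocallyUniformlyOn.differentiableOn
    (.of_forall fun n => (li_dif n).differentiableOn) isOpen_ball).differentiableAt
      (isOpen_ball.mem_nhds (mem_ball_zero_iff.2 h3))).differentiableWithinAt

theorem hh_zero : hh 0 = -1 := by
  have : ∀ n, Kn n 0 = -1 := fun n => by
    induction n with
    | zero => rfl
    | succ n ih => simp [Kn, ih]
  simp only [hh, this]
  exact tendsto_const_nhds.limUnder_eq

theorem hj_diff (j : ℕ) : DifferentiableOn ℂ (fun t => hj t j) (ball 0 1) := by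
  exact fun t ht => (ps_difAt (nr_of_lt (mem_ball_zero_iff.1 ht)) j).differentiableWithinAt.mul
    ((hh_diff t ht).pow j)

theorem hj_zero (t : ℂ) : hj t 0 = 0 := by
  rw [hj, ps_zero, zero_mul]

theorem hj_one (t : ℂ) : hj t 1 = hh t := by
  rw [hj, ps_one, one_mul, pow_one]

theorem hj_at_zero (j : ℕ) : ‖hj 0 (j + 1)‖ = 1 / (j + 1) := by
  rw [hj, hh_zero, norm_mul, ps_at_zero, norm_pow, norm_neg, norm_one, one_pow, mul_one]

theorem hj_le (ht : An t) (j : ℕ) : ‖hj t j‖ ≤ 10 := by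
  rw [hj, norm_mul, norm_pow]
  exact ten ht (hh_spec ht).1 (li_pos ht (hh_spec ht).2) j

theorem li_hj (t z : ℂ) : Sr (hj t) z = Sr (ps t) (z * hh t) :=
  tsum_congr fun j => by rw [hj, mul_pow]; ring

theorem li_lt (ht : An t) (hz : ‖z‖ < 1) : ‖z * hh t‖ < ‖hh t‖ := by
  rw [norm_mul]
  exact mul_lt_of_lt_one_left (li_pos ht (hh_spec ht).2) hz

theorem W_hj (ht : An t) (n : ℕ) : W n t = Sr (hj t) (t ^ (n + 1)) := by
  rw [li_hj, li_orb ht (hh_spec ht).1 (hh_spec ht).2]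

theorem exp_hj (ht : An t) (hz : ‖z‖ < 1) :
    Complex.exp (Sr (hj t) z) = 1 + Sr (fun j => hj t j * t ^ (j - 1)) z := by
  rw [li_hj, li_exp ht (hh_spec ht).1 (li_lt ht hz), Sr, Sr, ← tsum_div_const]
  refine congrArg _ (tsum_congr fun j => ?_)
  obtain _ | j := j
  · simp [hj, ps_zero]
  · have := ht.ne
    rw [hj, Nat.add_sub_cancel]
    field_simp
    ring

theorem inj_hj (ht : An t) : Set.InjOn (fun z => Complex.exp (Sr (hj t) z)) (ball 0 1) := by
  intro a ha b hb e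
  obtain ⟨h1, h2⟩ := hh_spec ht
  have h0 := li_pos ht h2
  have la := li_lt ht (mem_ball_zero_iff.1 ha)
  have lb := li_lt ht (mem_ball_zero_iff.1 hb)
  have k : ∀ n, Sr (ps t) (t ^ (n + 1) * (a * hh t)) = Sr (ps t) (t ^ (n + 1) * (b * hh t)) :=
    fun n => by
      simp only [li_hj] at e
      rw [← li_iter ht h1 la, ← li_iter ht h1 lb, Function.iterate_succ_apply,
        Function.iterate_succ_apply, fm, fm, e]
  have k1 := li_tend ht (li_est ht h1 h0 la.le)
  simp only [k] at k1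
  exact mul_right_cancel₀ (norm_pos_iff.1 h0)
    (tendsto_nhds_unique k1 (li_tend ht (li_est ht h1 h0 lb.le)))

end Pool.Agent.Lib.MP_f36384_an
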