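import Pool.Agent.Lib.MP_f36384_an.N.S0

/-! Poisson integrals and a barrier estimate. -/

namespace Pool.Agent.Lib.MP_f36384_an

open Real Metric Complex Filter Topology Finset

/-- The Poisson integral. -/
noncomputable def Po (φ : ℂ → ℝ) (R : ℝ) (z : ℂ) : ℝ :=
  circleAverage (fun ζ => poissonKernel 0 z ζ * φ ζ) 0 R

variable {φ ψ : ℂ → ℝ} {R ρ : ℝ} {z : ℂ} {g : ℂ → ℂ}

theorem p1_int (hφ : ContinuousOn φ (sphere 0 R)) (hz : ‖z‖ < R) :
    CircleIntegrable (fun ζ => poissonKernel 0 z ζ * φ ζ) 0 R := by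
  have hR : 0 < R := (norm_nonneg z).trans_lt hz
  rw [← abs_of_pos hR] at hφ
  rw [poissonKernel_eq_re_herglotzRieszKernel]
  exact ((continuous_re.comp_continuousOn (continuousOn_herglotzRieszKernel_sphere
    (mem_ball_zero_iff.2 hz))).mul hφ).circleIntegrable'

theorem exists_He (hR : 0 < R) (hφ : ContinuousOn φ (sphere 0 R)) :
    ∃ Ω : ℂ → ℂ, DifferentiableOn ℂ Ω (ball 0 R) ∧ ∀ z ∈ ball (0 : ℂ) R, (Ω z).re = Po φ R z := by
  have h1 : ContinuousOn φ (sphere 0 |R|) := by rwa [abs_of_pos hR]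
  refine ⟨_, differentiableOn_circleAverage_herglotzRieszKernel_smul (f := fun ζ => (φ ζ : ℂ))
    (continuous_ofReal.comp_continuousOn h1).circleIntegrable', fun z hz => ?_⟩
  rw [re_circleAverage_herglotzRieszKernel_smul h1.circleIntegrable' hz, Po,
    poissonKernel_eq_re_herglotzRieszKernel]
  rfl

theorem Po_le (hφ : ContinuousOn φ (sphere 0 R)) (hψ : ContinuousOn ψ (sphere 0 R))
    (hz : ‖z‖ < R) (h : ∀ ζ ∈ sphere (0 : ℂ) R, φ ζ ≤ ψ ζ) : Po φ R z ≤ Po ψ R z := by
  refine circleAverage_mono (p1_int hφ hz) (p1_int hψ hz) fun ζ hζ => ?_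
  rw [abs_of_pos ((norm_nonneg z).trans_lt hz)] at hζ
  refine mul_le_mul_of_nonneg_left (h ζ hζ) (div_nonneg ?_ (sq_nonneg _))
  rw [sub_zero, sub_zero, mem_sphere_zero_iff_norm.1 hζ, sub_nonneg]
  exact pow_le_pow_left₀ (norm_nonneg z) hz.le 2

theorem Po_add (hφ : ContinuousOn φ (sphere 0 R)) (hψ : ContinuousOn ψ (sphere 0 R))
    (hz : ‖z‖ < R) : Po (fun ζ => φ ζ + ψ ζ) R z = Po φ R z + Po ψ R z := by
  simp only [Po, mul_add]
  exact circleAverage_fun_add (p1_int hφ hz) (p1_int hψ hz)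

theorem Po_mul (a : ℝ) : Po (fun ζ => a * φ ζ) R z = a * Po φ R z := by
  simp only [Po, mul_left_comm _ a]
  exact circleAverage_fun_smul (a := a)

theorem Po_re (hg : DiffContOnCl ℂ g (ball 0 R)) (hz : ‖z‖ < R) :
    Po (fun ζ => (g ζ).re) R z = (g z).re := by
  have hR : 0 < R := (norm_nonneg z).trans_lt hz
  have hw := mem_ball_zero_iff.2 hz
  have hi : CircleIntegrable ((Complex.re ∘ herglotzRieszKernel 0 z) • g) 0 R :=
    ((continuous_re.comp_continuousOn (continuousOn_herglotzRieszKernel_sphere hw)).smul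
      (cont_sphere hR hg)).circleIntegrable'
  rw [← hg.circleAverage_re_herglotzRieszKernel_smul hw, ← avg_re hi, Po,
    poissonKernel_eq_re_herglotzRieszKernel]
  simp

theorem Po_const (a : ℝ) (hz : ‖z‖ < R) : Po (fun _ => a) R z = a :=
  Po_re (g := fun _ => (a : ℂ)) diffContOnCl_const hz

theorem Po_cont (hφ : ContinuousOn φ (sphere 0 R)) : ContinuousOn (Po φ R) (ball 0 R) := by
  rcases le_or_gt R 0 with hR | hR
  · simp [ball_eq_empty.2 hR]
  obtain ⟨Ω, hΩ, eΩ⟩ := exists_He hR hφ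
  exact (continuous_re.comp_continuousOn hΩ.continuousOn).congr fun z hz => (eΩ z hz).symm

theorem avg_Po (hφ : ContinuousOn φ (sphere 0 R)) (h0 : 0 < ρ) (h1 : ρ < R) :
    circleAverage (Po φ R) 0 ρ = circleAverage φ 0 R := by
  have hR := h0.trans h1
  obtain ⟨Ω, hΩ, eΩ⟩ := exists_He hR hφ
  have hd := diffCl hΩ h1
  have e1 : circleAverage Ω 0 ρ = Ω 0 := DiffContOnCl.circleAverage (by rwa [abs_of_pos h0])
  have e2 := avg_re (cont_sphere h0 hd).circleIntegrable'
  rw [e1, eΩ 0 (mem_ball_self hR)] at e2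
  refine (circleAverage_congr_sphere fun ζ hζ => (eΩ ζ ?_).symm).trans
    (e2.trans (circleAverage_congr_sphere fun ζ hζ => ?_))
  · rw [abs_of_pos h0] at hζ
    exact closedBall_subset_ball h1 (sphere_subset_closedBall hζ)
  · have : ‖ζ‖ = R := by simpa [abs_of_pos hR] using hζ
    simp [poissonKernel_def, this, hR.ne']

theorem Po_near (hR : 0 < R) (hφ : ContinuousOn φ (closedBall 0 R)) {ε : ℝ} (hε : 0 < ε) :
    ∀ᶠ r in 𝓝[<] R, ∀ z ∈ sphere (0 : ℂ) r, Po φ R z ≤ φ z + ε := by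
  obtain ⟨C, hC⟩ := (isCompact_closedBall (0 : ℂ) R).exists_bound_of_continuousOn hφ
  obtain ⟨δ, hδ, hu⟩ := Metric.uniformContinuousOn_iff.1
    ((isCompact_closedBall (0 : ℂ) R).uniformContinuousOn_of_continuous hφ) _ (half_pos hε)
  have hC0 : 0 ≤ C := (norm_nonneg _).trans (hC 0 (mem_closedBall_self hR.le))
  have ht : Tendsto (fun r : ℝ => 2 * C / δ ^ 2 * (R ^ 2 - r ^ 2)) (𝓝[<] R) (𝓝 0) := by
    have : Continuous fun r : ℝ => 2 * C / δ ^ 2 * (R ^ 2 - r ^ 2) := by fun_prop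
    simpa using (this.tendsto R).mono_left nhdsWithin_le_nhds
  filter_upwards [ht.eventually (gt_mem_nhds (half_pos hε)), self_mem_nhdsWithin] with r h1 h2 z hz
  rw [mem_sphere_zero_iff_norm] at hz
  subst hz
  have h3 : ‖z‖ < R := h2
  have hz := mem_closedBall_zero_iff.2 h3.le
  have c1 : Continuous fun ζ : ℂ => 2 * C / δ ^ 2 * ‖ζ - z‖ ^ 2 := by fun_prop
  have e1 := Po_le (hφ.mono sphere_subset_closedBall)
    ((continuous_const (y := φ z + ε / 2)).add c1).continuousOn h3 fun ζ hζ => by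
      have hζ' := sphere_subset_closedBall hζ
      have k1 := abs_le.1 (hC ζ hζ')
      have k2 := abs_le.1 (hC z hz)
      have k3 : 0 ≤ 2 * C / δ ^ 2 := by positivity
      show φ ζ ≤ φ z + ε / 2 + 2 * C / δ ^ 2 * ‖ζ - z‖ ^ 2
      rcases lt_or_ge (dist ζ z) δ with k | k
      · have := abs_lt.1 (hu ζ hζ' z hz k)
        nlinarith [mul_nonneg k3 (sq_nonneg ‖ζ - z‖)]
      · have k4 := mul_le_mul_of_nonneg_left (pow_le_pow_left₀ hδ.le k 2) k3
        rw [div_mul_cancel₀ _ (by positivity), dist_eq_norm] at k4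
        linarith
  have e2 := Po_add (φ := fun _ => φ z + ε / 2) continuousOn_const c1.continuousOn h3
  have e3 : Po (fun ζ => ‖ζ - z‖ ^ 2) R z = R ^ 2 - ‖z‖ ^ 2 := by
    refine (circleAverage_congr_sphere fun ζ hζ => ?_).trans (circleAverage_const _ 0 R)
    have n1 : ‖ζ‖ = R := by simpa [abs_of_pos hR] using hζ
    have n2 : ‖ζ - z‖ ≠ 0 := fun e => h3.ne (by rw [← n1, sub_eq_zero.1 (norm_eq_zero.1 e)])
    simp only [poissonKernel_def, sub_zero, n1]
    exact div_mul_cancel₀ _ (pow_ne_zero 2 n2)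
  rw [Po_const _ h3, Po_mul, e3] at e2
  exact e1.trans (e2.le.trans (by linarith))

theorem barrier {γ : ℝ} {Y Q : ℂ → ℂ} (hγ : 0 ≤ γ) (hφ : Continuous φ) (h0 : ∀ z, 0 ≤ φ z)
    (h1 : ∀ z, φ z ≤ 1) (hY : Differentiable ℂ Y) (hQ : DifferentiableOn ℂ Q (ball 0 R))
    (q0 : ∀ z ∈ ball (0 : ℂ) R, 0 ≤ (Q z).re)
    (hb : ∀ z ∈ ball (0 : ℂ) R, (Q z).re ≤ 1 → Real.exp (γ * φ z) ≤ ‖Y z‖) (hz : ‖z‖ < R)
    (hq : (Q z).re < 1) : γ * Po φ R z ≤ Real.log ‖Y z‖ + γ * (Q z).re := by
  have hR : 0 < R := (norm_nonneg z).trans_lt hz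
  obtain ⟨Ω, hΩ, eΩ⟩ := exists_He hR hφ.continuousOn
  refine le_of_forall_pos_le_add fun δ hδ => ?_
  have hε : 0 < δ / (γ + 1) := by positivity
  have hγε : γ * (δ / (γ + 1)) ≤ δ := by
    rw [← mul_div_assoc, div_le_iff₀ (by positivity)]
    nlinarith
  obtain ⟨r, hn, hr1, hr2⟩ := ((Po_near hR hφ.continuousOn hε).and (Ioo_mem_nhdsLT hz)).exists
  have hs : closedBall (0 : ℂ) r ⊆ ball 0 R := closedBall_subset_ball hr2
  have hqc : ContinuousOn (fun w => (Q w).re) (ball 0 R) :=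
    continuous_re.comp_continuousOn hQ.continuousOn
  let O : Set ℂ := ball 0 r ∩ (fun w => (Q w).re) ⁻¹' Set.Iio 1
  have hO : IsOpen O :=
    (hqc.mono (ball_subset_closedBall.trans hs)).isOpen_inter_preimage isOpen_ball isOpen_Iio
  have hc : closure O ⊆ closedBall 0 r ∩ (fun w => (Q w).re) ⁻¹' Set.Iic 1 :=
    closure_minimal (fun w hw => ⟨ball_subset_closedBall hw.1, (le_of_lt hw.2 : (Q w).re ≤ 1)⟩)
      ((hqc.mono hs).preimage_isClosed_of_isClosed isClosed_closedBall isClosed_Iic)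
  have hY0 : ∀ w ∈ closure O, 0 < ‖Y w‖ := fun w hw =>
    (Real.exp_pos _).trans_le (hb w (hs (hc hw).1) (hc hw).2)
  have hE : ∀ w ∈ closure O, ‖Complex.exp (γ * (Ω w - Q w)) / Y w‖ =
      Real.exp (γ * (Po φ R w - (Q w).re)) / ‖Y w‖ := fun w hw => by
    rw [norm_div, Complex.norm_exp, re_ofReal_mul, sub_re, eΩ w (hs (hc hw).1)]
  have hd : DiffContOnCl ℂ (fun w => Complex.exp (γ * (Ω w - Q w)) / Y w) O :=
    DifferentiableOn.diffContOnCl <| DifferentiableOn.div
      ((((hΩ.sub hQ).mono fun w hw => hs (hc hw).1).const_mul (γ : ℂ)).cexp)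
      hY.differentiableOn fun w hw => norm_pos_iff.1 (hY0 w hw)
  have hzO : z ∈ closure O := subset_closure ⟨by simpa using hr1, hq⟩
  have hm := Complex.norm_le_of_forall_mem_frontier_norm_le
    (isBounded_ball.subset Set.inter_subset_left) hd (C := Real.exp δ) (fun w hw => ?_) hzO
  · rw [hE z hzO, div_le_iff₀ (hY0 z hzO), ← Real.exp_log (hY0 z hzO), ← Real.exp_add,
      Real.exp_le_exp] at hm
    linarith
  · rw [hO.frontier_eq] at hw
    have w1 := hc hw.1
    have w2 := hs w1.1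
    rw [hE w hw.1, div_le_iff₀ (hY0 w hw.1)]
    refine le_trans ?_ (mul_le_mul_of_nonneg_left (hb w w2 w1.2) (Real.exp_pos _).le)
    rw [← Real.exp_add, Real.exp_le_exp]
    have key : Po φ R w - (Q w).re ≤ φ w + δ / (γ + 1) := by
      by_cases h : (Q w).re < 1
      · have : w ∈ sphere (0 : ℂ) r := le_antisymm w1.1 (not_lt.1 fun k => hw.2 ⟨k, h⟩)
        linarith [hn w this, q0 w w2]
      · have w3 : ‖w‖ < R := by simpa using w2
        have := Po_le (ψ := fun _ => 1) hφ.continuousOn continuousOn_const w3 fun ζ _ => h1 ζ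
        rw [Po_const 1 w3] at this
        linarith [h0 w]
    nlinarith [mul_le_mul_of_nonneg_left key hγ]

theorem Po_zero (hR : 0 < R) : Po φ R 0 = circleAverage φ 0 R := by
  refine circleAverage_congr_sphere fun ζ hζ => ?_
  have : ‖ζ‖ = R := by simpa [abs_of_pos hR] using hζ
  simp [poissonKernel_def, this, hR.ne']

/-- Jensen's inequality. -/
theorem jensen (hg : DifferentiableOn ℂ g (ball 0 1)) (g0 : g 0 ≠ 0) (h0 : 0 < ρ) (h1 : ρ < 1)
    {ε : ℝ} (hε : 0 < ε) :
    Real.log ‖g 0‖ ≤ circleAverage (fun z => Real.log (‖g z‖ + ε)) 0 ρ := by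
  have hs : closedBall (0 : ℂ) ρ ⊆ ball 0 1 := closedBall_subset_ball h1
  have hp : ∀ w, 0 < ‖g w‖ + ε := fun w => by positivity
  have hφ : ContinuousOn (fun z => Real.log (‖g z‖ + ε)) (closedBall 0 ρ) :=
    ((hg.continuousOn.mono hs).norm.add continuousOn_const).log fun w _ => (hp w).ne'
  obtain ⟨Ω, hΩ, eΩ⟩ := exists_He h0 (hφ.mono sphere_subset_closedBall)
  rw [← Po_zero h0]
  refine le_of_forall_pos_le_add fun δ hδ => ?_
  obtain ⟨r, hn, hr1, hr2⟩ := ((Po_near (φ := fun z => -1 * Real.log (‖g z‖ + ε)) h0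
    (continuousOn_const.mul hφ) hδ).and (Ioo_mem_nhdsLT h0)).exists
  have hs' : closedBall (0 : ℂ) r ⊆ ball 0 ρ := closedBall_subset_ball hr2
  have hd : DiffContOnCl ℂ (fun w => g w * Complex.exp (-Ω w)) (ball 0 r) :=
    diffCl ((hg.mono (ball_subset_ball h1.le)).mul hΩ.neg.cexp) hr2
  have hm := Complex.norm_le_of_forall_mem_frontier_norm_le isBounded_ball hd (C := Real.exp δ)
    (fun w hw => ?_) (subset_closure (mem_ball_self hr1))
  · rw [norm_mul, Complex.norm_exp, neg_re, eΩ 0 (mem_ball_self h0),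
      ← Real.exp_log (norm_pos_iff.2 g0), ← Real.exp_add, Real.exp_le_exp] at hm
    linarith
  · rw [frontier_ball _ hr1.ne'] at hw
    have := hn w hw
    rw [Po_mul] at this
    rw [norm_mul, Complex.norm_exp, neg_re, eΩ w (hs' (sphere_subset_closedBall hw))]
    refine (mul_le_mul_of_nonneg_right (le_add_of_nonneg_right hε.le) (Real.exp_pos _).le).trans ?_
    rw [← Real.exp_log (hp w), ← Real.exp_add, Real.exp_le_exp]
    linarith

theorem avg_rp {s : ℝ} {u : ℂ} {K : ℕ} (hg : Differentiable ℂ g) (hR : 0 < R) (hs : 0 < s)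
    (hK : K ≠ 0) (eu : (‖co g K‖ : ℂ) = u * co g K) :
    circleAverage (fun ζ => (g ζ).re * ((starRingEnd ℂ) u * (ζ / R) ^ K).re) 0 s =
      (s / R) ^ K * (‖co g K‖ * s ^ K) / 2 := by
  have hne : ∀ z ∈ sphere (0 : ℂ) |s|, z ≠ 0 := by
    rintro z hz rfl
    simp [abs_of_pos hs, hs.ne] at hz
  have hA : Differentiable ℂ fun ζ => (1 / 2 : ℂ) * (g ζ * ((starRingEnd ℂ) u * (ζ / R) ^ K)) := by
    fun_prop
  have e1 := (hA.diffContOnCl (s := ball 0 |s|)).circleAverage
  have e2 := avg_coef hs hg.diffContOnCl K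
  have i1 : CircleIntegrable _ 0 s := hA.continuous.continuousOn.circleIntegrable'
  have c2 : ContinuousOn (fun z : ℂ => ((s : ℂ) / z) ^ K * g z) (sphere 0 |s|) :=
    ((continuousOn_const.div continuousOn_id hne).pow K).mul hg.continuous.continuousOn
  have i2 : CircleIntegrable (fun z => ((1 / 2 : ℂ) * (s / R) ^ K * u) • ((s / z) ^ K * g z)) 0 s :=
    (c2.const_smul ((1 / 2 : ℂ) * (s / R) ^ K * u)).circleIntegrable'
  have e3 := avg_re (i1.add i2)
  have e4 := circleAverage_add i1 i2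
  rw [circleAverage_fun_smul, e1, e2] at e4
  rw [e4] at e3
  refine (circleAverage_congr_sphere fun z hz => ?_).trans (e3.trans ?_)
  · have n1 : ‖z‖ = s := by simpa [abs_of_pos hs] using hz
    have hz0 := hne z hz
    have hR0 : (R : ℂ) ≠ 0 := by exact_mod_cast hR.ne'
    have hc : (starRingEnd ℂ) z = s * s / z := by
      rw [eq_div_iff hz0, mul_comm, Complex.mul_conj, Complex.normSq_eq_norm_sq, n1]
      push_cast
      ring
    have h2 : ((1 / 2 : ℂ) * (s / R) ^ K * u) • (((s : ℂ) / z) ^ K * g z) =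
        (1 / 2 : ℂ) * (g z * (starRingEnd ℂ) ((starRingEnd ℂ) u * (z / R) ^ K)) := by
      have : (s : ℂ) * s / z / R = s / R * (s / z) := by ring
      simp only [map_mul, map_pow, map_div₀, conj_conj, conj_ofReal, hc, smul_eq_mul, this, mul_pow]
      ring
    simp only [Pi.add_apply, h2]
    generalize (starRingEnd ℂ) u * (z / R) ^ K = b
    simp
    ring
  · have : (1 / 2 : ℂ) * (g 0 * ((starRingEnd ℂ) u * (0 / R) ^ K)) +
        ((1 / 2 : ℂ) * (s / R) ^ K * u) • (co g K * s ^ K) =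
        (((s / R) ^ K * (‖co g K‖ * s ^ K) / 2 : ℝ) : ℂ) := by
      push_cast
      rw [eu, zero_div, zero_pow hK, smul_eq_mul]
      ring
    rw [this, ofReal_re]

/-- High coefficients are controlled by the increments between two circles. -/
theorem coef_inc (hg : Differentiable ℂ g) (h0 : 0 < ρ) (h1 : ρ < R) {K : ℕ} (hK : K ≠ 0)
    {V : ℝ → ℝ} (hV : IntervalIntegrable V MeasureTheory.volume 0 (2 * π))
    (h : ∀ θ, Po (fun ζ => max ((g ζ).re - (g (circleMap 0 ρ θ)).re) 0) R (circleMap 0 ρ θ) ≤ V θ) :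
    (1 - (ρ / R) ^ (2 * K)) * (‖co g K‖ * R ^ K) ≤ 4 * ((2 * π)⁻¹ * ∫ θ in (0)..2 * π, V θ) := by
  have hR : 0 < R := h0.trans h1
  obtain ⟨u, hu, eu⟩ := Complex.exists_norm_eq_mul_self (co g K)
  let b : ℂ → ℂ := fun ζ => (starRingEnd ℂ) u * (ζ / R) ^ K
  have hb : Differentiable ℂ b := by fun_prop
  let p : ℂ → ℝ := fun ζ => (g ζ).re * (b ζ).re
  have cg : Continuous fun ζ => (g ζ).re := continuous_re.comp hg.continuous
  have cp : Continuous p := cg.mul (continuous_re.comp hb.continuous)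
  have a1 : circleAverage p 0 R = _ := avg_rp hg hR hR hK eu
  have a2 : circleAverage p 0 ρ = _ := avg_rp hg hR h0 hK eu
  have key : ∀ w : ℂ, ‖w‖ < R →
      Po p R w - p w ≤ 2 * Po (fun ζ => max ((g ζ).re - (g w).re) 0) R w := fun w hw => by
    have hG : Differentiable ℂ fun ζ => ((g w).re : ℂ) * b ζ - g ζ + (g w).re := by fun_prop
    have cm : Continuous fun ζ => 2 * max ((g ζ).re - (g w).re) 0 := by fun_prop
    have cG := continuous_re.comp hG.continuous
    have e1 := Po_le (φ := p) cp.continuousOn (cm.add cG).continuousOn hw fun ζ hζ => by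
      have n1 : ‖ζ‖ = R := by simpa using hζ
      have n2 : ‖b ζ‖ = 1 := by
        simp [b, hu, n1, abs_of_pos hR, hR.ne']
      have n3 := abs_le.1 ((Complex.abs_re_le_norm (b ζ)).trans n2.le)
      simp only [p, Pi.add_apply, Function.comp_apply, add_re, sub_re, re_ofReal_mul, ofReal_re]
      rcases le_total ((g ζ).re - (g w).re) 0 with k | k
      · rw [max_eq_right k]
        nlinarith [n3.1]
      · rw [max_eq_left k]
        nlinarith [n3.2]
    have e2 := Po_add cm.continuousOn cG.continuousOn hw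
    have e3 := Po_re (R := R) hG.diffContOnCl hw
    rw [Po_mul] at e2
    simp only [add_re, sub_re, re_ofReal_mul, ofReal_re] at e3
    have e4 : Po p R w ≤ 2 * Po (fun ζ => max ((g ζ).re - (g w).re) 0) R w +
        ((g w).re * (b w).re - (g w).re + (g w).re) := by
      rw [← e3]
      refine e1.trans (e2.trans ?_).le
      congr 2
      funext ζ
      simp only [Function.comp_apply, add_re, sub_re, re_ofReal_mul, ofReal_re]
    simp only [p] at e4 ⊢
    linarith
  have hs : sphere (0 : ℂ) |ρ| ⊆ ball 0 R := by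
    rw [abs_of_pos h0]
    exact sphere_subset_closedBall.trans (closedBall_subset_ball h1)
  have i1 : CircleIntegrable (Po p R) 0 ρ := ((Po_cont cp.continuousOn).mono hs).circleIntegrable'
  have i2 : CircleIntegrable p 0 ρ := cp.continuousOn.circleIntegrable'
  have e5 := circleAverage_fun_sub i1 i2
  rw [avg_Po cp.continuousOn h0 h1, a1, a2, circleAverage_def, smul_eq_mul] at e5
  have e6 : ∫ θ in (0)..2 * π, (Po p R (circleMap 0 ρ θ) - p (circleMap 0 ρ θ)) ≤
      ∫ θ in (0)..2 * π, 2 * V θ :=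
    intervalIntegral.integral_mono_on (by positivity) (i1.sub i2) (hV.const_mul 2) fun θ _ =>
      (key _ (by simpa [abs_of_pos h0] using h1)).trans (by linarith [h θ])
  rw [intervalIntegral.integral_const_mul] at e6
  have e7 := mul_le_mul_of_nonneg_left e6 (show 0 ≤ (2 * π)⁻¹ by positivity)
  rw [e5, div_self hR.ne', one_pow] at e7
  have e8 : ρ ^ K = (ρ / R) ^ K * R ^ K := by rw [← mul_pow, div_mul_cancel₀ _ hR.ne']
  rw [e8] at e7
  rw [two_mul K, pow_add]
  linarith

theorem lg_le {p : ℂ} {M a : ℝ} (hp : 0 ≤ p.re) (hM : 0 < M) (ha : 0 ≤ a) :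
    Real.log (1 + a * ‖p‖) ≤
      1 / M ^ 2 / 2 - Real.log 3 + Real.log ‖3 + ((3 * M * a : ℝ) : ℂ) * p‖ := by
  have hk : 0 ≤ 3 * M * a := by positivity
  have h1 := sq_norm_three_add (p := ((3 * M * a : ℝ) : ℂ) * p)
    (by rw [re_ofReal_mul]; exact mul_nonneg hk hp)
  rw [norm_mul, Complex.norm_real, Real.norm_of_nonneg hk] at h1
  generalize ‖3 + ((3 * M * a : ℝ) : ℂ) * p‖ = y at h1 ⊢
  have hx : 0 ≤ a * ‖p‖ := by positivity
  rw [mul_assoc (3 * M)] at h1
  generalize a * ‖p‖ = x at h1 hx ⊢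
  have hy : 0 < y ^ 2 := by nlinarith [sq_nonneg (3 * M * x)]
  have h2 : (1 + x) ^ 2 * 3 ^ 2 ≤ (1 / M ^ 2 + 1) * y ^ 2 := by
    refine le_trans ?_ (mul_le_mul_of_nonneg_left h1 (by positivity))
    have : (1 / M ^ 2 + 1) * (9 + (3 * M * x) ^ 2) =
        (1 + x) ^ 2 * 3 ^ 2 + 9 * (1 / M - M * x) ^ 2 := by
      field_simp
      ring
    rw [this]
    exact le_add_of_nonneg_right (by positivity)
  have h3 := Real.log_le_log (by positivity) h2
  rw [Real.log_mul (by positivity) (by positivity), Real.log_mul (by positivity) hy.ne',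
    Real.log_pow, Real.log_pow, Real.log_pow] at h3
  have h4 := Real.log_le_sub_one_of_pos (show 0 < 1 / M ^ 2 + 1 by positivity)
  push_cast at h3
  linarith

theorem tail_small {ε : ℝ} (hε : 0 < ε) : ∀ᶠ l : ℝ in atTop, ∀ (n : ℕ) (R : ℝ), 199 / 200 ≤ R →
    R < 1 → circleAverage (fun z => max ((W n z).re - l) 0) 0 R ≤ ε := by
  obtain ⟨M, hM, hM2⟩ : ∃ M : ℝ, 0 < M ∧ 1 / M ^ 2 ≤ ε / 2 := by
    refine ⟨2 / ε + 1, by positivity, ?_⟩
    have h1 : 0 < 2 / ε := by positivity
    rw [div_le_iff₀ (by positivity)]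
    have : ε / 2 * (2 / ε) = 1 := by field_simp
    nlinarith [mul_pos hε h1, mul_pos (mul_pos hε h1) h1]
  have ht : Tendsto (fun l : ℝ => 200 / 199 * Real.exp (-l) * (1 + 5 * M)) atTop (𝓝 0) := by
    simpa using (Real.tendsto_exp_neg_atTop_nhds_zero.const_mul (200 / 199)).mul_const (1 + 5 * M)
  filter_upwards [ht.eventually (gt_mem_nhds (half_pos hε))] with l hl n R hR1 hR
  set a := 200 / 199 * Real.exp (-l) with ha
  have ha0 : 0 < a := by positivity
  have hR0 : 0 < R := by linarith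
  obtain ⟨R', hRR, hR'⟩ := exists_between hR
  obtain ⟨P, hP, hP0, hre⟩ := decomp (hR0.trans hRR) (W_dif (n + 1)).diffContOnCl
  have hA : posAvg (W (n + 1)) R' ≤ 5 / 2 := posAvg_W (n + 1) (by linarith) hR'
  have hA0 := posAvg_nonneg (W (n + 1)) R'
  have hN : AnalyticOnNhd ℂ (fun z => P z - W (n + 1) z) (ball 0 R') :=
    hP.sub ((W_dif (n + 1)).differentiableOn.analyticOnNhd isOpen_ball)
  have hk : 0 ≤ 3 * M * a := by positivity
  have hN0 : ∀ w ∈ ball (0 : ℂ) R', 0 ≤ (P w - W (n + 1) w).re := fun w hw => by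
    rw [sub_re]
    linarith [(hre w hw).2]
  obtain ⟨c1, a1⟩ := log_avg (P := fun z => ((3 * M * a : ℝ) : ℂ) * P z) hR0 hRR
    (analyticOnNhd_const.mul hP) fun w hw => by
      rw [re_ofReal_mul]
      exact mul_nonneg hk (hre w hw).1
  obtain ⟨c2, a2⟩ := log_avg (P := fun z => ((3 * M * a : ℝ) : ℂ) * (P z - W (n + 1) z)) hR0 hRR
    (analyticOnNhd_const.mul hN) fun w hw => by
      rw [re_ofReal_mul]
      exact mul_nonneg hk (hN0 w hw)
  have hsub : sphere (0 : ℂ) |R| ⊆ ball 0 R' := by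
    rw [abs_of_pos hR0]
    exact sphere_subset_closedBall.trans (closedBall_subset_ball hRR)
  have c0 : Continuous fun z => max ((W n z).re - l) 0 :=
    ((continuous_re.comp (W_dif n).continuous).sub continuous_const).max continuous_const
  have c12 : ContinuousOn (fun z => Real.log ‖3 + ((3 * M * a : ℝ) : ℂ) * P z‖ +
      Real.log ‖3 + ((3 * M * a : ℝ) : ℂ) * (P z - W (n + 1) z)‖) (sphere 0 |R|) := c1.add c2
  have hv : Real.log ‖3 + ((3 * M * a : ℝ) : ℂ) * P 0‖ ≤ Real.log 3 + 5 / 2 * (M * a) := by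
    rw [hP0, show (3 + ((3 * M * a : ℝ) : ℂ) * (posAvg (W (n + 1)) R' : ℂ)) =
      ((3 * (1 + M * a * posAvg (W (n + 1)) R') : ℝ) : ℂ) by push_cast; ring, Complex.norm_real,
      Real.norm_of_nonneg (by positivity), Real.log_mul (by norm_num) (by positivity)]
    have := Real.log_le_sub_one_of_pos (show 0 < 1 + M * a * posAvg (W (n + 1)) R' by positivity)
    nlinarith [mul_pos hM ha0]
  calc circleAverage (fun z => max ((W n z).re - l) 0) 0 R
      ≤ circleAverage (fun z => (a + 1 / M ^ 2 - 2 * Real.log 3) +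
          (Real.log ‖3 + ((3 * M * a : ℝ) : ℂ) * P z‖ +
            Real.log ‖3 + ((3 * M * a : ℝ) : ℂ) * (P z - W (n + 1) z)‖)) 0 R := by
        refine circleAverage_mono c0.continuousOn.circleIntegrable'
          (continuousOn_const.add c12).circleIntegrable' fun z hz => ?_
        have n1 : ‖z‖ = R := by simpa [abs_of_pos hR0] using hz
        have hz0 : z ≠ 0 := norm_pos_iff.1 (n1 ▸ hR0)
        have l1 := lg_le (hre z (hsub hz)).1 hM ha0.le
        have l2 := lg_le (hN0 z (hsub hz)) hM ha0.le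
        have t1 : ‖W (n + 1) z‖ ≤ ‖P z‖ + ‖P z - W (n + 1) z‖ := by
          simpa using norm_sub_le (P z) (P z - W (n + 1) z)
        have t2 : Complex.exp (W n z) = 1 + W (n + 1) z / z := by
          simp only [W]
          rw [F_succ]
          field_simp
          ring
        have x0 := norm_nonneg (P z)
        have y0 := norm_nonneg (P z - W (n + 1) z)
        have t3 : Real.exp ((W n z).re - l) ≤ a * (1 + (‖P z‖ + ‖P z - W (n + 1) z‖)) := by
          rw [sub_eq_add_neg, Real.exp_add, ← Complex.norm_exp, t2, ha, mul_comm (200 / 199 : ℝ),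
            mul_assoc, mul_comm]
          refine mul_le_mul_of_nonneg_left ((norm_add_le _ _).trans ?_) (Real.exp_pos _).le
          rw [norm_one, norm_div, n1]
          have : ‖W (n + 1) z‖ / R ≤ (‖P z‖ + ‖P z - W (n + 1) z‖) / (199 / 200) := by gcongr
          linarith
        have t4 : max ((W n z).re - l) 0 ≤
            a + (Real.log (1 + a * ‖P z‖) + Real.log (1 + a * ‖P z - W (n + 1) z‖)) := by
          have p1 := mul_nonneg ha0.le x0
          have p2 := mul_nonneg ha0.le y0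
          have q1 := Real.log_nonneg (le_add_of_nonneg_right p1 : 1 ≤ 1 + a * ‖P z‖)
          have q2 := Real.log_nonneg
            (le_add_of_nonneg_right p2 : 1 ≤ 1 + a * ‖P z - W (n + 1) z‖)
          refine max_le ?_ (by linarith)
          rw [← Real.exp_le_exp, Real.exp_add, Real.exp_add, Real.exp_log (by linarith),
            Real.exp_log (by linarith)]
          refine t3.trans (le_trans ?_
            (mul_le_mul_of_nonneg_right (Real.add_one_le_exp a) (by positivity)))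
          nlinarith [mul_nonneg p1 p2, mul_nonneg ha0.le p1, mul_nonneg ha0.le p2,
            mul_nonneg ha0.le (mul_nonneg p1 p2)]
        linarith
    _ = (a + 1 / M ^ 2 - 2 * Real.log 3) + (Real.log ‖3 + ((3 * M * a : ℝ) : ℂ) * P 0‖ +
          Real.log ‖3 + ((3 * M * a : ℝ) : ℂ) * (P 0 - W (n + 1) 0)‖) := by
        rw [circleAverage_fun_add (circleIntegrable_const _ _ _) c12.circleIntegrable',
          circleAverage_fun_add c1.circleIntegrable' c2.circleIntegrable', a1, a2,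
          circleAverage_const]
    _ ≤ ε := by
        rw [show W (n + 1) 0 = 0 from zero_mul _, sub_zero]
        linarith

end Pool.Agent.Lib.MP_f36384_an
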