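import Pool.Agent.Lib.MP_f36384_an.N.Ju
import Pool.Agent.Lib.MP_f36384_an.N.Li

/-! The orbit approaches the boundary of the rotation domain. -/

namespace Pool.Agent.Lib.MP_f36384_an

open Real Metric Complex Filter Topology Finset

/-- The radii. -/
noncomputable def ra (m n : ℕ) : ℝ := Real.exp (-(1 / ((m + 1) * (n + 1))))

/-- The bad event. -/
def Bad (L η c : ℝ) (m n : ℕ) (t : ℂ) : Prop :=
  ‖W n (ra m n * t)‖ ≤ L ∧ Real.exp (-(m + 1) ^ 2) ≤ ‖hj (ra m n * t) ((m + 1) ^ 3)‖ ∧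
    ∀ q ∈ ball (0 : ℂ) η, uu m t (W n (ra m n * t) + q) ≤ c

theorem ra_pos (m n : ℕ) : 0 < ra m n := Real.exp_pos _

theorem ra_lt (m n : ℕ) : ra m n < 1 := by
  rw [ra, Real.exp_lt_one_iff, neg_lt_zero]
  positivity

theorem ra_pow (m n : ℕ) : ra m n ^ (n + 1) = Real.exp (-(1 / (m + 1))) := by
  rw [ra, ← Real.exp_nat_mul]
  congr 1
  push_cast
  field_simp

theorem ra_tendsto (m : ℕ) : Tendsto (ra m) atTop (𝓝 1) := by
  have h : Tendsto (fun n : ℕ => -(1 / ((m : ℝ) + 1) * (1 / ((n : ℝ) + 1)))) atTop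
      (𝓝 (-(1 / ((m : ℝ) + 1) * 0))) :=
    (tendsto_one_div_add_atTop_nhds_zero_nat.const_mul _).neg
  have := (Real.continuous_exp.tendsto _).comp h
  rw [mul_zero, neg_zero, Real.exp_zero] at this
  refine this.congr fun n => ?_
  rw [Function.comp_apply, ra, one_div_mul_one_div]

section
variable {t : ℂ} (h1 : ‖t‖ = 1)
include h1

theorem t1_norm (m n : ℕ) : ‖(ra m n : ℂ) * t‖ = ra m n := by
  rw [norm_mul, h1, mul_one, Complex.norm_real, Real.norm_of_nonneg (ra_pos m n).le]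

theorem t1_an (m : ℕ) : ∀ᶠ n in atTop, An (ra m n * t) :=
  ((ra_tendsto m).eventually (lt_mem_nhds (by norm_num : (199 / 200 : ℝ) < 1))).mono fun n h =>
    ⟨by rw [t1_norm h1]; exact h.le, by rw [t1_norm h1]; exact ra_lt m n⟩

omit h1 in
theorem t1_ps (hn : NR t) (m j : ℕ) :
    Tendsto (fun n => ps (ra m n * t) j) atTop (𝓝 (ps t j)) := by
  have h : Tendsto (fun n => (ra m n : ℂ) * t) atTop (𝓝 (((1 : ℝ) : ℂ) * t)) :=
    ((Complex.continuous_ofReal.tendsto 1).comp (ra_tendsto m)).mul_const t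
  rw [Complex.ofReal_one, one_mul] at h
  exact (ps_difAt hn j).continuousAt.tendsto.comp h

theorem t1_usc (hn : NR t) (m : ℕ) {ρ : ℝ} (h0 : 0 ≤ ρ) (h : ¬ Bd (ps t) ρ) :
    ∀ᶠ n in atTop, ‖hh (ra m n * t)‖ < ρ := by
  obtain ⟨i, hi⟩ : ∃ i, 10 < ‖ps t i‖ * ρ ^ i := by
    by_contra! k
    exact h ⟨10, k⟩
  filter_upwards [((t1_ps hn m i).norm.mul_const (ρ ^ i)).eventually (lt_mem_nhds hi), t1_an h1 m]
    with n a b
  by_contra! k
  have := hj_le b i
  rw [hj, norm_mul, norm_pow] at this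
  exact absurd (a.trans_le ((mul_le_mul_of_nonneg_left (pow_le_pow_left₀ h0 k i)
    (norm_nonneg _)).trans this)) (lt_irrefl _)

omit h1 in
theorem t1_low (hn : NR t) {ρ s : ℝ} (h0 : 0 ≤ s) (hs : s < ρ) (h : Bd (ps t) ρ) :
    ∀ᶠ m : ℕ in atTop, ∀ᶠ n in atTop,
      Real.exp (-(m + 1) ^ 2) ≤ ‖hj (ra m n * t) ((m + 1) ^ 3)‖ → s ≤ ‖hh (ra m n * t)‖ := by
  obtain ⟨C, hC⟩ := h
  have hρ : 0 < ρ := h0.trans_lt hs
  have C0 : 0 ≤ C := le_trans (by positivity) (hC 0)
  have ha : s / ρ < 1 := (div_lt_one hρ).2 hs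
  have l := (tendsto_pow_atTop_nhds_zero_of_lt_one (div_nonneg h0 hρ.le) ha).comp
    (tendsto_add_atTop_nat 1)
  filter_upwards [l.eventually (gt_mem_nhds (show 0 < Real.exp (-1) / (C + 2) by positivity))]
    with m hm
  set j := (m + 1) ^ 3 with hj'
  have key : (C + 1) * (s / ρ) ^ j < Real.exp (-(m + 1) ^ 2) := by
    have e1 : (s / ρ) ^ j ≤ (Real.exp (-1) / (C + 2)) ^ ((m + 1) ^ 2) := by
      rw [hj', pow_succ' (m + 1) 2, pow_mul]
      exact pow_le_pow_left₀ (pow_nonneg (div_nonneg h0 hρ.le) _) hm.le _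
    have e2 : C + 2 ≤ (C + 2) ^ ((m + 1) ^ 2) :=
      le_self_pow₀ (by linarith) (by positivity)
    rw [div_pow (Real.exp _), ← Real.exp_nat_mul] at e1
    push_cast at e1
    rw [mul_neg, mul_one] at e1
    refine (mul_le_mul_of_nonneg_left e1 (by positivity)).trans_lt ?_
    rw [← mul_div_assoc, div_lt_iff₀ (by positivity), mul_comm]
    exact mul_lt_mul_of_pos_left (by linarith) (Real.exp_pos _)
  filter_upwards [((t1_ps hn m j).norm.mul_const (ρ ^ j)).eventually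
    (gt_mem_nhds ((hC j).trans_lt (lt_add_one C)))] with n a b
  by_contra! k
  rw [hj, norm_mul, norm_pow] at b
  refine absurd (key.trans_le (b.trans ?_)) (lt_irrefl _)
  calc _ ≤ ‖ps (ra m n * t) j‖ * s ^ j := by gcongr
    _ = ‖ps (ra m n * t) j‖ * ρ ^ j * (s / ρ) ^ j := by
      rw [mul_assoc, ← mul_pow, mul_div_cancel₀ _ hρ.ne']
    _ ≤ _ := by gcongr

theorem t1_zero (hn : NR t) (h : ∀ ρ, 0 < ρ → ¬ Bd (ps t) ρ) (m j : ℕ) {δ : ℝ} (hδ : 0 < δ) :
    ∀ᶠ n in atTop, ‖hj (ra m n * t) (j + 1)‖ < δ := by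
  have l : Tendsto (fun n => hh (ra m n * t)) atTop (𝓝 0) := by
    rw [NormedAddGroup.tendsto_nhds_zero]
    exact fun ρ hρ => t1_usc h1 hn m hρ.le (h ρ hρ)
  have := ((t1_ps hn m (j + 1)).mul (l.pow (j + 1))).norm
  rw [zero_pow j.succ_ne_zero, mul_zero, norm_zero] at this
  exact this.eventually (gt_mem_nhds hδ)

theorem t1_ny (m n : ℕ) : ‖hh (ra m n * t) * (ra m n * t) ^ (n + 1)‖ =
    ‖hh (ra m n * t)‖ * Real.exp (-(1 / (m + 1))) := by
  rw [norm_mul, norm_pow, t1_norm h1, ra_pow]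

theorem t1_close (hn : NR t) {R s : ℝ} (h : Cv (ps t) R) (h0 : 0 ≤ s) (hs : s < R) (m : ℕ)
    (hy : ∀ᶠ n in atTop, ‖hh (ra m n * t) * (ra m n * t) ^ (n + 1)‖ ≤ s) {δ : ℝ} (hδ : 0 < δ) :
    ∀ᶠ n in atTop,
      ‖W n (ra m n * t) - Sr (ps t) (hh (ra m n * t) * (ra m n * t) ^ (n + 1))‖ < δ := by
  set q := Real.exp (-(1 / ((m : ℝ) + 1))) with hq
  have q0 : 0 ≤ q := (Real.exp_pos _).le
  have q1 : q < 1 := by
    rw [hq, Real.exp_lt_one_iff, neg_lt_zero]
    positivity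
  have e : ∀ (z : ℂ) (n i : ℕ), ps z i * (hh z * z ^ (n + 1)) ^ i = hj z i * (z ^ (n + 1)) ^ i :=
    fun z n i => by rw [hj, mul_pow, mul_assoc]
  have l := tendsto_tsum_of_dominated_convergence (𝓕 := atTop)
    (f := fun n i => (ps (ra m n * t) i - ps t i) * (hh (ra m n * t) * (ra m n * t) ^ (n + 1)) ^ i)
    (g := fun _ => 0) (bound := fun i => 10 * q ^ i + ‖ps t i‖ * s ^ i)
    (((summable_geometric_of_lt_one q0 q1).mul_left 10).add (h.sum h0 hs)) (fun i => ?_) ?_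
  · rw [tsum_zero, NormedAddGroup.tendsto_nhds_zero] at l
    filter_upwards [l δ hδ, hy, t1_an h1 m] with n a b c
    have c1 : ‖((ra m n : ℂ) * t) ^ (n + 1)‖ < 1 := by
      rw [norm_pow, t1_norm h1, ra_pow]
      exact q1
    rw [W_hj c, Sr, Sr, ← ((cv_one (hj_le c)).summable c1).tsum_sub (h.summable (b.trans_lt hs))]
    simpa only [sub_mul, e] using a
  · have := ((t1_ps hn m i).sub_const (ps t i)).norm.mul_const (s ^ i)
    rw [sub_self, norm_zero, zero_mul] at this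
    refine squeeze_zero_norm' (hy.mono fun n a => ?_) this
    rw [norm_mul, norm_pow]
    gcongr
  · filter_upwards [hy, t1_an h1 m] with n a b i
    rw [sub_mul, e]
    refine (norm_sub_le _ _).trans (add_le_add ?_ ?_)
    · rw [norm_mul, norm_pow, norm_pow, t1_norm h1, ra_pow]
      exact mul_le_mul_of_nonneg_right (hj_le b i) (by positivity)
    · rw [norm_mul, norm_pow]
      gcongr

end

theorem not_bad {t : ℂ} (h1 : ‖t‖ = 1) (hn : NR t) (L c : ℝ) {η : ℝ} (hη : 0 < η) :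
    ∀ᶠ m in atTop, ∀ᶠ n in atTop, ¬ Bad L η c m n t := by
  by_cases hb : Bd (ps t) 100
  · filter_upwards [t1_low hn (s := 11) (by norm_num) (by norm_num) hb] with m hm
    filter_upwards [hm, t1_an h1 m] with n a b k
    have := hj_le b 1
    rw [hj_one] at this
    linarith [a k.2.1]
  set S := {ρ : ℝ | 0 ≤ ρ ∧ Bd (ps t) ρ}
  have S0 : (0 : ℝ) ∈ S := ⟨le_rfl, 0, fun j => by
    rcases j with _ | j
    · rw [ps_zero, norm_zero, zero_mul]
    · rw [zero_pow j.succ_ne_zero, mul_zero]⟩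
  have Sb : BddAbove S := ⟨100, fun ρ k => le_of_not_gt fun l => hb (k.2.mono (by norm_num) l.le)⟩
  have R0 : 0 ≤ sSup S := le_csSup Sb S0
  have hm : ∀ ρ, sSup S < ρ → ¬ Bd (ps t) ρ := fun ρ k l =>
    absurd (le_csSup Sb ⟨R0.trans k.le, l⟩) (not_le.2 k)
  have hc : Cv (ps t) (sSup S) := fun ρ k l =>
    let ⟨_, a, b⟩ := exists_lt_of_lt_csSup ⟨0, S0⟩ l
    a.2.mono k b.le
  generalize sSup S = R at R0 hm hc
  rcases R0.eq_or_lt with rfl | hR
  · refine .of_forall fun m => ?_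
    obtain ⟨j, e⟩ : ∃ j, (m + 1) ^ 3 = j + 1 := Nat.exists_eq_succ_of_ne_zero (by positivity)
    filter_upwards [t1_zero h1 hn hm m j (Real.exp_pos (-(m + 1) ^ 2))] with n a k
    exact absurd k.2.1 (not_le.2 (e ▸ a))
  obtain ⟨R', hR', hJ⟩ := julia h1 hn hc hR hm (L + η) c (half_pos hη)
  obtain ⟨s, s1, s2⟩ := exists_between (max_lt hR' hR)
  obtain ⟨ρ, s3, s4⟩ := exists_between s2
  have s0 : 0 < s := (le_max_right _ _).trans_lt s1
  have l : Tendsto (fun m : ℕ => s * Real.exp (-(1 / ((m : ℝ) + 1)))) atTop (𝓝 (s * Real.exp (-0))) :=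
    ((Real.continuous_exp.tendsto _).comp tendsto_one_div_add_atTop_nhds_zero_nat.neg).const_mul s
  rw [neg_zero, Real.exp_zero, mul_one] at l
  filter_upwards [hJ, t1_low hn s0.le s3 (hc ρ (s0.trans s3).le s4),
    l.eventually (lt_mem_nhds ((le_max_left _ _).trans_lt s1))] with m a b d
  set q := Real.exp (-(1 / ((m : ℝ) + 1))) with hq
  have q0 : 0 < q := Real.exp_pos _
  have q1 : q < 1 := by
    rw [hq, Real.exp_lt_one_iff, neg_lt_zero]
    positivity
  obtain ⟨σ, u1, u2⟩ := exists_between (show R < R / q by rwa [lt_div_iff₀ q0, mul_lt_iff_lt_one_right hR])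
  rw [lt_div_iff₀ q0] at u2
  have hy : ∀ᶠ n in atTop, ‖hh (ra m n * t) * (ra m n * t) ^ (n + 1)‖ ≤ σ * q :=
    (t1_usc h1 hn m (hR.trans u1).le (hm σ u1)).mono fun n k => by
      rw [t1_ny h1]
      exact mul_le_mul_of_nonneg_right k.le q0.le
  filter_upwards [b, hy, t1_close h1 hn hc (mul_pos (hR.trans u1) q0).le u2 m hy (half_pos hη)]
    with n b1 b2 b3 k
  obtain ⟨p, p1, p2⟩ := a _ (by
      rw [t1_ny h1]
      exact d.le.trans (mul_le_mul_of_nonneg_right (b1 k.2.1) q0.le)) (b2.trans_lt u2)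
    ((norm_le_norm_add_norm_sub (W n (ra m n * t)) _).trans
      (add_le_add k.1 (b3.le.trans (half_le_self hη.le))))
  have := k.2.2 (p - W n (ra m n * t)) (by
    rw [mem_ball_zero_iff]
    rw [mem_ball_iff_norm] at p1
    rw [norm_sub_rev] at b3
    linarith [norm_sub_le_norm_sub_add_norm_sub p
      (Sr (ps t) (hh (ra m n * t) * (ra m n * t) ^ (n + 1))) (W n (ra m n * t))])
  rw [add_sub_cancel] at this
  exact absurd this (not_le.2 p2)

theorem t1_closed (L η c : ℝ) (m n : ℕ) : IsClosed {θ | Bad L η c m n (circleMap 0 1 θ)} := by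
  have z : Continuous fun θ => (ra m n : ℂ) * circleMap 0 1 θ :=
    continuous_const.mul (continuous_circleMap 0 1)
  have w := (W_dif n).continuous.comp z
  have h := (hj_diff ((m + 1) ^ 3)).continuousOn.comp_continuous z fun θ => by
    rw [mem_ball_zero_iff, t1_norm (by simp)]
    exact ra_lt m n
  refine (isClosed_le w.norm continuous_const).inter ((isClosed_le continuous_const h.norm).inter ?_)
  have : IsClosed (⋂ q ∈ ball (0 : ℂ) η,
      {θ | uu m (circleMap 0 1 θ) (W n (ra m n * circleMap 0 1 θ) + q) ≤ c}) :=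
    isClosed_biInter fun q _ => isClosed_le ((uu_cont m).comp
      ((continuous_circleMap 0 1).prodMk (w.add continuous_const))) continuous_const
  convert this using 1
  ext θ
  simp only [Set.mem_iInter]
  rfl

theorem t1_count : {θ | ¬ NR (circleMap 0 1 θ)}.Countable := by
  refine ((Set.countable_iUnion fun k : ℕ =>
    (Polynomial.nthRootsFinset (k + 1) (1 : ℂ)).countable_toSet).preimage_circleMap 0
      one_ne_zero).mono fun θ h => ?_
  obtain ⟨k, e⟩ := not_forall.1 h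
  exact Set.mem_iUnion.2 ⟨k, (Polynomial.mem_nthRootsFinset k.succ_pos _).2 (not_not.1 e)⟩

theorem bad_small (L c : ℝ) {η ε : ℝ} (hη : 0 < η) (hε : 0 < ε) : ∀ᶠ m in atTop,
    ∃ B : Set ℝ, MeasurableSet B ∧ (MeasureTheory.volume (B ∩ Set.Ioc 0 (2 * π))).toReal ≤ ε ∧
      ∀ᶠ n in atTop, ∀ θ, Bad L η c m n (circleMap 0 1 θ) → θ ∈ B := by
  have hA : ∀ m n, MeasurableSet {θ | Bad L η c m n (circleMap 0 1 θ)} := fun m n =>
    (t1_closed L η c m n).measurableSet
  set B : ℕ → ℕ → Set ℝ := fun m I => ⋃ n ≥ I, {θ | Bad L η c m n (circleMap 0 1 θ)}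
  have hB : ∀ m I, MeasurableSet (B m I) := fun m I =>
    .iUnion fun n => .iUnion fun _ => hA m n
  set μ := MeasureTheory.volume.restrict (Set.Ioc 0 (2 * π))
  have l := MeasureTheory.tendsto_measure_of_ae_tendsto_indicator_of_isFiniteMeasure atTop
    (μ := μ) (As := fun m => ⋂ I, B m I) MeasurableSet.empty
    (fun m => .iInter (hB m)) ?_
  · rw [MeasureTheory.measure_empty] at l
    filter_upwards [l.eventually (gt_mem_nhds (ENNReal.ofReal_pos.2 hε))] with m hm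
    have l' := MeasureTheory.tendsto_measure_iInter_atTop (μ := μ) (s := B m)
      (fun I => (hB m I).nullMeasurableSet)
      (fun I J k => Set.biUnion_subset_biUnion_left fun n (a : J ≤ n) => k.trans a)
      ⟨0, MeasureTheory.measure_ne_top _ _⟩
    obtain ⟨I, hI⟩ := (l'.eventually (gt_mem_nhds hm)).exists
    refine ⟨B m I, hB m I, ENNReal.toReal_le_of_le_ofReal hε.le ?_,
      (eventually_ge_atTop I).mono fun n a θ k => Set.mem_biUnion a k⟩
    rw [← MeasureTheory.Measure.restrict_apply (hB m I)]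
    exact hI.le
  · refine MeasureTheory.ae_restrict_of_ae ((t1_count.ae_notMem _).mono fun θ k => ?_)
    filter_upwards [not_bad (by simp) (not_not.1 k) L c hη] with m a
    obtain ⟨I, hI⟩ := eventually_atTop.1 a
    refine iff_of_false (fun b => ?_) (Set.notMem_empty _)
    obtain ⟨n, b1, b2⟩ := Set.mem_iUnion₂.1 (Set.mem_iInter.1 b I)
    exact hI n b1 b2

end Pool.Agent.Lib.MP_f36384_an
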