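import Pool.Agent.Lib.MP_f36384_an.N.T1
import Pool.Agent.Lib.MP_f36384_an.N.Co

/-! The conjectured bound for large `n`. -/

namespace Pool.Agent.Lib.MP_f36384_an

open Real Metric Complex Filter Topology Finset

theorem tp_pt {x g a e Λ : ℝ} (hΛ : 0 < Λ) (he : 0 ≤ e) (ha : -g ≤ a) :
    max (x - g) 0 ≤ e + Λ * min 1 (max (x - g - e) 0 / Λ) + max (x - Λ / 2) 0 + a ^ 2 / (2 * Λ) := by
  have h1 : a ≤ Λ / 2 + a ^ 2 / (2 * Λ) := by
    have : a ^ 2 / (2 * Λ) + Λ / 2 - a = (a - Λ) ^ 2 / (2 * Λ) := by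
      field_simp
      ring
    have h2 : 0 ≤ (a - Λ) ^ 2 / (2 * Λ) := by positivity
    linarith
  have h2 : 0 ≤ a ^ 2 / (2 * Λ) := by positivity
  have h3 := le_max_left (x - Λ / 2) 0
  have h4 := le_max_right (x - Λ / 2) 0
  have h5 := le_max_left (x - g - e) 0
  have h6 := le_max_right (x - g - e) 0
  rcases le_total 1 (max (x - g - e) 0 / Λ) with k | k
  · rw [min_eq_left k]
    exact max_le (by linarith) (by linarith)
  · rw [min_eq_right k, mul_div_cancel₀ _ hΛ.ne']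
    exact max_le (by linarith) (by linarith)

/-- The truncated increment. -/
noncomputable def ph (n : ℕ) (z : ℂ) (e Λ : ℝ) (ζ : ℂ) : ℝ :=
  min 1 (max ((W n ζ).re - (W n z).re - e) 0 / Λ)

theorem tp_cre (n : ℕ) : Continuous fun ζ => (W n ζ).re :=
  continuous_re.comp (W_dif n).continuous

theorem ph_cont (n : ℕ) (z : ℂ) (e Λ : ℝ) : Continuous (ph n z e Λ) :=
  continuous_const.min (((((tp_cre n).sub continuous_const).sub continuous_const).max
    continuous_const).div_const Λ)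

theorem tp_Po (n : ℕ) {z : ℂ} {e Λ R : ℝ} (hΛ : 0 < Λ) (he : 0 ≤ e) (hz : ‖z‖ < R) :
    Po (fun ζ => max ((W n ζ).re - (W n z).re) 0) R z ≤ e + Λ * Po (ph n z e Λ) R z +
      Po (fun ζ => max ((W n ζ).re - Λ / 2) 0) R z + ‖W n z‖ ^ 2 / (2 * Λ) := by
  have c1 : Continuous fun ζ => Λ * ph n z e Λ ζ := continuous_const.mul (ph_cont n z e Λ)
  have c2 : Continuous fun ζ => max ((W n ζ).re - Λ / 2) 0 :=
    ((tp_cre n).sub continuous_const).max continuous_const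
  have c3 : Continuous fun ζ => e + Λ * ph n z e Λ ζ := continuous_const.add c1
  have c4 : Continuous fun ζ => e + Λ * ph n z e Λ ζ + max ((W n ζ).re - Λ / 2) 0 := c3.add c2
  have e1 := Po_add (φ := fun _ => e) continuousOn_const c1.continuousOn hz
  have e2 := Po_add c3.continuousOn c2.continuousOn hz
  have e3 := Po_add (ψ := fun _ => ‖W n z‖ ^ 2 / (2 * Λ)) c4.continuousOn continuousOn_const hz
  rw [Po_const _ hz, Po_mul] at e1
  rw [Po_const _ hz, e2, e1] at e3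
  rw [← e3]
  refine Po_le (((tp_cre n).sub continuous_const).max continuous_const).continuousOn
    (c4.add continuous_const).continuousOn hz fun ζ _ => tp_pt hΛ he ?_
  exact (neg_le_abs _).trans (Complex.abs_re_le_norm _)

/-- The penalty for a small coefficient of the lineariser. -/
noncomputable def pb (m : ℕ) (z : ℂ) : ℝ :=
  (Real.log 11 - Real.log (‖hj z ((m + 1) ^ 3)‖ + Real.exp (-(m + 1) ^ 2))) / (m + 1) ^ 2

theorem pb_nonneg (m : ℕ) {z : ℂ} (hz : An z) : 0 ≤ pb m z := by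
  refine div_nonneg (sub_nonneg.2 (Real.log_le_log (by positivity) ?_)) (by positivity)
  have h1 := hj_le hz ((m + 1) ^ 3)
  have h2 : Real.exp (-((m : ℝ) + 1) ^ 2) ≤ 1 := Real.exp_le_one_iff.2 (neg_nonpos.2 (by positivity))
  linarith

theorem pb_one (m : ℕ) {z : ℂ} (h : ‖hj z ((m + 1) ^ 3)‖ < Real.exp (-(m + 1) ^ 2)) :
    1 ≤ pb m z := by
  rw [pb, le_div_iff₀ (by positivity), one_mul]
  have h1 : Real.log (‖hj z ((m + 1) ^ 3)‖ + Real.exp (-(m + 1) ^ 2)) ≤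
      Real.log (11 * Real.exp (-((m : ℝ) + 1) ^ 2)) :=
    Real.log_le_log (by positivity) (by linarith [Real.exp_pos (-((m : ℝ) + 1) ^ 2)])
  rw [Real.log_mul (by norm_num) (Real.exp_pos _).ne', Real.log_exp] at h1
  linarith

theorem pb_cont (m : ℕ) {ρ : ℝ} (h0 : 0 < ρ) (h1 : ρ < 1) :
    ContinuousOn (fun z => Real.log (‖hj z ((m + 1) ^ 3)‖ + Real.exp (-(m + 1) ^ 2)))
      (sphere 0 |ρ|) :=
  ((cO_cont h0 h1 _).norm.add continuousOn_const).log fun _ _ =>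
    (add_pos_of_nonneg_of_pos (norm_nonneg _) (Real.exp_pos _)).ne'

theorem pb_avg (m : ℕ) {ρ : ℝ} (h0 : 0 < ρ) (h1 : ρ < 1) :
    circleAverage (pb m) 0 ρ ≤ (Real.log 11 + 3 * Real.log (m + 1)) / (m + 1) ^ 2 := by
  obtain ⟨j, hj'⟩ : ∃ j, (m + 1) ^ 3 = j + 1 := ⟨(m + 1) ^ 3 - 1, by
    have : 0 < (m + 1) ^ 3 := by positivity
    omega⟩
  have e0 : ‖hj 0 ((m + 1) ^ 3)‖ = 1 / ((m : ℝ) + 1) ^ 3 := by
    rw [hj', hj_at_zero]
    congr 1
    exact_mod_cast hj'.symm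
  have k := jensen (hj_diff ((m + 1) ^ 3)) (by
    rw [← norm_ne_zero_iff, e0]
    positivity) h0 h1 (Real.exp_pos (-((m : ℝ) + 1) ^ 2))
  rw [e0, one_div, Real.log_inv, Real.log_pow] at k
  have e1 : pb m = fun z => (((m : ℝ) + 1) ^ 2)⁻¹ • (Real.log 11 -
      Real.log (‖hj z ((m + 1) ^ 3)‖ + Real.exp (-(m + 1) ^ 2))) := by
    funext z
    rw [pb, smul_eq_mul, div_eq_inv_mul]
  rw [e1, circleAverage_fun_smul, circleAverage_fun_sub (circleIntegrable_const _ _ _)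
    (pb_cont m h0 h1).circleIntegrable', circleAverage_const, smul_eq_mul, div_eq_inv_mul]
  gcongr
  push_cast at k
  linarith

theorem tp_ph {m n : ℕ} {L η e c κ Λ R s : ℝ} {t : ℂ} (hη : 0 < η) (he : 4 * η ≤ e) (hc : 1 < c)
    (hL : 0 < L) (hΛ : 0 < Λ) (ht : ‖t‖ = 1) (h0 : 199 / 200 ≤ ra m n) (h1 : ra m n < R)
    (h2 : R < 1) (hs : 0 ≤ s) (hB : Bad L η c m n t → 1 ≤ s)
    (hκ : ∀ (n : ℕ) (R ρ : ℝ) (t q : ℂ) (φ : ℂ → ℝ), 0 ≤ ρ → ρ < R → R < 1 → ‖t‖ = 1 →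
      Continuous φ → (∀ ζ, 0 ≤ φ ζ) → (∀ ζ, φ ζ ≤ 1) →
      (∀ ζ, φ ζ ≠ 0 → e ≤ ‖W n ζ - W n (ρ * t)‖) → ‖W n (ρ * t)‖ ≤ L → ‖q‖ < η →
      c < uu m t (W n (ρ * t) + q) →
      Po φ R (ρ * t) ≤ Real.log 22 / Real.log (5 * e / η) +
        Po (fun t => uu m t (W n t)) R (ρ * t) / (c - 1) + 2 * (1 - ρ) / κ ^ 2) :
    Po (ph n (ra m n * t) e Λ) R (ra m n * t) ≤ Real.log 22 / Real.log (5 * e / η) +
      Po (fun t => uu m t (W n t)) R (ra m n * t) / (c - 1) + 2 * (1 - ra m n) / κ ^ 2 +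
      ‖W n (ra m n * t)‖ ^ 2 / L ^ 2 + pb m (ra m n * t) + s := by
  have nz := t1_norm ht m n
  have hz : ‖(ra m n : ℂ) * t‖ < R := nz.trans_lt h1
  have p0 : ∀ ζ, 0 ≤ ph n (ra m n * t) e Λ ζ := fun ζ =>
    le_min zero_le_one (div_nonneg (le_max_right _ _) hΛ.le)
  have p1 : ∀ ζ, ph n (ra m n * t) e Λ ζ ≤ 1 := fun ζ => min_le_left _ _
  have q1 : Po (ph n (ra m n * t) e Λ) R (ra m n * t) ≤ 1 :=
    (Po_le (ph_cont _ _ _ _).continuousOn continuousOn_const hz fun ζ _ => p1 ζ).trans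
      (Po_const 1 hz).le
  have a1 : 0 ≤ Real.log 22 / Real.log (5 * e / η) :=
    div_nonneg (Real.log_nonneg (by norm_num))
      (Real.log_nonneg (by rw [le_div_iff₀ hη]; linarith))
  have a2 : 0 ≤ Po (fun t => uu m t (W n t)) R (ra m n * t) / (c - 1) :=
    div_nonneg ((uu_nonneg _ _ _).trans (uu_le_Po m n hz)) (by linarith)
  have a3 : 0 ≤ 2 * (1 - ra m n) / κ ^ 2 :=
    div_nonneg (by linarith [ra_lt m n]) (sq_nonneg _)
  have a4 : 0 ≤ ‖W n (ra m n * t)‖ ^ 2 / L ^ 2 := by positivity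
  have a5 := pb_nonneg m (z := ra m n * t) ⟨by rwa [nz], by rw [nz]; exact ra_lt m n⟩
  by_cases b0 : Bad L η c m n t
  · linarith [hB b0]
  by_cases b1 : ‖W n (ra m n * t)‖ ≤ L
  swap
  · have : 1 ≤ ‖W n (ra m n * t)‖ ^ 2 / L ^ 2 := by
      rw [le_div_iff₀ (by positivity), one_mul]
      exact pow_le_pow_left₀ hL.le (not_le.1 b1).le 2
    linarith
  by_cases b2 : Real.exp (-(m + 1) ^ 2) ≤ ‖hj (ra m n * t) ((m + 1) ^ 3)‖
  swap
  · linarith [pb_one m (not_le.1 b2)]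
  obtain ⟨q, hq, b3⟩ : ∃ q ∈ ball (0 : ℂ) η, c < uu m t (W n (ra m n * t) + q) := by
    by_contra k
    exact b0 ⟨b1, b2, fun q hq => not_lt.1 fun l => k ⟨q, hq, l⟩⟩
  have := hκ n R (ra m n) t q _ (ra_pos m n).le h1 h2 ht (ph_cont _ _ e Λ) p0 p1 (fun ζ k => by
    by_contra l
    refine k ?_
    have l2 := (le_abs_self _).trans (Complex.abs_re_le_norm (W n ζ - W n (ra m n * t)))
    rw [sub_re] at l2
    rw [ph, max_eq_right (by linarith [not_le.1 l]), zero_div, min_eq_right zero_le_one])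
    b1 (mem_ball_zero_iff.1 hq) b3
  linarith

theorem tp_ind {B : Set ℝ} (hB : MeasurableSet B) :
    IntervalIntegrable (B.indicator fun _ => (1 : ℝ)) MeasureTheory.volume 0 (2 * π) ∧
      ∫ θ in (0)..2 * π, B.indicator (fun _ => (1 : ℝ)) θ =
        (MeasureTheory.volume (B ∩ Set.Ioc 0 (2 * π))).toReal := by
  have h : (0 : ℝ) ≤ 2 * π := by positivity
  constructor
  · rw [intervalIntegrable_iff_integrableOn_Ioc_of_le h]
    exact (MeasureTheory.integrableOn_const measure_Ioc_lt_top.ne).indicator hB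
  · rw [intervalIntegral.integral_of_le h, MeasureTheory.integral_indicator hB,
      MeasureTheory.setIntegral_const, smul_eq_mul, mul_one, MeasureTheory.measureReal_def,
      MeasureTheory.Measure.restrict_apply hB]

theorem tp_avg {m n K : ℕ} {L η e c κ Λ R : ℝ} {B : Set ℝ} (hη : 0 < η) (he : 4 * η ≤ e)
    (hc : 1 < c) (hL : 0 < L) (hΛ : 0 < Λ) (h0 : 199 / 200 ≤ ra m n) (h1 : ra m n < R)
    (h2 : R < 1) (hK : K ≠ 0) (mB : MeasurableSet B)
    (hB : ∀ θ, Bad L η c m n (circleMap 0 1 θ) → θ ∈ B)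
    (hκ : ∀ (n : ℕ) (R ρ : ℝ) (t q : ℂ) (φ : ℂ → ℝ), 0 ≤ ρ → ρ < R → R < 1 → ‖t‖ = 1 →
      Continuous φ → (∀ ζ, 0 ≤ φ ζ) → (∀ ζ, φ ζ ≤ 1) →
      (∀ ζ, φ ζ ≠ 0 → e ≤ ‖W n ζ - W n (ρ * t)‖) → ‖W n (ρ * t)‖ ≤ L → ‖q‖ < η →
      c < uu m t (W n (ρ * t) + q) →
      Po φ R (ρ * t) ≤ Real.log 22 / Real.log (5 * e / η) +
        Po (fun t => uu m t (W n t)) R (ρ * t) / (c - 1) + 2 * (1 - ρ) / κ ^ 2) :
    (1 - (ra m n / R) ^ (2 * K)) * (‖co (W n) K‖ * R ^ K) ≤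
      4 * (e + Λ * (Real.log 22 / Real.log (5 * e / η)) + Λ * (2 * (1 - ra m n) / κ ^ 2) +
        Λ / (c - 1) * (5 / 2) +
        (Λ / L ^ 2 + 1 / (2 * Λ)) * circleAverage (fun z => ‖W n z‖ ^ 2) 0 (ra m n) +
        Λ * ((Real.log 11 + 3 * Real.log (m + 1)) / (m + 1) ^ 2) +
        circleAverage (fun z => max ((W n z).re - Λ / 2) 0) 0 R +
        Λ * ((2 * π)⁻¹ * (MeasureTheory.volume (B ∩ Set.Ioc 0 (2 * π))).toReal)) := by
  have r0 := ra_pos m n
  have r1 := ra_lt m n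
  have hs : sphere (0 : ℂ) |ra m n| ⊆ ball 0 R := by
    rw [abs_of_pos r0]
    exact sphere_subset_closedBall.trans (closedBall_subset_ball h1)
  have c2 : Continuous fun ζ => max ((W n ζ).re - Λ / 2) 0 :=
    ((tp_cre n).sub continuous_const).max continuous_const
  set A := e + Λ * (Real.log 22 / Real.log (5 * e / η)) + Λ * (2 * (1 - ra m n) / κ ^ 2) with hA
  have i0 : CircleIntegrable (fun _ => A) 0 (ra m n) := circleIntegrable_const _ _ _
  have i1 : CircleIntegrable (fun z => (Λ / (c - 1)) • Po (fun t => uu m t (W n t)) R z) 0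
      (ra m n) :=
    (((Po_cont (ba_U m n).continuousOn).mono hs).const_smul (Λ / (c - 1))).circleIntegrable'
  have i2 : CircleIntegrable (fun z => (Λ / L ^ 2 + 1 / (2 * Λ)) • ‖W n z‖ ^ 2) 0 (ra m n) :=
    ((((W_dif n).continuous.norm.pow 2).continuousOn).const_smul
      (Λ / L ^ 2 + 1 / (2 * Λ))).circleIntegrable'
  have i3 : CircleIntegrable (fun z => Λ • pb m z) 0 (ra m n) :=
    (((continuousOn_const.sub (pb_cont m r0 r1)).div_const _).const_smul Λ).circleIntegrable'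
  have i4 : CircleIntegrable (Po (fun ζ => max ((W n ζ).re - Λ / 2) 0) R) 0 (ra m n) :=
    ((Po_cont c2.continuousOn).mono hs).circleIntegrable'
  let U : ℂ → ℝ := fun z => A + (Λ / (c - 1)) • Po (fun t => uu m t (W n t)) R z +
    (Λ / L ^ 2 + 1 / (2 * Λ)) • ‖W n z‖ ^ 2 + Λ • pb m z +
    Po (fun ζ => max ((W n ζ).re - Λ / 2) 0) R z
  have iU : CircleIntegrable U 0 (ra m n) := (((i0.add i1).add i2).add i3).add i4
  have eU : circleAverage U 0 (ra m n) = A + (Λ / (c - 1)) *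
      circleAverage (fun t => uu m t (W n t)) 0 R + (Λ / L ^ 2 + 1 / (2 * Λ)) *
      circleAverage (fun z => ‖W n z‖ ^ 2) 0 (ra m n) + Λ * circleAverage (pb m) 0 (ra m n) +
      circleAverage (fun z => max ((W n z).re - Λ / 2) 0) 0 R := by
    have := circleAverage_add (((i0.add i1).add i2).add i3) i4
    rw [circleAverage_add ((i0.add i1).add i2) i3, circleAverage_add (i0.add i1) i2,
      circleAverage_add i0 i1, circleAverage_const, circleAverage_fun_smul,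
      circleAverage_fun_smul, circleAverage_fun_smul, avg_Po c2.continuousOn r0 h1,
      avg_Po (ba_U m n).continuousOn r0 h1] at this
    exact this
  obtain ⟨j1, j2⟩ := tp_ind mB
  have k := coef_inc (W_dif n) r0 h1 hK
    (V := fun θ => U (circleMap 0 (ra m n) θ) + Λ * B.indicator (fun _ => (1 : ℝ)) θ)
    (IntervalIntegrable.add iU (j1.const_mul Λ)) fun θ => by
      have ez : circleMap 0 (ra m n) θ = ra m n * circleMap 0 1 θ := by simp [circleMap]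
      have ht : ‖circleMap 0 1 θ‖ = 1 := by simp
      have u1 := tp_ph (s := B.indicator (fun _ => (1 : ℝ)) θ) hη he hc hL hΛ ht h0 h1 h2
        (Set.indicator_nonneg (fun _ _ => zero_le_one) θ)
        (fun b => by rw [Set.indicator_of_mem (hB θ b)]) hκ
      have u2 := tp_Po n (e := e) hΛ (by linarith) ((t1_norm ht m n).trans_lt h1)
      have u3 := mul_le_mul_of_nonneg_left u1 hΛ.le
      rw [ez]
      refine u2.trans ?_
      simp only [U, hA, smul_eq_mul]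
      simp only [div_eq_mul_inv] at u3 ⊢
      linarith
  rw [intervalIntegral.integral_add iU (j1.const_mul Λ), intervalIntegral.integral_const_mul, j2,
    mul_add (2 * π)⁻¹, ← smul_eq_mul (2 * π)⁻¹, ← circleAverage_def, eU] at k
  have v1 := mul_le_mul_of_nonneg_left (avg_uu m n (h0.trans h1.le) h2)
    (show 0 ≤ Λ / (c - 1) from div_nonneg hΛ.le (by linarith))
  have v2 := mul_le_mul_of_nonneg_left (pb_avg m r0 r1) hΛ.le
  refine k.trans ?_
  linarith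

theorem tp_log : Tendsto (fun m : ℕ => (Real.log 11 + 3 * Real.log (m + 1)) / ((m : ℝ) + 1) ^ 2)
    atTop (𝓝 0) := by
  refine squeeze_zero (g := fun m : ℕ => 14 * (1 / ((m : ℝ) + 1))) (fun m => ?_) (fun m => ?_) ?_
  · have : 0 ≤ Real.log ((m : ℝ) + 1) := Real.log_nonneg (by linarith [m.cast_nonneg (α := ℝ)])
    have : 0 ≤ Real.log 11 := Real.log_nonneg (by norm_num)
    positivity
  · have h1 := Real.log_le_sub_one_of_pos (show (0 : ℝ) < m + 1 by positivity)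
    have h2 := Real.log_le_sub_one_of_pos (show (0 : ℝ) < 11 by norm_num)
    have h3 := m.cast_nonneg (α := ℝ)
    rw [div_le_iff₀ (by positivity)]
    have : 14 * (1 / ((m : ℝ) + 1)) * (m + 1) ^ 2 = 14 * (m + 1) := by field_simp
    linarith
  · simpa using tendsto_one_div_add_atTop_nhds_zero_nat.const_mul (14 : ℝ)

theorem tp_end {x ρ : ℝ} {K m n : ℕ} (hx : 0 ≤ x) (r0 : 0 < ρ) (r1 : ρ < 1)
    (hp : ρ ^ (n + 1) = Real.exp (-(1 / (m + 1)))) (hK : (m + 1) * (n + 1) ≤ K)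
    (h : ∀ R, ρ < R → R < 1 → (1 - (ρ / R) ^ (2 * K)) * (x * R ^ K) ≤ 18 / 25) : x ≤ 1 := by
  have c : ContinuousAt (fun R : ℝ => (1 - (ρ / R) ^ (2 * K)) * (x * R ^ K)) 1 := by
    fun_prop (disch := norm_num)
  have k := le_of_tendsto (c.tendsto.mono_left (nhdsWithin_le_nhds (s := Set.Iio 1)))
    (eventually_of_mem (Ioo_mem_nhdsLT r1) fun R hR => h R hR.1 hR.2)
  simp only [div_one, one_pow, mul_one] at k
  have e1 : ρ ^ ((m + 1) * (n + 1)) = Real.exp (-1) := by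
    rw [mul_comm, pow_mul, hp, ← Real.exp_nat_mul]
    congr 1
    push_cast
    field_simp
  have e2 : Real.exp (-1) ≤ 1 / 2 := by
    rw [Real.exp_neg, one_div]
    exact inv_anti₀ (by norm_num) (by linarith [Real.add_one_le_exp 1])
  have e3 : ρ ^ K ≤ 1 / 2 := (pow_le_pow_of_le_one r0.le r1.le hK).trans (e1.trans_le e2)
  have e4 : ρ ^ (2 * K) ≤ (1 / 2) ^ 2 := by
    rw [mul_comm, pow_mul]
    exact pow_le_pow_left₀ (by positivity) e3 2
  nlinarith

theorem far : ∃ J : ℕ, ∀ᶠ n in atTop, ∀ K, J * (n + 1) ≤ K → ‖co (W n) K‖ ≤ 1 := by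
  obtain ⟨C, hC, ms⟩ := mean_sq
  obtain ⟨l₀, hl⟩ := eventually_atTop.1 (tail_small (ε := 1 / 50) (by norm_num))
  obtain ⟨Λ, hΛ1, hΛ2⟩ : ∃ Λ : ℝ, l₀ ≤ Λ / 2 ∧ 25 * C ≤ Λ :=
    ⟨max (2 * l₀) (25 * C), by linarith [le_max_left (2 * l₀) (25 * C)], le_max_right _ _⟩
  have hΛ : 0 < Λ := by linarith
  have l22 : 0 < Real.log 22 := Real.log_pos (by norm_num)
  obtain ⟨η, hη, he, s1⟩ : ∃ η : ℝ, 0 < η ∧ 4 * η ≤ 1 / 50 ∧
      Λ * (Real.log 22 / Real.log (5 * (1 / 50) / η)) ≤ 1 / 50 := by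
    have p : 0 < 50 * Λ * Real.log 22 := by positivity
    refine ⟨1 / 200 * Real.exp (-(50 * Λ * Real.log 22)), by positivity, ?_, ?_⟩
    · linarith [Real.exp_le_one_iff.2 (neg_nonpos.2 p.le)]
    · have e : 5 * (1 / 50) / (1 / 200 * Real.exp (-(50 * Λ * Real.log 22))) =
          20 * Real.exp (50 * Λ * Real.log 22) := by
        rw [Real.exp_neg]
        field_simp
        norm_num
      have l20 : 0 < Real.log 20 := Real.log_pos (by norm_num)
      rw [e, Real.log_mul (by norm_num) (Real.exp_pos _).ne', Real.log_exp, ← mul_div_assoc,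
        div_le_iff₀ (by positivity)]
      linarith
  obtain ⟨c, hc, s2⟩ : ∃ c : ℝ, 1 < c ∧ Λ / (c - 1) * (5 / 2) ≤ 1 / 50 :=
    ⟨1 + 125 * Λ, by linarith, by
      rw [add_sub_cancel_left]
      field_simp
      norm_num⟩
  obtain ⟨L, hL, s3⟩ : ∃ L : ℝ, 0 < L ∧ Λ / L ^ 2 * C ≤ 1 / 50 :=
    ⟨√(50 * Λ * C), by positivity, by
      rw [Real.sq_sqrt (by positivity)]
      field_simp
      norm_num⟩
  have s4 : 1 / (2 * Λ) * C ≤ 1 / 50 := by
    rw [one_div_mul_eq_div, div_le_iff₀ (by positivity)]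
    linarith
  have t1 := tp_log.const_mul Λ
  rw [mul_zero] at t1
  obtain ⟨m, ⟨B, mB, vB, hB⟩, s5⟩ := ((bad_small L c hη (ε := 2 * π / (50 * Λ)) (by positivity)).and
    (t1.eventually_le_const (show (0 : ℝ) < 1 / 50 by norm_num))).exists
  have s6 : Λ * ((2 * π)⁻¹ * (MeasureTheory.volume (B ∩ Set.Ioc 0 (2 * π))).toReal) ≤ 1 / 50 := by
    calc _ ≤ Λ * ((2 * π)⁻¹ * (2 * π / (50 * Λ))) := by gcongr
      _ = _ := by field_simp
  obtain ⟨κ, -, hκ⟩ := loc_bar m L hη he hc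
  have t2 : Tendsto (fun n => Λ * (2 * (1 - ra m n) / κ ^ 2)) atTop (𝓝 (Λ * (2 * (1 - 1) / κ ^ 2))) :=
    ((((ra_tendsto m).const_sub 1).const_mul 2).div_const _).const_mul Λ
  rw [sub_self, mul_zero, zero_div, mul_zero] at t2
  have hq : Real.exp (-(1 / ((m : ℝ) + 1))) < 1 := by
    rw [Real.exp_lt_one_iff, neg_lt_zero]
    positivity
  refine ⟨m + 1, ?_⟩
  filter_upwards [hB, ms _ hq, t2.eventually_le_const (show (0 : ℝ) < 1 / 50 by norm_num),
    (ra_tendsto m).eventually_const_le (show (199 / 200 : ℝ) < 1 by norm_num)] with n b1 b2 s7 h0 K hK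
  refine tp_end (norm_nonneg _) (ra_pos m n) (ra_lt m n) (ra_pow m n) hK fun R h1 h2 => ?_
  have hK0 : K ≠ 0 := by
    have : 0 < (m + 1) * (n + 1) := by positivity
    omega
  have s8 := hl (Λ / 2) hΛ1 n R (h0.trans h1.le) h2
  have s9 := mul_le_mul_of_nonneg_left (b2 (ra m n) (ra_pos m n) (ra_pow m n).le)
    (show 0 ≤ Λ / L ^ 2 + 1 / (2 * Λ) by positivity)
  refine (tp_avg hη he hc hL hΛ h0 h1 h2 hK0 mB b1 hκ).trans ?_
  linarith

theorem large : ∃ n₀ : ℕ, ∀ n, n₀ ≤ n → ∀ k, ‖iteratedDeriv k (F n) 0 / k.factorial‖ ≤ 1 := by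
  obtain ⟨J, hJ⟩ := far
  obtain ⟨n₀, h⟩ := eventually_atTop.1 (hJ.and (cone J))
  refine ⟨n₀, fun n hn k => ?_⟩
  rw [← coeff_shift (F_diff n) k]
  exact (lt_or_ge (k + 1) (J * (n + 1))).elim ((h n hn).2 _) ((h n hn).1 _)

end Pool.Agent.Lib.MP_f36384_an
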